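import Pool.Agent.LibLG5.Defs
import Pool.Agent.LibLG5.NT57

/-!
Interface to part NT: Mertens type inputs.
-/

open Finset Filter

namespace Pool.Agent.LibLG5

open Pool.Agent.LibRG87

/-- `∏_{z < p ≤ z^k} (1 + 1/(p-1)) ≤ C k` -/
theorem NT_S_upper : ∃ C : ℕ, 1 ≤ C ∧ ∀ k : ℕ, 1 ≤ k → ∀ᶠ z : ℕ in atTop,
    ∏ p ∈ PP z (z ^ k), (1 + 1 / ((p : ℝ) - 1)) ≤ C * k := by
  obtain ⟨C, hC, h⟩ := nt_ratio
  refine ⟨⌈C⌉₊ + 1, by omega, fun k hk => ?_⟩
  filter_upwards [eventually_ge_atTop 2] with z hz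
  rw [Finset.prod_congr rfl fun p hp => nt_one_add (nt_mem.1 hp).2.2]
  refine (h z k hz hk).trans ?_
  apply mul_le_mul_of_nonneg_right _ (Nat.cast_nonneg _)
  push_cast
  linarith [Nat.le_ceil C]

theorem NT_G_lower : ∃ c : ℝ, 0 < c ∧ ∀ k t : ℕ, 1 ≤ k → ∀ᶠ z : ℕ in atTop,
    ∀ T ⊆ PP z (z ^ k), T.card ≤ t → c * k ≤ Gn (PP z (z ^ k) \ T) z k := by
  obtain ⟨c, hc, h⟩ := nt_lower
  refine ⟨c, hc, fun k t hk => ?_⟩
  filter_upwards [eventually_ge_atTop 2, eventually_ge_atTop t] with z hz hzt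
  intro T _ hT
  have h1 := h z k k hz le_rfl T (hT.trans hzt)
  refine h1.trans (le_of_eq ?_)
  unfold Gn
  push_cast
  apply Finset.sum_congr _ (fun _ _ => rfl)
  ext A
  simp

theorem NT_D_lower : ∃ A : ℕ, 2 ≤ A ∧ ∃ c : ℝ, 0 < c ∧ ∀ I q0 : ℕ, 1 ≤ q0 → ∀ᶠ z : ℕ in atTop,
    c * I / Real.log z ≤ Dn (PP z (z ^ (A ^ I * q0))) z q0 (A ^ I * q0) := by
  obtain ⟨a, c, ha, hc, h⟩ := nt_D
  refine ⟨a, ha, c, hc, fun I q0 hq => ?_⟩
  filter_upwards [eventually_ge_atTop 2] with z hz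
  have h1 := h z I q0 hz hq ∅ (by simp)
  refine h1.trans (le_of_eq ?_)
  unfold Dn
  push_cast
  rw [Finset.sdiff_empty]

theorem NT_prod_le {z : ℕ} (hz : 2 ≤ z) :
    ∏ p ∈ (Finset.range (z + 1)).filter Nat.Prime, (1 - 1 / (p : ℝ)) ≤ 1 / Real.log z := by
  have h1 : Real.log z ≤ ∑ n ∈ Finset.Icc 1 z, 1 / (n : ℝ) := by
    have h2 := log_add_one_le_harmonic z
    have h3 : ((harmonic z : ℚ) : ℝ) = ∑ n ∈ Finset.Icc 1 z, 1 / (n : ℝ) := by
      rw [harmonic_eq_sum_Icc]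
      push_cast
      exact Finset.sum_congr rfl fun n _ => by rw [one_div]
    rw [h3] at h2
    refine le_trans (Real.log_le_log (by exact_mod_cast (by omega : 0 < z)) ?_) h2
    push_cast
    linarith
  have h2 := h1.trans ((Z_harm z).trans (Z_split z z))
  have hPP : PP z z = ∅ := by
    unfold PP; simp
  have h3 : ∑ A ∈ (PP z z).powerset.filter (fun A => rr A ≤ (z : ℝ)), 1 / ph A = 1 := by
    rw [hPP, Finset.powerset_empty]
    have h4 : ({∅} : Finset (Finset ℕ)).filter (fun A => rr A ≤ (z : ℝ)) = {∅} := by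
      rw [Finset.filter_eq_self]
      intro A hA
      rw [Finset.mem_singleton] at hA
      subst hA
      simp only [rr, Finset.prod_empty]
      exact_mod_cast (by omega : 1 ≤ z)
    rw [h4]
    simp [ph]
  rw [h3, mul_one] at h2
  have hlz : 0 < Real.log z := Real.log_pos (by exact_mod_cast (by omega : 1 < z))
  have hV : 0 < ∏ p ∈ (Finset.range (z + 1)).filter Nat.Prime, (1 - 1 / (p : ℝ)) := by
    apply Finset.prod_pos
    intro p hp
    have hp1 : (1 : ℝ) < p := by exact_mod_cast (Finset.mem_filter.1 hp).2.one_lt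
    have h2 : 1 / (p : ℝ) < 1 := by rw [div_lt_one (by linarith)]; exact hp1
    linarith
  rw [le_div_iff₀ hlz]
  have h5 := mul_le_mul_of_nonneg_left h2 hV.le
  rw [mul_inv_cancel₀ hV.ne'] at h5
  exact h5

theorem NT_primeFactors_primorial (w : ℕ) :
    (primorial w).primeFactors = (Finset.range (w + 1)).filter Nat.Prime := by
  unfold primorial
  apply Nat.primeFactors_prod
  intro p hp
  exact (Finset.mem_filter.1 hp).2

/-- `∏_{p ≤ z} (1 - 1/p) ≤ 1 / log z` -/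
theorem NT_V {z : ℕ} (hz : 2 ≤ z) {w : ℕ} (hw : w ≤ z) :
    ((primorial w).totient : ℝ) / (primorial w : ℝ) * V1 w z ≤ 1 / Real.log z := by
  have hpos : 0 < primorial w := primorial_pos w
  have h1 : ((primorial w).totient : ℝ) =
      primorial w * ∏ p ∈ (Finset.range (w + 1)).filter Nat.Prime, (1 - 1 / (p : ℝ)) := by
    have h2 := Nat.totient_eq_mul_prod_factors (primorial w)
    rw [NT_primeFactors_primorial] at h2
    have h3 : (((primorial w).totient : ℚ) : ℝ) =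
        ((primorial w * ∏ p ∈ (Finset.range (w + 1)).filter Nat.Prime, (1 - (p : ℚ)⁻¹) : ℚ) : ℝ) := by
      rw [h2]
    push_cast at h3
    rw [h3]
    congr 1
    exact Finset.prod_congr rfl fun p _ => by rw [one_div]
  have hposR : (0 : ℝ) < primorial w := by exact_mod_cast hpos
  rw [h1, mul_div_cancel_left₀ _ hposR.ne']
  refine le_trans (le_of_eq ?_) (NT_prod_le hz)
  unfold V1 PP
  rw [← Finset.prod_union]
  · apply Finset.prod_congr _ (fun _ _ => rfl)
    ext p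
    simp only [Finset.mem_union, Finset.mem_filter, Finset.mem_range, Finset.mem_Ioc]
    constructor
    · rintro (⟨h, hp⟩ | ⟨h, hp⟩)
      · exact ⟨by omega, hp⟩
      · exact ⟨by omega, hp⟩
    · rintro ⟨h, hp⟩
      by_cases h' : p < w + 1
      · exact Or.inl ⟨h', hp⟩
      · exact Or.inr ⟨⟨by omega, by omega⟩, hp⟩
  · rw [Finset.disjoint_left]
    intro p hp hp'
    simp only [Finset.mem_filter, Finset.mem_range, Finset.mem_Ioc] at hp hp'
    omega

/-- `z^ε` beats powers of `log z` (used in the form `(log z)^j ≤ z^(1/i)`) -/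
theorem log_pow_le (i j : ℕ) (_hi : 1 ≤ i) (C : ℝ) :
    ∀ᶠ z : ℕ in atTop, (C * Real.log z ^ j) ^ i ≤ z := by
  have h1 : (fun x : ℝ => C ^ i * Real.log x ^ (j * i)) =o[atTop] (fun x : ℝ => x) := by
    apply Asymptotics.IsLittleO.const_mul_left
    exact Real.isLittleO_pow_log_id_atTop
  have h2 := h1.comp_tendsto tendsto_natCast_atTop_atTop
  have h3 := h2.bound one_pos
  filter_upwards [h3] with z hz
  simp only [Function.comp, Real.norm_eq_abs, one_mul] at hz
  have h4 : |(z : ℝ)| = z := abs_of_nonneg (Nat.cast_nonneg z)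
  rw [h4] at hz
  calc (C * Real.log z ^ j) ^ i = C ^ i * Real.log z ^ (j * i) := by rw [mul_pow, pow_mul]
    _ ≤ _ := (le_abs_self _).trans hz

end Pool.Agent.LibLG5
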