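import Pool.Agent.LibLG5.Defs
import Pool.Agent.LibRG87.R0

/-!
Row M4: splitting the configurations at one position `i`. `β ↦ (rem i β, fb β i)` is a bijection onto the pairs
(`β'` not using `i`, `A ⊆ P \ sp β'`) with inverse `ins i A β'`. (`Finset.sum_sigma'` + `Finset.sum_bij'`, or
`Finset.sum_fiberwise`.)
-/

open Finset

namespace Pool.Agent.LibLG5

open Pool.Agent.LibRG87

variable {ι : Type} [Fintype ι] [DecidableEq ι] (P : Finset ℕ)

theorem M4_none {A : Finset ℕ} {β : P → Option ι} (hA : A ⊆ P \ sp P β) {p : P} (hp : (p : ℕ) ∈ A) :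
    β p = none := by
  have h := (Finset.mem_sdiff.1 (hA hp)).2
  by_contra h1
  exact h ((mem_sp P).2 ⟨p.2, h1⟩)

theorem M4_mem {A : Finset ℕ} {β : P → Option ι} (hA : A ⊆ P \ sp P β) {p : ℕ} (hp : p ∈ A) :
    p ∈ P := (Finset.mem_sdiff.1 (hA hp)).1

theorem M4_ins_mem (i : ι) {A : Finset ℕ} {β : P → Option ι} {p : P} (hp : (p : ℕ) ∈ A) :
    ins P i A β p = some i := by
  unfold ins
  rw [if_pos hp]

theorem M4_ins_notMem (i : ι) {A : Finset ℕ} {β : P → Option ι} {p : P} (hp : (p : ℕ) ∉ A) :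
    ins P i A β p = β p := by
  unfold ins
  rw [if_neg hp]

theorem rem_ins (i : ι) {A : Finset ℕ} {β : P → Option ι} (hβ : ∀ p, β p ≠ some i)
    (hA : A ⊆ P \ sp P β) : rem P i (ins P i A β) = β := by
  funext p
  unfold rem
  by_cases hp : (p : ℕ) ∈ A
  · rw [M4_ins_mem P i hp, if_pos rfl, M4_none P hA hp]
  · rw [M4_ins_notMem P i hp, if_neg (hβ p)]

theorem fb_ins_self (i : ι) {A : Finset ℕ} {β : P → Option ι} (hβ : ∀ p, β p ≠ some i)
    (hA : A ⊆ P \ sp P β) : fb P (ins P i A β) i = A := by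
  ext p
  rw [mem_fb]
  constructor
  · rintro ⟨h, h1⟩
    by_contra hp
    rw [M4_ins_notMem P i (p := ⟨p, h⟩) hp] at h1
    exact hβ _ h1
  · intro hp
    exact ⟨M4_mem P hA hp, M4_ins_mem P i (p := ⟨p, M4_mem P hA hp⟩) hp⟩

theorem fb_ins_ne (i : ι) {A : Finset ℕ} {β : P → Option ι} (hβ : ∀ p, β p ≠ some i)
    (hA : A ⊆ P \ sp P β) {j : ι} (hj : j ≠ i) : fb P (ins P i A β) j = fb P β j := by
  ext p
  rw [mem_fb, mem_fb]
  constructor
  · rintro ⟨h, h1⟩
    refine ⟨h, ?_⟩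
    by_cases hp : p ∈ A
    · rw [M4_ins_mem P i (p := ⟨p, h⟩) hp] at h1
      exact absurd (Option.some.inj h1).symm hj
    · rwa [M4_ins_notMem P i (p := ⟨p, h⟩) hp] at h1
  · rintro ⟨h, h1⟩
    refine ⟨h, ?_⟩
    by_cases hp : p ∈ A
    · rw [M4_none P hA (p := ⟨p, h⟩) hp] at h1
      exact absurd h1 (by simp)
    · rwa [M4_ins_notMem P i (p := ⟨p, h⟩) hp]

theorem fb_self_eq_empty {i : ι} {β : P → Option ι} (hβ : ∀ p, β p ≠ some i) : fb P β i = ∅ := by
  refine Finset.eq_empty_of_forall_notMem fun p hp => ?_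
  obtain ⟨h, h1⟩ := (mem_fb P).1 hp
  exact hβ _ h1

theorem M4_sp_ins (i : ι) {A : Finset ℕ} {β : P → Option ι} (hA : A ⊆ P \ sp P β) :
    sp P (ins P i A β) = A ∪ sp P β := by
  ext p
  rw [Finset.mem_union, mem_sp, mem_sp]
  constructor
  · rintro ⟨h, h1⟩
    by_cases hp : p ∈ A
    · exact Or.inl hp
    · rw [M4_ins_notMem P i (p := ⟨p, h⟩) hp] at h1
      exact Or.inr ⟨h, h1⟩
  · rintro (hp | ⟨h, h1⟩)
    · refine ⟨M4_mem P hA hp, ?_⟩
      rw [M4_ins_mem P i (p := ⟨p, M4_mem P hA hp⟩) hp]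
      simp
    · refine ⟨h, ?_⟩
      by_cases hp : p ∈ A
      · exact absurd (M4_none P hA (p := ⟨p, h⟩) hp) h1
      · rwa [M4_ins_notMem P i (p := ⟨p, h⟩) hp]

theorem M4_disj {A : Finset ℕ} {β : P → Option ι} (hA : A ⊆ P \ sp P β) : Disjoint A (sp P β) :=
  Finset.disjoint_left.2 fun _ hp => (Finset.mem_sdiff.1 (hA hp)).2

theorem rr_sp_ins (i : ι) {A : Finset ℕ} {β : P → Option ι} (hβ : ∀ p, β p ≠ some i)
    (hA : A ⊆ P \ sp P β) : rr (sp P (ins P i A β)) = rr A * rr (sp P β) := by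
  rw [M4_sp_ins P i hA]
  exact Finset.prod_union (M4_disj P hA)

theorem ph_sp_ins (i : ι) {A : Finset ℕ} {β : P → Option ι} (hβ : ∀ p, β p ≠ some i)
    (hA : A ⊆ P \ sp P β) : ph (sp P (ins P i A β)) = ph A * ph (sp P β) := by
  rw [M4_sp_ins P i hA]
  exact Finset.prod_union (M4_disj P hA)

theorem sui_ins (i : ι) {A : Finset ℕ} {β : P → Option ι} (hβ : ∀ p, β p ≠ some i)
    (hA : A ⊆ P \ sp P β) : sui P (ins P i A β) = if A = ∅ then sui P β else insert i (sui P β) := by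
  split_ifs with hA0
  · subst hA0
    congr 1
  · ext j
    unfold sui
    simp only [Finset.mem_filter, Finset.mem_univ, true_and, Finset.mem_insert]
    constructor
    · rintro ⟨p, hp⟩
      by_cases hpA : (p : ℕ) ∈ A
      · rw [M4_ins_mem P i hpA] at hp
        exact Or.inl (Option.some.inj hp).symm
      · rw [M4_ins_notMem P i hpA] at hp
        exact Or.inr ⟨p, hp⟩
    · rintro (rfl | ⟨p, hp⟩)
      · obtain ⟨q, hq⟩ := Finset.nonempty_iff_ne_empty.2 hA0
        exact ⟨⟨q, M4_mem P hA hq⟩, M4_ins_mem P _ (p := ⟨q, M4_mem P hA hq⟩) hq⟩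
      · refine ⟨p, ?_⟩
        by_cases hpA : (p : ℕ) ∈ A
        · rw [M4_none P hA hpA] at hp
          exact absurd hp (by simp)
        · rwa [M4_ins_notMem P i hpA]

theorem ee_ins (b : ι → ℕ) (i : ι) {A : Finset ℕ} {β : P → Option ι} (hβ : ∀ p, β p ≠ some i)
    (hA : A ⊆ P \ sp P β) (n : ℕ) (hn : ∀ p ∈ P, ¬ p ∣ n + b i) :
    ee P b (ins P i A β) n = ee P b β n / ph A := by
  classical
  have h1 : ∀ p : P, loc b p (ins P i A β p) n =
      loc b p (β p) n * (if (p : ℕ) ∈ A then 1 / ((p : ℝ) - 1) else 1) := by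
    intro p
    by_cases hp : (p : ℕ) ∈ A
    · rw [M4_ins_mem P i hp, M4_none P hA hp, if_pos hp]
      simp only [loc, one_mul]
      unfold psi
      rw [if_neg (hn p p.2)]
    · rw [M4_ins_notMem P i hp, if_neg hp, mul_one]
  unfold ee
  rw [Finset.prod_congr rfl fun p _ => h1 p, Finset.prod_mul_distrib, div_eq_mul_inv]
  congr 1
  rw [Finset.prod_coe_sort P (fun p : ℕ => if p ∈ A then 1 / ((p : ℝ) - 1) else 1),
    Finset.prod_ite_mem, Finset.inter_eq_right.2 (fun p hp => M4_mem P hA hp)]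
  unfold ph
  rw [← Finset.prod_inv_distrib]
  exact Finset.prod_congr rfl fun p _ => one_div _

theorem M4_ins_rem (i : ι) (β : P → Option ι) : ins P i (fb P β i) (rem P i β) = β := by
  funext p
  by_cases hp : (p : ℕ) ∈ fb P β i
  · rw [M4_ins_mem P i hp]
    obtain ⟨h, h1⟩ := (mem_fb P).1 hp
    exact h1.symm
  · rw [M4_ins_notMem P i hp]
    unfold rem
    rw [if_neg]
    intro h1
    exact hp ((mem_fb P).2 ⟨p.2, h1⟩)

theorem M4_rem_ne (i : ι) (β : P → Option ι) (p : P) : rem P i β p ≠ some i := by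
  unfold rem
  split_ifs with h
  · simp
  · exact h

theorem M4_fb_sub (i : ι) (β : P → Option ι) : fb P β i ⊆ P \ sp P (rem P i β) := by
  intro p hp
  obtain ⟨h, h1⟩ := (mem_fb P).1 hp
  refine Finset.mem_sdiff.2 ⟨h, fun h2 => ?_⟩
  obtain ⟨_, h3⟩ := (mem_sp P).1 h2
  apply h3
  unfold rem
  rw [if_pos h1]

open scoped Classical in
theorem split (i : ι) (F : (P → Option ι) → ℝ) :
    ∑ β, F β = ∑ β : P → Option ι, if ∀ p, β p ≠ some i then
      ∑ A ∈ (P \ sp P β).powerset, F (ins P i A β) else 0 := by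
  rw [← Finset.sum_filter, Finset.sum_sigma']
  refine Finset.sum_bij' (fun β _ => (⟨rem P i β, fb P β i⟩ : (_ : P → Option ι) × Finset ℕ))
    (fun x _ => ins P i x.2 x.1) ?_ ?_ ?_ ?_ ?_
  · intro β _
    simp only [Finset.mem_sigma, Finset.mem_filter, Finset.mem_univ, true_and,
      Finset.mem_powerset]
    exact ⟨M4_rem_ne P i β, M4_fb_sub P i β⟩
  · intro x _
    exact Finset.mem_univ _
  · intro β _
    exact M4_ins_rem P i β
  · rintro ⟨β, A⟩ hx
    simp only [Finset.mem_sigma, Finset.mem_filter, Finset.mem_univ, true_and,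
      Finset.mem_powerset] at hx
    simp only
    rw [rem_ins P i hx.1 hx.2, fb_ins_self P i hx.1 hx.2]
  · intro β _
    rw [M4_ins_rem]

end Pool.Agent.LibLG5
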