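import Pool.Agent.LibLG5.SS
import Pool.Agent.LibLG5.NT

/-!
Definitions for the main part.
-/

open Finset Filter

namespace Pool.Agent.LibLG5

open Pool.Agent.LibRG87

section

variable {ι : Type} [Fintype ι] [DecidableEq ι]

open scoped Classical in
/-- number of positions `i` with `n + b i` free of primes in `(w, z]` -/
noncomputable def Nr (w z : ℕ) (b : ι → ℕ) (n : ℕ) : ℕ :=
  ((Finset.univ : Finset ι).filter fun i => ∀ p ∈ PP w z, ¬ p ∣ n + b i).card

open scoped Classical in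
/-- number of positions `i` with `n + b i` free of primes in `(w, z]` and in `(z, u]` -/
noncomputable def Nb (w z u : ℕ) (b : ι → ℕ) (n : ℕ) : ℕ :=
  ((Finset.univ : Finset ι).filter fun i =>
    (∀ p ∈ PP w z, ¬ p ∣ n + b i) ∧ ∀ p ∈ PP z u, ¬ p ∣ n + b i).card

/-- the function `Φ` -/
noncomputable def PHI (z q0 k1 : ℕ) (b : ι → ℕ) (n : ℕ) : ℝ :=
  PhiR (PP z (z ^ k1)) (wf z) z b (y5 (PP z (z ^ k1)) z q0 k1) ∅ n

/-- its diagonal -/
noncomputable def DG (z q0 k1 : ℕ) (b : ι → ℕ) : ℝ :=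
  dg (PP z (z ^ k1)) (wf z) z b ∅ (y5 (PP z (z ^ k1)) z q0 k1)

open scoped Classical in
/-- the truncated weight -/
noncomputable def X5 (z q0 k1 T : ℕ) (b : ι → ℕ) (n : ℕ) : ℝ :=
  if Nb (wf z) z (z ^ k1) b n = 0 ∧ Nr (wf z) z b n ≤ T then PHI z q0 k1 b n ^ 2 else 0

open scoped Classical in
/-- the part of the diagonal above the level `z^k1` -/
noncomputable def Tbig (z q0 k1 : ℕ) (b : ι → ℕ) : ℝ :=
  ∑ β : PP z (z ^ k1) → Option ι, if (z : ℝ) ^ k1 < rr (sp (PP z (z ^ k1)) β) then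
    y5 (PP z (z ^ k1)) z q0 k1 β ^ 2 * VV (wf z) z (su (PP z (z ^ k1)) b β) /
      ph (sp (PP z (z ^ k1)) β) else 0

/-- the V-step, for at most `K + 1` positions (the conclusion of `VV_union` for one new position) -/
def Vstep (K : ℕ) (δ : ℝ) (z : ℕ) : Prop :=
  ∀ (A : Finset ℕ) (x : ℕ), A.card ≤ K → x ∉ A → (∀ a ∈ insert x A, (a : ℝ) ≤ Real.log z ^ 2) →
    VV (wf z) z (insert x A) ≤ (1 + δ) * V1 (wf z) z * VV (wf z) z A

end

end Pool.Agent.LibLG5
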