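import Pool.Agent.LibLG5.M2
import Pool.Agent.LibLG5.M0

/-!
Row M9: pointwise bound.
-/

open Finset

namespace Pool.Agent.LibLG5

open Pool.Agent.LibRG87

variable {ι : Type} [Fintype ι] [DecidableEq ι]

omit [Fintype ι] in
theorem M9_card (R : Finset ι) (K : ℕ) :
    ((R.powerset.filter (fun B => B.card ≤ K)).card : ℝ) ≤ (1 + (R.card : ℝ)) ^ K := by
  have h1 : R.powerset.filter (fun B => B.card ≤ K) =
      (range (K + 1)).biUnion (fun j => Finset.powersetCard j R) := by
    ext B
    simp only [mem_filter, mem_powerset, mem_biUnion, mem_range, mem_powersetCard]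
    constructor
    · rintro ⟨h, h'⟩
      exact ⟨B.card, by omega, h, rfl⟩
    · rintro ⟨j, hj, h, rfl⟩
      exact ⟨h, by omega⟩
  have h2 : (R.powerset.filter (fun B => B.card ≤ K)).card ≤
      ∑ j ∈ range (K + 1), R.card.choose j := by
    rw [h1]
    refine Finset.card_biUnion_le.trans (le_of_eq ?_)
    exact Finset.sum_congr rfl fun j _ => Finset.card_powersetCard _ _
  have h3 : ((R.powerset.filter (fun B => B.card ≤ K)).card : ℝ) ≤
      ∑ j ∈ range (K + 1), (R.card.choose j : ℝ) := by exact_mod_cast h2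
  refine h3.trans ?_
  calc ∑ j ∈ range (K + 1), (R.card.choose j : ℝ)
      ≤ ∑ j ∈ range (K + 1), (R.card : ℝ) ^ j * 1 ^ (K - j) * (K.choose j : ℝ) := by
        apply Finset.sum_le_sum
        intro j hj
        have a1 : 1 ≤ K.choose j := Nat.choose_pos (by have := mem_range.mp hj; omega)
        have a2 : (1 : ℝ) ≤ (K.choose j : ℝ) := by exact_mod_cast a1
        have a3 : (R.card.choose j : ℝ) ≤ (R.card : ℝ) ^ j := by
          exact_mod_cast Nat.choose_le_pow _ _
        rw [one_pow, mul_one]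
        exact a3.trans (le_mul_of_one_le_right (by positivity) a2)
    _ = (1 + (R.card : ℝ)) ^ K := by rw [← add_pow, add_comm]

theorem M9_div (z u t N : ℕ) (hz : 2 ≤ z) (hN : 0 < N) (hNt : N ≤ z ^ t) :
    ((PP z u).filter (fun p => p ∣ N)).card ≤ t := by
  set S := (PP z u).filter (fun p => p ∣ N) with hS
  have hprime : ∀ p ∈ S, p.Prime := by
    intro p hp
    have := (mem_filter.mp hp).1
    rw [PP, mem_filter] at this
    exact this.2
  have hdvd : ∏ p ∈ S, p ∣ N := by
    apply Finset.prod_primes_dvd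
    · exact fun p hp => (hprime p hp).prime
    · exact fun p hp => (mem_filter.mp hp).2
  have h1 : z ^ S.card ≤ ∏ p ∈ S, p := by
    apply Finset.pow_card_le_prod
    intro p hp
    have := (mem_filter.mp hp).1
    rw [PP, mem_filter, mem_Ioc] at this
    exact this.1.1.le
  have h2 : z ^ S.card ≤ z ^ t := h1.trans ((Nat.le_of_dvd hN hdvd).trans hNt)
  exact (Nat.pow_le_pow_iff_right hz).mp h2

theorem M9_one (z u t N : ℕ) (hz : 2 ≤ z) (hN : 0 < N) (hNt : N ≤ z ^ t) :
    ∏ p ∈ PP z u, (1 + |psi p N|) ≤ 2 ^ t * ∏ p ∈ PP z u, (1 + 1 / ((p : ℝ) - 1)) := by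
  classical
  have hp2 : ∀ p ∈ PP z u, (2 : ℝ) ≤ p := by
    intro p hp
    rw [PP, mem_filter] at hp
    exact_mod_cast hp.2.two_le
  have hpos : ∀ p ∈ PP z u, (0 : ℝ) ≤ 1 / ((p : ℝ) - 1) := by
    intro p hp
    have := hp2 p hp
    apply div_nonneg zero_le_one
    linarith
  have h1 : ∀ p ∈ PP z u, (1 + |psi p N|) ≤
      (if p ∣ N then (2 : ℝ) else 1) * (1 + 1 / ((p : ℝ) - 1)) := by
    intro p hp
    have h0 := hpos p hp
    unfold psi
    split_ifs with h
    · rw [abs_neg, abs_one]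
      nlinarith
    · rw [abs_of_nonneg h0, one_mul]
  calc ∏ p ∈ PP z u, (1 + |psi p N|)
      ≤ ∏ p ∈ PP z u, ((if p ∣ N then (2 : ℝ) else 1) * (1 + 1 / ((p : ℝ) - 1))) :=
        Finset.prod_le_prod (fun p _ => by positivity) h1
    _ = (∏ p ∈ PP z u, (if p ∣ N then (2 : ℝ) else 1)) *
        ∏ p ∈ PP z u, (1 + 1 / ((p : ℝ) - 1)) := Finset.prod_mul_distrib
    _ ≤ _ := by
        apply mul_le_mul_of_nonneg_right
        · rw [Finset.prod_ite, Finset.prod_const, Finset.prod_const_one, mul_one]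
          exact pow_le_pow_right₀ (by norm_num) (M9_div z u t N hz hN hNt)
        · apply Finset.prod_nonneg
          intro p hp
          have := hpos p hp
          linarith

theorem M9_one_le (z u : ℕ) : (1 : ℝ) ≤ ∏ p ∈ PP z u, (1 + 1 / ((p : ℝ) - 1)) := by
  apply Finset.one_le_prod
  intro p hp
  rw [PP, mem_filter] at hp
  have h2 : (2 : ℝ) ≤ p := by exact_mod_cast hp.2.two_le
  have : (0 : ℝ) ≤ 1 / ((p : ℝ) - 1) := by
    apply div_nonneg zero_le_one
    linarith
  linarith

omit [Fintype ι] in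
theorem M9_bern (f : ι → ℝ) (hf : ∀ i, 0 ≤ f i) (B : Finset ι) :
    1 + ∑ i ∈ B, f i ≤ ∏ i ∈ B, (1 + f i) := by
  induction B using Finset.induction_on with
  | empty => simp
  | insert i B hi ih =>
    rw [Finset.sum_insert hi, Finset.prod_insert hi]
    have h3 : (1 : ℝ) ≤ ∏ i ∈ B, (1 + f i) := by
      apply Finset.one_le_prod
      intro j _
      linarith [hf j]
    nlinarith [hf i]

omit [Fintype ι] in
theorem M9_inner (P : Finset ℕ) (b : ι → ℕ) (n : ℕ) (B : Finset ι) :
    ∑ β ∈ Fintype.piFinset (fun _ : P => Finset.insertNone B), |ee P b β n| ≤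
      ∏ i ∈ B, ∏ p ∈ P, (1 + |psi p (n + b i)|) := by
  classical
  have h1 : ∑ β ∈ Fintype.piFinset (fun _ : P => Finset.insertNone B), |ee P b β n| =
      ∏ p : P, ∑ o ∈ Finset.insertNone B, |loc b (p : ℕ) o n| := by
    rw [Finset.prod_univ_sum]
    apply Finset.sum_congr rfl
    intro β _
    rw [ee, Finset.abs_prod]
  rw [h1, Finset.prod_comm, ← Finset.prod_coe_sort P]
  apply Finset.prod_le_prod
  · intro p _
    exact Finset.sum_nonneg fun o _ => abs_nonneg _
  · intro p _
    have h2 : ∑ o ∈ Finset.insertNone B, |loc b (p : ℕ) o n| =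
        1 + ∑ i ∈ B, |psi p (n + b i)| := by
      rw [Finset.sum_insertNone]
      simp [loc]
    rw [h2]
    exact M9_bern (fun i => |psi p (n + b i)|) (fun i => abs_nonneg _) B

theorem PHI_abs_le (z q0 k1 K t : ℕ) (hz : 2 ≤ z) (hq : 1 ≤ q0) (hK : 2 * k1 ≤ K * q0)
    (hD : 0 < Dn (PP z (z ^ k1)) z q0 k1)
    (hD1 : 1 ≤ Dn (PP z (z ^ k1)) z q0 k1 * (q0 * Real.log z))
    (b : ι → ℕ) (n : ℕ) (hn : ∀ i, 0 < n + b i ∧ n + b i ≤ z ^ t) :
    |PHI z q0 k1 b n| ≤
      ((1 + Nr (wf z) z b n) * (2 ^ t * ∏ p ∈ PP z (z ^ k1), (1 + 1 / ((p : ℝ) - 1)))) ^ K := by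
  classical
  set P := PP z (z ^ k1) with hPdef
  have hP : ∀ p ∈ P, Nat.Prime p := by
    intro p hp
    rw [hPdef, PP, mem_filter] at hp
    exact hp.2
  set R : Finset ι := (Finset.univ : Finset ι).filter
    (fun i => ∀ p ∈ PP (wf z) z, ¬ p ∣ n + b i) with hR
  have hNr : Nr (wf z) z b n = R.card := by
    unfold Nr
    rw [hR]
  set G : ℝ := 2 ^ t * ∏ p ∈ P, (1 + 1 / ((p : ℝ) - 1)) with hG
  have hG1 : 1 ≤ G := by
    have h1 : (1 : ℝ) ≤ 2 ^ t := one_le_pow₀ (by norm_num)
    have h2 := M9_one_le z (z ^ k1)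
    rw [← hPdef] at h2
    rw [hG]
    nlinarith
  set U := R.powerset.filter (fun B => B.card ≤ K) with hU
  -- each configuration
  have hterm : ∀ β : P → Option ι,
      |y5 P z q0 k1 β * rho (wf z) z (∅ ∪ su P b β) n * ee P b β n| ≤
      ∑ B ∈ U, if β ∈ Fintype.piFinset (fun _ : P => Finset.insertNone B) then
        |ee P b β n| else 0 := by
    intro β
    have hnn : ∀ B ∈ U, (0 : ℝ) ≤
        if β ∈ Fintype.piFinset (fun _ : P => Finset.insertNone B) then
          |ee P b β n| else 0 := by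
      intro B _
      split_ifs
      · exact abs_nonneg _
      · exact le_rfl
    by_cases hy : y5 P z q0 k1 β = 0
    · rw [hy, zero_mul, zero_mul, abs_zero]
      exact Finset.sum_nonneg hnn
    by_cases hr : ∀ a ∈ (∅ ∪ su P b β : Finset ℕ), ∀ p ∈ PP (wf z) z, ¬ p ∣ n + a
    · have hrho : rho (wf z) z (∅ ∪ su P b β) n = 1 := by
        unfold rho
        rw [if_pos hr]
      have hB : sui P β ∈ U := by
        rw [hU, mem_filter, mem_powerset]
        refine ⟨?_, (y5_supp P z q0 k1 hP hz hq hK β hy).2⟩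
        intro i hi
        rw [hR, mem_filter]
        refine ⟨mem_univ _, ?_⟩
        apply hr
        rw [Finset.empty_union, su]
        exact mem_image_of_mem b hi
      refine le_trans ?_ (Finset.single_le_sum hnn hB)
      rw [if_pos]
      · rw [hrho, mul_one, abs_mul]
        exact mul_le_of_le_one_left (abs_nonneg _) (y5_abs_le P z q0 k1 hP hz hq hD hD1 β)
      · rw [Fintype.mem_piFinset]
        intro p
        rw [Finset.mem_insertNone]
        intro i hi
        simp only [sui, mem_filter, mem_univ, true_and]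
        exact ⟨p, hi⟩
    · have hrho : rho (wf z) z (∅ ∪ su P b β) n = 0 := by
        unfold rho
        rw [if_neg hr]
      rw [hrho, mul_zero, zero_mul, abs_zero]
      exact Finset.sum_nonneg hnn
  have h1 : |PHI z q0 k1 b n| ≤ ∑ B ∈ U,
      ∑ β ∈ Fintype.piFinset (fun _ : P => Finset.insertNone B), |ee P b β n| := by
    calc |PHI z q0 k1 b n|
        ≤ ∑ β : P → Option ι, |y5 P z q0 k1 β * rho (wf z) z (∅ ∪ su P b β) n * ee P b β n| := by
          unfold PHI PhiR
          exact Finset.abs_sum_le_sum_abs _ _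
      _ ≤ ∑ β : P → Option ι, ∑ B ∈ U,
            (if β ∈ Fintype.piFinset (fun _ : P => Finset.insertNone B) then
              |ee P b β n| else 0) := Finset.sum_le_sum fun β _ => hterm β
      _ = ∑ B ∈ U, ∑ β ∈ Fintype.piFinset (fun _ : P => Finset.insertNone B),
            |ee P b β n| := by
          rw [Finset.sum_comm]
          apply Finset.sum_congr rfl
          intro B _
          rw [← Finset.sum_filter]
          congr 1
          ext β
          simp
  refine h1.trans ?_
  have h2 : ∀ B ∈ U, ∑ β ∈ Fintype.piFinset (fun _ : P => Finset.insertNone B),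
      |ee P b β n| ≤ G ^ K := by
    intro B hB
    refine (M9_inner P b n B).trans ?_
    calc ∏ i ∈ B, ∏ p ∈ P, (1 + |psi p (n + b i)|)
        ≤ ∏ i ∈ B, G := by
          apply Finset.prod_le_prod
          · intro i _
            exact Finset.prod_nonneg fun p _ => by positivity
          · intro i _
            exact M9_one z (z ^ k1) t (n + b i) hz (hn i).1 (hn i).2
      _ = G ^ B.card := Finset.prod_const _
      _ ≤ G ^ K := pow_le_pow_right₀ hG1 (mem_filter.mp hB).2
  calc ∑ B ∈ U, ∑ β ∈ Fintype.piFinset (fun _ : P => Finset.insertNone B), |ee P b β n|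
      ≤ ∑ B ∈ U, G ^ K := Finset.sum_le_sum h2
    _ = (U.card : ℝ) * G ^ K := by rw [Finset.sum_const, nsmul_eq_mul]
    _ ≤ (1 + (R.card : ℝ)) ^ K * G ^ K :=
        mul_le_mul_of_nonneg_right (M9_card R K) (by positivity)
    _ = ((1 + Nr (wf z) z b n) * G) ^ K := by rw [hNr, mul_pow (1 + (R.card : ℝ)) G]

end Pool.Agent.LibLG5
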