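import Pool.Agent.LibLG5.S6

/-!
Interface of part S (helper99): the sieve lemma and the V-step.
-/

open Finset Filter

namespace Pool.Agent.LibLG5

open Pool.Agent.LibRG87

/-- Brun-Hooley fundamental lemma with periodic factors at large primes -/
theorem lemmaS : ∃ C : ℕ, 1 ≤ C ∧ ∀ k b0 : ℕ, 1 ≤ k → Even b0 → eps0 C k b0 ≤ 1 → ∀ᶠ z : ℕ in atTop,
    ∀ (c M : ℕ) (B T : Finset ℕ) (g : ℕ → ℕ → ℝ), B.card ≤ k →
      (∀ p ∈ T, p.Prime ∧ z < p) → (∀ p ∈ T, ∀ n, g p (n + p) = g p n) →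
      |∑ m ∈ range M, rho (wf z) z B (c + primorial (wf z) * m) *
            ∏ p ∈ T, g p (c + primorial (wf z) * m) -
          M * VV (wf z) z B * ∏ p ∈ T, ((∑ x ∈ range p, g p x) / (p : ℝ))| ≤
        eps0 C k b0 * M * VV (wf z) z B * ∏ p ∈ T, ((∑ x ∈ range p, |g p x|) / (p : ℝ)) +
          (z : ℝ) ^ (2 * b0 + 6) * ∏ p ∈ T, ∑ x ∈ range p, |g p x| := by
  obtain ⟨C, hC1, hC⟩ := lemmaS_gen
  refine ⟨C, hC1, fun k b0 _ hb heps => ?_⟩
  filter_upwards [hC k b0 hb heps, wf_tendsto'.eventually_ge_atTop (2 * k + 2)] with z hz hw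
  intro c M B T g hB hT hg
  have h := hz (wf z) (primorial (wf z)) hw (wf_le z) (fun p hp hd => primorial_dvd_le _ p hp hd)
    c M B hB T hT g (fun p hp n => hg p hp n)
  unfold mean amean tot at h
  rw [mul_assoc (M : ℝ), mul_assoc (eps0 C k b0 : ℝ), mul_assoc (eps0 C k b0 : ℝ),
    mul_assoc (M : ℝ)]
  exact h

theorem VV_union (K : ℕ) {δ : ℝ} (hδ : 0 < δ) : ∀ᶠ z : ℕ in atTop, ∀ A A' : Finset ℕ,
    A.card ≤ K → A'.card ≤ K → Disjoint A A' → (∀ a ∈ A ∪ A', (a : ℝ) ≤ Real.log z ^ 2) →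
      VV (wf z) z (A ∪ A') ≤ (1 + δ) * VV (wf z) z A * VV (wf z) z A' := VV_union' K hδ

theorem VV_nonneg (w z : ℕ) (B : Finset ℕ) : 0 ≤ VV w z B := VV_nonneg' w z B

theorem VV_le_one (w z : ℕ) (B : Finset ℕ) : VV w z B ≤ 1 := VV_le_one' w z B

theorem VV_empty (w z : ℕ) : VV w z ∅ = 1 := VV_empty' w z

theorem VV_singleton (w z a : ℕ) : VV w z {a} = V1 w z := VV_singleton' w z a

theorem VV_anti (w z : ℕ) {A B : Finset ℕ} (h : A ⊆ B) : VV w z B ≤ VV w z A := VV_anti' w z h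

theorem V1_pos (w z : ℕ) : 0 < V1 w z := V1_pos' w z

/-- from `VV_union` by induction -/
theorem VV_le_pow (K : ℕ) : ∀ᶠ z : ℕ in atTop, ∀ B : Finset ℕ, B.card ≤ K →
    (∀ a ∈ B, (a : ℝ) ≤ Real.log z ^ 2) → VV (wf z) z B ≤ 2 * V1 (wf z) z ^ B.card := VV_le_pow' K

/-- `wf z → ∞` and `primorial (wf z) ≤ sqrt (log z / log 2)` -/
theorem wf_tendsto : Tendsto wf atTop atTop := wf_tendsto'

theorem primorial_wf_le {z : ℕ} (hz : 4 ≤ z) : (primorial (wf z) : ℝ) ^ 2 ≤ Real.log z / Real.log 2 :=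
  primorial_wf_le' hz

end Pool.Agent.LibLG5
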