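import Pool.Agent.LibLG5.Defs
import Pool.Agent.LibRG87.R0

/-!
Row M1: facts on the coefficients `f5` (compare LibRG87 row R5). `P` any finite set of primes `> z ≥ 2`,
`Dn P z q0 k1 > 0`; `hD : 1 ≤ Dn * (q0 * log z)` gives `|f5| ≤ 1` because `log (rr A) > q0 log z`.
`f5_sum`: the term `A = ∅` is `1`, the others sum to `- Dn / Dn = -1`.
-/

open Finset

namespace Pool.Agent.LibLG5

open Pool.Agent.LibRG87

variable (P : Finset ℕ) (z q0 k1 : ℕ)

theorem f5_empty : f5 P z q0 k1 ∅ = 1 := by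
  simp [f5]

theorem M1_one_lt {z q0 k1 : ℕ} (hz : 2 ≤ z) {A : Finset ℕ}
    (h : (z : ℝ) ^ q0 < rr A ∧ rr A ≤ (z : ℝ) ^ k1) : 1 < rr A := by
  have h1 : (1 : ℝ) ≤ (z : ℝ) ^ q0 := one_le_pow₀ (by exact_mod_cast (by omega : 1 ≤ z))
  linarith [h.1]

theorem M1_ne_empty {z q0 k1 : ℕ} (hz : 2 ≤ z) {A : Finset ℕ}
    (h : (z : ℝ) ^ q0 < rr A ∧ rr A ≤ (z : ℝ) ^ k1) : A ≠ ∅ := by
  rintro rfl
  have h1 := M1_one_lt hz h
  unfold rr at h1
  rw [Finset.prod_empty] at h1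
  exact lt_irrefl _ h1

theorem M1_log_pos {z q0 k1 : ℕ} (hz : 2 ≤ z) {A : Finset ℕ}
    (h : (z : ℝ) ^ q0 < rr A ∧ rr A ≤ (z : ℝ) ^ k1) : 0 < Real.log (rr A) :=
  Real.log_pos (M1_one_lt hz h)

theorem f5_sum (hP : ∀ p ∈ P, Nat.Prime p) (hz : 2 ≤ z) (hD : 0 < Dn P z q0 k1) :
    ∑ A ∈ P.powerset, f5 P z q0 k1 A / ph A = 0 := by
  classical
  have h1 : ∀ A ∈ P.powerset, f5 P z q0 k1 A / ph A = (if A = ∅ then (1 : ℝ) else 0) -
      (1 / Dn P z q0 k1) * (if ((z : ℝ) ^ q0 < rr A ∧ rr A ≤ (z : ℝ) ^ k1) then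
        1 / (ph A * Real.log (rr A)) else 0) := by
    intro A hA
    rw [Finset.mem_powerset] at hA
    have hph := ph_pos P hP hA
    by_cases hA0 : A = ∅
    · have h2 : ¬ ((z : ℝ) ^ q0 < rr A ∧ rr A ≤ (z : ℝ) ^ k1) := fun h => M1_ne_empty hz h hA0
      rw [if_neg h2, if_pos hA0, hA0, f5_empty]
      unfold ph
      rw [Finset.prod_empty]
      norm_num
    · unfold f5
      rw [if_neg hA0, if_neg hA0]
      by_cases h2 : (z : ℝ) ^ q0 < rr A ∧ rr A ≤ (z : ℝ) ^ k1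
      · rw [if_pos h2, if_pos h2]
        have h3 := M1_log_pos hz h2
        field_simp
        ring
      · rw [if_neg h2, if_neg h2]
        simp
  have h5 : ∑ A ∈ P.powerset, (if A = ∅ then (1 : ℝ) else 0) = 1 := by
    rw [Finset.sum_ite_eq' P.powerset ∅ (fun _ => (1 : ℝ)), if_pos (Finset.empty_mem_powerset P)]
  have h4 : ∑ A ∈ P.powerset, (if ((z : ℝ) ^ q0 < rr A ∧ rr A ≤ (z : ℝ) ^ k1) then
      1 / (ph A * Real.log (rr A)) else 0) = Dn P z q0 k1 := by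
    rw [← Finset.sum_filter]
    unfold Dn
    congr
  rw [Finset.sum_congr rfl h1, Finset.sum_sub_distrib, ← Finset.mul_sum, h4, h5, one_div,
    inv_mul_cancel₀ hD.ne', sub_self]

theorem f5_sq_log (hP : ∀ p ∈ P, Nat.Prime p) (hz : 2 ≤ z) (hD : 0 < Dn P z q0 k1) :
    ∑ A ∈ P.powerset, f5 P z q0 k1 A ^ 2 * Real.log (rr A) / ph A = 1 / Dn P z q0 k1 := by
  classical
  have h1 : ∀ A ∈ P.powerset, f5 P z q0 k1 A ^ 2 * Real.log (rr A) / ph A =
      (1 / Dn P z q0 k1 ^ 2) * (if ((z : ℝ) ^ q0 < rr A ∧ rr A ≤ (z : ℝ) ^ k1) then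
        1 / (ph A * Real.log (rr A)) else 0) := by
    intro A hA
    rw [Finset.mem_powerset] at hA
    have hph := ph_pos P hP hA
    by_cases hA0 : A = ∅
    · have h2 : ¬ ((z : ℝ) ^ q0 < rr A ∧ rr A ≤ (z : ℝ) ^ k1) := fun h => M1_ne_empty hz h hA0
      rw [if_neg h2, hA0, f5_empty]
      unfold rr
      rw [Finset.prod_empty, Real.log_one]
      simp
    · unfold f5
      rw [if_neg hA0]
      by_cases h2 : (z : ℝ) ^ q0 < rr A ∧ rr A ≤ (z : ℝ) ^ k1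
      · rw [if_pos h2, if_pos h2]
        have h3 := M1_log_pos hz h2
        field_simp
      · rw [if_neg h2, if_neg h2]
        simp
  have h4 : ∑ A ∈ P.powerset, (if ((z : ℝ) ^ q0 < rr A ∧ rr A ≤ (z : ℝ) ^ k1) then
      1 / (ph A * Real.log (rr A)) else 0) = Dn P z q0 k1 := by
    rw [← Finset.sum_filter]
    unfold Dn
    congr
  rw [Finset.sum_congr rfl h1, ← Finset.mul_sum, h4]
  field_simp

theorem f5_abs_le (hP : ∀ p ∈ P, Nat.Prime p) (hz : 2 ≤ z) (hq : 1 ≤ q0) (hD : 0 < Dn P z q0 k1)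
    (hD1 : 1 ≤ Dn P z q0 k1 * (q0 * Real.log z)) (A : Finset ℕ) : |f5 P z q0 k1 A| ≤ 1 := by
  classical
  unfold f5
  split_ifs with h1 h2
  · simp
  · have h3 := M1_log_pos hz h2
    have hz0 : (0 : ℝ) < z := by exact_mod_cast (by omega : 0 < z)
    have h4 : (q0 : ℝ) * Real.log z ≤ Real.log (rr A) := by
      rw [← Real.log_pow]
      exact Real.log_le_log (pow_pos hz0 _) h2.1.le
    have h5 : 1 ≤ Dn P z q0 k1 * Real.log (rr A) :=
      hD1.trans (mul_le_mul_of_nonneg_left h4 hD.le)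
    rw [abs_neg, abs_of_nonneg (by positivity), div_le_one (by positivity)]
    exact h5
  · simp

theorem f5_nonpos (hP : ∀ p ∈ P, Nat.Prime p) (hz : 2 ≤ z) (hD : 0 < Dn P z q0 k1)
    {A : Finset ℕ} (hA : A ≠ ∅) : f5 P z q0 k1 A ≤ 0 := by
  classical
  unfold f5
  rw [if_neg hA]
  split_ifs with h2
  · have h3 := M1_log_pos hz h2
    rw [neg_nonpos]
    positivity
  · exact le_refl _

theorem f5_ne {A : Finset ℕ} (hA : A ≠ ∅) (h : f5 P z q0 k1 A ≠ 0) :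
    (z : ℝ) ^ q0 < rr A ∧ rr A ≤ (z : ℝ) ^ k1 := by
  classical
  unfold f5 at h
  rw [if_neg hA] at h
  by_contra h2
  rw [if_neg h2] at h
  exact h rfl

end Pool.Agent.LibLG5
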