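import Pool.Agent.LibLG5.M1

/-!
Row M2: facts on `y5`. `y5 β ≠ 0` gives `rr (sp β) ≤ z^(2 k1)` and every used position `i` has
`z^q0 < rr (fb β i)`; since `rr (sp β) = ∏ i, rr (fb β i)` (`rr_sp`) and the factors are `≥ 1`,
`z^(q0 card (sui β)) ≤ z^(2 k1)`, so `card (sui β) ≤ K` when `2 k1 ≤ K q0` (`z ≥ 2`, `q0 ≥ 1`).
-/

open Finset

namespace Pool.Agent.LibLG5

open Pool.Agent.LibRG87

variable {ι : Type} [Fintype ι] [DecidableEq ι] (P : Finset ℕ) (z q0 k1 : ℕ)

theorem y5_abs_le (hP : ∀ p ∈ P, Nat.Prime p) (hz : 2 ≤ z) (hq : 1 ≤ q0) (hD : 0 < Dn P z q0 k1)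
    (hD1 : 1 ≤ Dn P z q0 k1 * (q0 * Real.log z)) (β : P → Option ι) : |y5 P z q0 k1 β| ≤ 1 := by
  classical
  unfold y5
  split_ifs with h
  · rw [Finset.abs_prod]
    exact Finset.prod_le_one (fun i _ => abs_nonneg _)
      (fun i _ => f5_abs_le P z q0 k1 hP hz hq hD hD1 _)
  · rw [abs_zero]
    exact zero_le_one

private theorem M2_one_le_prod (s : Finset ι) (f : ι → ℝ) (h : ∀ i, 1 ≤ f i) :
    1 ≤ ∏ i ∈ s, f i := by
  classical
  induction s using Finset.induction_on with
  | empty => simp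
  | insert a s ha ih =>
    rw [Finset.prod_insert ha]
    exact one_le_mul_of_one_le_of_one_le (h a) ih

theorem y5_supp (hP : ∀ p ∈ P, Nat.Prime p) (hz : 2 ≤ z) (hq : 1 ≤ q0) {K : ℕ} (hK : 2 * k1 ≤ K * q0)
    (β : P → Option ι) (h : y5 P z q0 k1 β ≠ 0) :
    rr (sp P β) ≤ (z : ℝ) ^ (2 * k1) ∧ (sui P β).card ≤ K := by
  classical
  unfold y5 at h
  split_ifs at h with h1
  · refine ⟨h1, ?_⟩
    have h2 := Finset.prod_ne_zero_iff.1 h
    have hz1 : (1 : ℝ) < z := by exact_mod_cast (by omega : 1 < z)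
    have h3 : ∏ i ∈ sui P β, (z : ℝ) ^ q0 ≤ rr (sp P β) := by
      rw [rr_sp]
      calc ∏ i ∈ sui P β, (z : ℝ) ^ q0 ≤ ∏ i ∈ sui P β, rr (fb P β i) := by
            apply Finset.prod_le_prod
            · intro i _
              positivity
            · intro i hi
              have h4 : fb P β i ≠ ∅ := by
                unfold sui at hi
                rw [Finset.mem_filter] at hi
                obtain ⟨_, p, hp⟩ := hi
                intro h0
                have h5 : (p : ℕ) ∈ fb P β i := (mem_fb P).2 ⟨p.2, hp⟩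
                rw [h0] at h5
                exact absurd h5 (Finset.notMem_empty _)
              exact (f5_ne P z q0 k1 h4 (h2 i (Finset.mem_univ i))).1.le
        _ ≤ ∏ i, rr (fb P β i) := by
            rw [← Finset.prod_sdiff (Finset.subset_univ (sui P β))]
            apply le_mul_of_one_le_left
            · exact Finset.prod_nonneg fun i _ =>
                zero_le_one.trans (one_le_rr P hP (fb_subset P β i))
            · exact M2_one_le_prod _ _ fun i => one_le_rr P hP (fb_subset P β i)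
    rw [Finset.prod_const, ← pow_mul] at h3
    have h4 := (pow_le_pow_iff_right₀ hz1).1 (h3.trans h1)
    have h5 : q0 * (sui P β).card ≤ q0 * K := by
      calc q0 * (sui P β).card ≤ 2 * k1 := h4
        _ ≤ K * q0 := hK
        _ = q0 * K := Nat.mul_comm _ _
    exact Nat.le_of_mul_le_mul_left h5 (by omega)
  · exact absurd rfl h

private theorem M2_fb (β : P → Option ι) (hβ : ∀ p, β p = none) (i : ι) : fb P β i = ∅ := by
  apply Finset.eq_empty_of_forall_notMem
  intro p hp
  obtain ⟨h1, h2⟩ := (mem_fb P).1 hp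
  rw [hβ] at h2
  exact absurd h2 (by simp)

private theorem M2_sp (β : P → Option ι) (hβ : ∀ p, β p = none) : sp P β = ∅ := by
  apply Finset.eq_empty_of_forall_notMem
  intro p hp
  obtain ⟨h1, h2⟩ := (mem_sp P).1 hp
  exact h2 (hβ _)

theorem y5_none (β : P → Option ι) (hβ : ∀ p, β p = none) (hz : 1 ≤ z) : y5 P z q0 k1 β = 1 := by
  classical
  unfold y5
  have hz1 : (1 : ℝ) ≤ z := by exact_mod_cast hz
  rw [M2_sp P β hβ, if_pos]
  · apply Finset.prod_eq_one
    intro i _
    rw [M2_fb P β hβ, f5_empty]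
  · simp only [rr, Finset.prod_empty]
    exact one_le_pow₀ hz1

private theorem M2_VV (w z : ℕ) (B : Finset ℕ) : 0 ≤ VV w z B := by
  unfold VV
  apply Finset.prod_nonneg
  intro p hp
  have hpp : p.Prime := by
    unfold PP at hp
    exact (Finset.mem_filter.1 hp).2
  have h1 : nuP B p ≤ p := by
    unfold nuP
    calc (B.image (fun a => a % p)).card ≤ (Finset.range p).card := by
          apply Finset.card_le_card
          intro x hx
          obtain ⟨a, _, rfl⟩ := Finset.mem_image.1 hx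
          exact Finset.mem_range.2 (Nat.mod_lt _ hpp.pos)
      _ = p := Finset.card_range p
  have h2 : (0 : ℝ) < p := by exact_mod_cast hpp.pos
  have h3 : (nuP B p : ℝ) / p ≤ 1 := by
    rw [div_le_one h2]
    exact_mod_cast h1
  linarith

/-- the diagonal is at least its term `β = none` -/
theorem one_le_dg (hP : ∀ p ∈ P, Nat.Prime p) (hz : 1 ≤ z) (w : ℕ) (b : ι → ℕ) :
    1 ≤ dg P w z b ∅ (y5 P z q0 k1) := by
  classical
  unfold dg
  have h0 : ∀ β : P → Option ι, 0 ≤ y5 P z q0 k1 β ^ 2 * VV w z (∅ ∪ su P b β) / ph (sp P β) :=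
    fun β => div_nonneg (mul_nonneg (sq_nonneg _) (M2_VV _ _ _))
      (ph_pos P hP (sp_subset P β)).le
  have h1 : y5 P z q0 k1 (fun _ : P => (none : Option ι)) ^ 2 *
      VV w z (∅ ∪ su P b (fun _ : P => (none : Option ι))) /
        ph (sp P (fun _ : P => (none : Option ι))) = 1 := by
    rw [y5_none P z q0 k1 _ (fun _ => rfl) hz, M2_sp P _ (fun _ => rfl)]
    have h2 : su P b (fun _ : P => (none : Option ι)) = ∅ := by
      unfold su sui
      simp
    rw [h2]
    simp [VV, nuP, ph]
  rw [← h1]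
  exact Finset.single_le_sum (f := fun β : P → Option ι =>
    y5 P z q0 k1 β ^ 2 * VV w z (∅ ∪ su P b β) / ph (sp P β)) (fun β _ => h0 β)
    (Finset.mem_univ (fun _ : P => (none : Option ι)))

end Pool.Agent.LibLG5
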