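import Pool.Agent.LibLG5.M2
import Pool.Agent.LibLG5.M4
import Pool.Agent.LibLG5.M0

/-!
Row M7: Markov. `1[rr (sp β) > z^k1] ≤ (∑ i, log (rr (fb β i))) / (k1 log z)`. For each `i` split at `i`:
`∑_β log (rr (fb β i)) y5 β² VV (su β)/ph (sp β) = ∑_{β no i} ∑_A log (rr A) y5 (ins i A β)² VV (su (ins..))/(ph A ph (sp β))`, where
`y5 (ins i A β)² ≤ f5 A² y5 β²` (the truncation `rr A rr (sp β) ≤ z^(2k1)` implies `rr (sp β) ≤ z^(2k1)`), the term `A = ∅` is 0, and
`VV (insert (b i) (su β)) ≤ (1+δ) V1 VV (su β)` (`Vstep`, `y5 β ≠ 0`). Then `∑_A f5² log rr / ph ≤ 1/Dn` (`f5_sq_log`, the sum over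
`A ⊆ P \ sp β` is at most the sum over `A ⊆ P`).
-/

open Finset

namespace Pool.Agent.LibLG5

open Pool.Agent.LibRG87

variable {ι : Type} [Fintype ι] [DecidableEq ι]

private theorem M7_prime {w z p : ℕ} (h : p ∈ PP w z) : Nat.Prime p :=
  (Finset.mem_filter.1 h).2

private theorem M7_y (P : Finset ℕ) (z q0 k1 : ℕ) (hP : ∀ p ∈ P, Nat.Prime p) (i : ι)
    {A : Finset ℕ} {β : P → Option ι} (hβ : ∀ p, β p ≠ some i) (hA : A ⊆ P \ sp P β) :
    |y5 P z q0 k1 (ins P i A β)| ≤ |f5 P z q0 k1 A| * |y5 P z q0 k1 β| := by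
  classical
  have hAP : A ⊆ P := hA.trans Finset.sdiff_subset
  have h1 : rr (sp P (ins P i A β)) = rr A * rr (sp P β) := rr_sp_ins P i hβ hA
  have hrA : 1 ≤ rr A := one_le_rr P hP hAP
  have hrs : 1 ≤ rr (sp P β) := one_le_rr P hP (sp_subset P β)
  have hprod : ∏ j, f5 P z q0 k1 (fb P (ins P i A β) j) =
      f5 P z q0 k1 A * ∏ j, f5 P z q0 k1 (fb P β j) := by
    rw [← Finset.mul_prod_erase Finset.univ _ (Finset.mem_univ i),
      ← Finset.mul_prod_erase Finset.univ (fun j => f5 P z q0 k1 (fb P β j)) (Finset.mem_univ i),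
      fb_ins_self P i hβ hA, fb_self_eq_empty P hβ, f5_empty, one_mul]
    congr 1
    refine Finset.prod_congr rfl fun j hj => ?_
    rw [fb_ins_ne P i hβ hA (Finset.ne_of_mem_erase hj)]
  unfold y5
  by_cases h2 : rr (sp P (ins P i A β)) ≤ (z : ℝ) ^ (2 * k1)
  · have h3 : rr (sp P β) ≤ (z : ℝ) ^ (2 * k1) := by
      refine le_trans ?_ h2
      rw [h1]
      exact le_mul_of_one_le_left (by linarith) hrA
    rw [if_pos h2, if_pos h3, hprod, abs_mul]
  · rw [if_neg h2, abs_zero]
    exact mul_nonneg (abs_nonneg _) (abs_nonneg _)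

theorem Tbig_le (z q0 k1 K : ℕ) (hz : 2 ≤ z) (hq : 1 ≤ q0) (hk : 1 ≤ k1) (hK : 2 * k1 ≤ K * q0)
    (hD : 0 < Dn (PP z (z ^ k1)) z q0 k1)
    (hD1 : 1 ≤ Dn (PP z (z ^ k1)) z q0 k1 * (q0 * Real.log z))
    {δ : ℝ} (hδ : 0 ≤ δ) (hV : Vstep K δ z)
    (b : ι → ℕ) (hb : Function.Injective b) (hbz : ∀ i, (b i : ℝ) ≤ Real.log z ^ 2) :
    Tbig z q0 k1 b ≤
      ((1 + δ) * (Fintype.card ι * V1 (wf z) z) / (Dn (PP z (z ^ k1)) z q0 k1 * (k1 * Real.log z))) *
        DG z q0 k1 b := by
  classical
  unfold Tbig DG dg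
  generalize hPdef : PP z (z ^ k1) = P at *
  have hP : ∀ p ∈ P, Nat.Prime p := fun p hp => M7_prime (by rw [hPdef]; exact hp)
  have hlog : 0 < Real.log z := Real.log_pos (by exact_mod_cast (by omega : 1 < z))
  have hk0 : (0 : ℝ) < k1 := by exact_mod_cast hk
  have hkl : 0 < (k1 : ℝ) * Real.log z := mul_pos hk0 hlog
  -- the weights
  obtain ⟨W, hW⟩ : ∃ W : (P → Option ι) → ℝ, W = fun β =>
      y5 P z q0 k1 β ^ 2 * VV (wf z) z (su P b β) / ph (sp P β) := ⟨_, rfl⟩
  have hW' : ∀ β, y5 P z q0 k1 β ^ 2 * VV (wf z) z (su P b β) / ph (sp P β) = W β := by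
    intro β
    rw [hW]
  have hW0 : ∀ β, 0 ≤ W β := by
    intro β
    rw [← hW']
    exact div_nonneg (mul_nonneg (sq_nonneg _) (VV_nonneg _ _ _)) (ph_pos P hP (sp_subset P β)).le
  have hV0 : 0 ≤ (1 + δ) * V1 (wf z) z / Dn P z q0 k1 :=
    div_nonneg (mul_nonneg (by linarith) (V1_pos _ _).le) hD.le
  -- one position
  have hone : ∀ i : ι, ∑ β : P → Option ι, Real.log (rr (fb P β i)) * W β ≤
      (1 + δ) * V1 (wf z) z / Dn P z q0 k1 * ∑ β, W β := by
    intro i
    rw [split P i (fun β => Real.log (rr (fb P β i)) * W β), Finset.mul_sum]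
    refine Finset.sum_le_sum fun β _ => ?_
    by_cases hβ : ∀ p, β p ≠ some i
    · rw [if_pos hβ]
      have hterm : ∀ A ∈ (P \ sp P β).powerset,
          Real.log (rr (fb P (ins P i A β) i)) * W (ins P i A β) ≤
          (f5 P z q0 k1 A ^ 2 * Real.log (rr A) / ph A) *
            ((1 + δ) * V1 (wf z) z * W β) := by
        intro A hA'
        have hA := Finset.mem_powerset.1 hA'
        have hAP : A ⊆ P := hA.trans Finset.sdiff_subset
        have hlA : 0 ≤ Real.log (rr A) := Real.log_nonneg (one_le_rr P hP hAP)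
        have hphA : 0 < ph A := ph_pos P hP hAP
        have hphs : 0 < ph (sp P β) := ph_pos P hP (sp_subset P β)
        have hR0 : 0 ≤ (f5 P z q0 k1 A ^ 2 * Real.log (rr A) / ph A) *
            ((1 + δ) * V1 (wf z) z * W β) :=
          mul_nonneg (div_nonneg (mul_nonneg (sq_nonneg _) hlA) hphA.le)
            (mul_nonneg (mul_nonneg (by linarith) (V1_pos _ _).le) (hW0 β))
        rw [fb_ins_self P i hβ hA]
        by_cases hAe : A = ∅
        · have : Real.log (rr A) = 0 := by
            rw [hAe, rr, Finset.prod_empty, Real.log_one]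
          rw [this, zero_mul]
          rw [this] at hR0
          exact hR0
        have hy := M7_y P z q0 k1 hP i hβ hA
        by_cases hy0 : y5 P z q0 k1 β = 0
        · have hyi : y5 P z q0 k1 (ins P i A β) = 0 := by
            rw [hy0, abs_zero, mul_zero] at hy
            exact abs_eq_zero.1 (le_antisymm hy (abs_nonneg _))
          rw [← hW' (ins P i A β), hyi]
          have e : Real.log (rr A) * ((0 : ℝ) ^ 2 * VV (wf z) z (su P b (ins P i A β)) /
              ph (sp P (ins P i A β))) = 0 := by ring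
          rw [e]
          exact hR0
        have hcard := (y5_supp P z q0 k1 hP hz hq hK β hy0).2
        have hsui : sui P (ins P i A β) = insert i (sui P β) := by
          rw [sui_ins P i hβ hA, if_neg hAe]
        have hsu : su P b (ins P i A β) = insert (b i) (su P b β) := by
          unfold su
          rw [hsui, Finset.image_insert]
        have hnot : b i ∉ su P b β := by
          intro h
          unfold su at h
          obtain ⟨j, hj, hji⟩ := Finset.mem_image.1 h
          have := hb hji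
          subst this
          unfold sui at hj
          obtain ⟨-, p, hp⟩ := Finset.mem_filter.1 hj
          exact hβ p hp
        have hVs : VV (wf z) z (insert (b i) (su P b β)) ≤
            (1 + δ) * V1 (wf z) z * VV (wf z) z (su P b β) := by
          refine hV _ _ ((Finset.card_image_le).trans hcard) hnot ?_
          intro a ha
          rcases Finset.mem_insert.1 ha with rfl | ha
          · exact hbz i
          · unfold su at ha
            obtain ⟨j, -, rfl⟩ := Finset.mem_image.1 ha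
            exact hbz j
        have hy2 : y5 P z q0 k1 (ins P i A β) ^ 2 ≤
            f5 P z q0 k1 A ^ 2 * y5 P z q0 k1 β ^ 2 := by
          rw [← sq_abs, ← mul_pow, ← sq_abs (f5 P z q0 k1 A * y5 P z q0 k1 β), abs_mul]
          exact pow_le_pow_left₀ (abs_nonneg _) hy 2
        rw [← hW' (ins P i A β), ← hW' β, ph_sp_ins P i hβ hA, hsu]
        have h1 : y5 P z q0 k1 (ins P i A β) ^ 2 * VV (wf z) z (insert (b i) (su P b β)) ≤
            (f5 P z q0 k1 A ^ 2 * y5 P z q0 k1 β ^ 2) *
              ((1 + δ) * V1 (wf z) z * VV (wf z) z (su P b β)) :=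
          mul_le_mul hy2 hVs (VV_nonneg _ _ _) (mul_nonneg (sq_nonneg _) (sq_nonneg _))
        have h2 := div_le_div_of_nonneg_right h1 (mul_pos hphA hphs).le
        have h3 := mul_le_mul_of_nonneg_left h2 hlA
        refine h3.trans (le_of_eq ?_)
        field_simp
      refine (Finset.sum_le_sum hterm).trans ?_
      rw [← Finset.sum_mul]
      have hsub : ∑ A ∈ (P \ sp P β).powerset, f5 P z q0 k1 A ^ 2 * Real.log (rr A) / ph A ≤
          1 / Dn P z q0 k1 := by
        rw [← f5_sq_log P z q0 k1 hP hz hD]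
        refine Finset.sum_le_sum_of_subset_of_nonneg
          (Finset.powerset_mono.2 Finset.sdiff_subset) fun A hA _ => ?_
        have hAP := Finset.mem_powerset.1 hA
        exact div_nonneg (mul_nonneg (sq_nonneg _) (Real.log_nonneg (one_le_rr P hP hAP)))
          (ph_pos P hP hAP).le
      refine (mul_le_mul_of_nonneg_right hsub
        (mul_nonneg (mul_nonneg (by linarith) (V1_pos _ _).le) (hW0 β))).trans (le_of_eq ?_)
      ring
    · rw [if_neg hβ]
      exact mul_nonneg hV0 (hW0 β)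
  -- Markov
  have hmark : ∀ β : P → Option ι, (if (z : ℝ) ^ k1 < rr (sp P β) then W β else 0) ≤
      (∑ i, Real.log (rr (fb P β i)) * W β) / (k1 * Real.log z) := by
    intro β
    have hl0 : ∀ i, 0 ≤ Real.log (rr (fb P β i)) := fun i =>
      Real.log_nonneg (one_le_rr P hP (fb_subset P β i))
    by_cases h : (z : ℝ) ^ k1 < rr (sp P β)
    · rw [if_pos h, le_div_iff₀ hkl, ← Finset.sum_mul, mul_comm]
      refine mul_le_mul_of_nonneg_right ?_ (hW0 β)
      have h1 : ∑ i, Real.log (rr (fb P β i)) = Real.log (rr (sp P β)) := by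
        rw [rr_sp, Real.log_prod]
        intro i _
        exact (rr_pos P hP (fb_subset P β i)).ne'
      rw [h1, ← Real.log_pow]
      refine Real.log_le_log ?_ h.le
      exact pow_pos (by exact_mod_cast (by omega : 0 < z)) _
    · rw [if_neg h]
      exact div_nonneg (Finset.sum_nonneg fun i _ => mul_nonneg (hl0 i) (hW0 β)) hkl.le
  calc ∑ β : P → Option ι, (if (z : ℝ) ^ k1 < rr (sp P β) then
        y5 P z q0 k1 β ^ 2 * VV (wf z) z (su P b β) / ph (sp P β) else 0)
      = ∑ β : P → Option ι, (if (z : ℝ) ^ k1 < rr (sp P β) then W β else 0) := by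
        refine Finset.sum_congr rfl fun β _ => ?_
        rw [hW' β]
    _ ≤ ∑ β : P → Option ι, (∑ i, Real.log (rr (fb P β i)) * W β) / (k1 * Real.log z) :=
        Finset.sum_le_sum fun β _ => hmark β
    _ = (∑ i : ι, ∑ β : P → Option ι, Real.log (rr (fb P β i)) * W β) / (k1 * Real.log z) := by
        rw [← Finset.sum_div, Finset.sum_comm]
    _ ≤ (∑ i : ι, (1 + δ) * V1 (wf z) z / Dn P z q0 k1 * ∑ β, W β) / (k1 * Real.log z) := by
        refine div_le_div_of_nonneg_right ?_ hkl.le
        exact Finset.sum_le_sum fun i _ => hone i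
    _ = ((1 + δ) * (Fintype.card ι * V1 (wf z) z) / (Dn P z q0 k1 * (k1 * Real.log z))) *
        ∑ β, W β := by
        rw [Finset.sum_const, Finset.card_univ, nsmul_eq_mul]
        have := hD.ne'
        have := hkl.ne'
        field_simp
    _ = ((1 + δ) * (Fintype.card ι * V1 (wf z) z) / (Dn P z q0 k1 * (k1 * Real.log z))) *
        ∑ β, y5 P z q0 k1 β ^ 2 * VV (wf z) z (∅ ∪ su P b β) / ph (sp P β) := by
        congr 1
        refine Finset.sum_congr rfl fun β _ => ?_
        rw [Finset.empty_union, hW' β]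

end Pool.Agent.LibLG5
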