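import Pool.Agent.LibLG5.M2
import Pool.Agent.LibLG5.M0

/-!
Row M8: `∑_i dg {b i} y5 ≤ (K + (1+δ) card ι V1) DG`: exchange the sums; for fixed `β` with `y5 β ≠ 0` the positions `i` used by `β`
(at most `K`, `y5_supp`) give `VV ({b i} ∪ su β) = VV (su β)`, the others at most `(1+δ) V1 VV (su β)` (`Vstep`; `b` injective).
-/

open Finset

namespace Pool.Agent.LibLG5

open Pool.Agent.LibRG87

variable {ι : Type} [Fintype ι] [DecidableEq ι]

private theorem M8_VV_nonneg (w z : ℕ) (B : Finset ℕ) : 0 ≤ VV w z B := by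
  unfold VV
  refine Finset.prod_nonneg fun p hp => ?_
  unfold PP at hp
  have hp1 : p.Prime := (Finset.mem_filter.1 hp).2
  have hp0 : (0 : ℝ) < p := by exact_mod_cast hp1.pos
  have h1 : nuP B p ≤ p := by
    unfold nuP
    calc (B.image (fun a => a % p)).card ≤ (Finset.range p).card := by
          refine Finset.card_le_card fun c hc => ?_
          rw [Finset.mem_image] at hc
          obtain ⟨a, _, rfl⟩ := hc
          exact Finset.mem_range.2 (Nat.mod_lt _ hp1.pos)
      _ = p := Finset.card_range p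
  have h2 : (nuP B p : ℝ) / p ≤ 1 := by
    rw [div_le_one hp0]
    exact_mod_cast h1
  linarith

private theorem M8_V1_nonneg (w z : ℕ) : 0 ≤ V1 w z := by
  unfold V1
  refine Finset.prod_nonneg fun p hp => ?_
  unfold PP at hp
  have hp1 : p.Prime := (Finset.mem_filter.1 hp).2
  have hp0 : (1 : ℝ) ≤ p := by exact_mod_cast hp1.one_lt.le
  have h2 : 1 / (p : ℝ) ≤ 1 := by
    rw [div_le_one (by linarith)]
    exact hp0
  linarith

theorem sum_dg_y5 (z q0 k1 K : ℕ) (hz : 2 ≤ z) (hq : 1 ≤ q0) (hK : 2 * k1 ≤ K * q0)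
    {δ : ℝ} (hδ : 0 ≤ δ) (hV : Vstep K δ z)
    (b : ι → ℕ) (hb : Function.Injective b) (hbz : ∀ i, (b i : ℝ) ≤ Real.log z ^ 2) :
    ∑ i, dg (PP z (z ^ k1)) (wf z) z b {b i} (y5 (PP z (z ^ k1)) z q0 k1) ≤
      (K + (1 + δ) * (Fintype.card ι * V1 (wf z) z)) * DG z q0 k1 b := by
  have hP : ∀ p ∈ PP z (z ^ k1), Nat.Prime p := by
    intro p hp
    unfold PP at hp
    exact (Finset.mem_filter.1 hp).2
  unfold DG dg
  rw [Finset.sum_comm, Finset.mul_sum]
  refine Finset.sum_le_sum fun β _ => ?_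
  by_cases hy : y5 (PP z (z ^ k1)) z q0 k1 β = 0
  · rw [hy]
    simp
  have hcard := (y5_supp (PP z (z ^ k1)) z q0 k1 hP hz hq hK β hy).2
  have hph : 0 < ph (sp (PP z (z ^ k1)) β) := ph_pos _ hP (sp_subset _ β)
  obtain ⟨U, hU⟩ : ∃ U : Finset ℕ, U = su (PP z (z ^ k1)) b β := ⟨_, rfl⟩
  obtain ⟨A, hA⟩ : ∃ A : Finset ι, A = sui (PP z (z ^ k1)) β := ⟨_, rfl⟩
  have hUA : U = A.image b := by rw [hU, hA]; rfl
  rw [← hA] at hcard
  rw [← hU]
  have hUcard : U.card ≤ K := by
    rw [hUA]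
    exact Finset.card_image_le.trans hcard
  have hV0 : 0 ≤ VV (wf z) z U := M8_VV_nonneg _ _ _
  have hV1 : 0 ≤ V1 (wf z) z := M8_V1_nonneg _ _
  have hterm : ∀ i, VV (wf z) z ({b i} ∪ U) ≤
      (if i ∈ A then VV (wf z) z U else 0) + (1 + δ) * V1 (wf z) z * VV (wf z) z U := by
    intro i
    have h0 : 0 ≤ (1 + δ) * V1 (wf z) z * VV (wf z) z U :=
      mul_nonneg (mul_nonneg (by linarith) hV1) hV0
    by_cases hi : i ∈ A
    · rw [if_pos hi]
      have h1 : ({b i} : Finset ℕ) ∪ U = U := by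
        rw [Finset.union_eq_right, Finset.singleton_subset_iff, hUA]
        exact Finset.mem_image_of_mem b hi
      rw [h1]
      linarith
    · rw [if_neg hi, zero_add]
      have h1 : b i ∉ U := by
        rw [hUA, Finset.mem_image]
        rintro ⟨j, hj, hji⟩
        rw [hb hji] at hj
        exact hi hj
      have h2 : ({b i} : Finset ℕ) ∪ U = insert (b i) U := (Finset.insert_eq (b i) U).symm
      rw [h2]
      refine hV U (b i) hUcard h1 fun a ha => ?_
      rw [Finset.mem_insert, hUA, Finset.mem_image] at ha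
      rcases ha with ha | ⟨j, _, hj⟩
      · rw [ha]
        exact hbz i
      · rw [← hj]
        exact hbz j
  have hsum : ∑ i, VV (wf z) z ({b i} ∪ U) ≤
      (K + (1 + δ) * (Fintype.card ι * V1 (wf z) z)) * VV (wf z) z U := by
    refine (Finset.sum_le_sum fun i _ => hterm i).trans ?_
    rw [Finset.sum_add_distrib, Finset.sum_const, Finset.card_univ, nsmul_eq_mul, ← Finset.sum_filter,
      Finset.sum_const, nsmul_eq_mul]
    have h1 : (Finset.univ.filter fun i => i ∈ A) = A := by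
      ext i
      simp
    rw [h1]
    have h2 : (A.card : ℝ) ≤ K := by exact_mod_cast hcard
    have h3 : (A.card : ℝ) * VV (wf z) z U ≤ K * VV (wf z) z U := mul_le_mul_of_nonneg_right h2 hV0
    calc (A.card : ℝ) * VV (wf z) z U + Fintype.card ι * ((1 + δ) * V1 (wf z) z * VV (wf z) z U)
        ≤ K * VV (wf z) z U + Fintype.card ι * ((1 + δ) * V1 (wf z) z * VV (wf z) z U) := by linarith
      _ = _ := by ring
  rw [Finset.empty_union]
  obtain ⟨q, hq'⟩ : ∃ q : ℝ, q = y5 (PP z (z ^ k1)) z q0 k1 β ^ 2 / ph (sp (PP z (z ^ k1)) β) := ⟨_, rfl⟩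
  have hq0' : 0 ≤ q := by
    rw [hq']
    exact div_nonneg (sq_nonneg _) hph.le
  calc ∑ i, y5 (PP z (z ^ k1)) z q0 k1 β ^ 2 * VV (wf z) z ({b i} ∪ U) / ph (sp (PP z (z ^ k1)) β)
      = q * ∑ i, VV (wf z) z ({b i} ∪ U) := by
        rw [Finset.mul_sum, hq']
        refine Finset.sum_congr rfl fun i _ => ?_
        ring
    _ ≤ q * ((K + (1 + δ) * (Fintype.card ι * V1 (wf z) z)) * VV (wf z) z U) :=
        mul_le_mul_of_nonneg_left hsum hq0'
    _ = _ := by
        rw [hq']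
        ring

end Pool.Agent.LibLG5
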