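import Pool.Agent.LibLG5.M1

/-!
Row M3: the collapsed factor `cc5 β = ∑_{A ⊆ P \ sp β, rr A rr(sp β) ≤ z^(2 k1)} f5 A / ph A` (compare LibRG87 row R6).
`cc5 ≤ 1`: the term `A = ∅` is at most 1, the others `≤ 0`. `0 ≤ cc5`: if `rr (sp β) ≤ z^(2 k1)` the term `∅` is `1`, the
others are bounded below by the sum over all nonempty `A ⊆ P`, `= -1` (`f5_sum`); otherwise the sum is empty.
`cc5_small`: if `rr (sp β) ≤ z^k1` the condition holds whenever `f5 A ≠ 0`, so
`cc5 = 0 - ∑_{A ∩ sp β ≠ ∅} f5 A/ph A ≤ ∑_{p ∈ sp β} ∑_{A ∋ p} 1/ph A ≤ ∑_{p ∈ sp β} (1/(p-1)) ∏_{p∈P}(1+1/(p-1))`, `p - 1 ≥ z`.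
-/

open Finset

namespace Pool.Agent.LibLG5

open Pool.Agent.LibRG87

variable {ι : Type} [Fintype ι] [DecidableEq ι] (P : Finset ℕ) (z q0 k1 : ℕ)

theorem M3_term_empty : f5 P z q0 k1 ∅ / ph ∅ = 1 := by
  rw [f5_empty]
  simp [ph]

theorem M3_term_nonpos (hP : ∀ p ∈ P, Nat.Prime p) (hz : 2 ≤ z) (hD : 0 < Dn P z q0 k1)
    {A : Finset ℕ} (hA : A ⊆ P) (hA0 : A ≠ ∅) : f5 P z q0 k1 A / ph A ≤ 0 :=
  div_nonpos_of_nonpos_of_nonneg (f5_nonpos P z q0 k1 hP hz hD hA0) (ph_pos P hP hA).le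

theorem cc5_le_one (hP : ∀ p ∈ P, Nat.Prime p) (hz : 2 ≤ z) (hD : 0 < Dn P z q0 k1)
    (β : P → Option ι) : cc5 P z q0 k1 β ≤ 1 := by
  classical
  unfold cc5
  have h1 : ∀ A ∈ ((P \ sp P β).powerset).filter
      (fun A => rr A * rr (sp P β) ≤ (z : ℝ) ^ (2 * k1)),
      f5 P z q0 k1 A / ph A ≤ if A = ∅ then (1 : ℝ) else 0 := by
    intro A hA
    rw [Finset.mem_filter, Finset.mem_powerset] at hA
    have hAP : A ⊆ P := hA.1.trans Finset.sdiff_subset
    split_ifs with h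
    · rw [h, M3_term_empty]
    · exact M3_term_nonpos P z q0 k1 hP hz hD hAP h
  refine (Finset.sum_le_sum h1).trans ?_
  rw [Finset.sum_ite_eq']
  split_ifs <;> norm_num

theorem cc5_eq_zero (hP : ∀ p ∈ P, Nat.Prime p) (β : P → Option ι)
    (h : (z : ℝ) ^ (2 * k1) < rr (sp P β)) : cc5 P z q0 k1 β = 0 := by
  classical
  unfold cc5
  refine Finset.sum_eq_zero fun A hA => ?_
  exfalso
  rw [Finset.mem_filter, Finset.mem_powerset] at hA
  have hAP : A ⊆ P := hA.1.trans Finset.sdiff_subset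
  have h1 := one_le_rr P hP hAP
  have h2 := one_le_rr P hP (sp_subset P β)
  have h3 := hA.2
  nlinarith

theorem cc5_nonneg (hP : ∀ p ∈ P, Nat.Prime p) (hz : 2 ≤ z) (hD : 0 < Dn P z q0 k1)
    (β : P → Option ι) : 0 ≤ cc5 P z q0 k1 β := by
  classical
  by_cases hT : (z : ℝ) ^ (2 * k1) < rr (sp P β)
  · exact (cc5_eq_zero P z q0 k1 hP β hT).ge
  unfold cc5
  have h0 := f5_sum P z q0 k1 hP hz hD
  have h1 : ∑ A ∈ ((P \ sp P β).powerset).filter
      (fun A => rr A * rr (sp P β) ≤ (z : ℝ) ^ (2 * k1)),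
      -(f5 P z q0 k1 A / ph A) ≤ ∑ A ∈ P.powerset, -(f5 P z q0 k1 A / ph A) := by
    refine Finset.sum_le_sum_of_subset_of_nonneg ?_ ?_
    · intro A hA
      rw [Finset.mem_filter, Finset.mem_powerset] at hA
      rw [Finset.mem_powerset]
      exact hA.1.trans Finset.sdiff_subset
    · intro A hA hA'
      rw [Finset.mem_powerset] at hA
      have hA0 : A ≠ ∅ := by
        rintro rfl
        apply hA'
        rw [Finset.mem_filter, Finset.mem_powerset]
        refine ⟨Finset.empty_subset _, ?_⟩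
        simp only [rr, Finset.prod_empty, one_mul]
        exact not_lt.1 hT
      have := M3_term_nonpos P z q0 k1 hP hz hD hA hA0
      linarith
  rw [Finset.sum_neg_distrib, Finset.sum_neg_distrib, h0] at h1
  linarith

theorem M3_inv_ph (A : Finset ℕ) : 1 / ph A = ∏ p ∈ A, (1 / ((p : ℝ) - 1)) := by
  unfold ph
  rw [Finset.prod_div_distrib, Finset.prod_const_one]

/-- the sum over the sets containing `p` -/
theorem M3_sum_mem (hP : ∀ p ∈ P, Nat.Prime p) {p : ℕ} (hp : p ∈ P) :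
    ∑ A ∈ P.powerset, (if p ∈ A then 1 / ph A else 0) ≤
      1 / ((p : ℝ) - 1) * ∏ q ∈ P, (1 + 1 / ((q : ℝ) - 1)) := by
  classical
  have hpos : ∀ q ∈ P, 0 ≤ 1 / ((q : ℝ) - 1) := by
    intro q hq
    have h1 : (2 : ℝ) ≤ q := by exact_mod_cast (hP q hq).two_le
    exact div_nonneg zero_le_one (by linarith)
  have h1 : ∑ A ∈ P.powerset, (if p ∈ A then 1 / ph A else 0) =
      1 / ((p : ℝ) - 1) * ∏ q ∈ P.erase p, (1 + 1 / ((q : ℝ) - 1)) := by
    nth_rewrite 1 [← Finset.insert_erase hp]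
    rw [Finset.sum_powerset_insert (Finset.notMem_erase p P)]
    have h2 : ∑ t ∈ (P.erase p).powerset, (if p ∈ t then 1 / ph t else 0) = 0 := by
      refine Finset.sum_eq_zero fun t ht => if_neg fun h => ?_
      exact Finset.notMem_erase p P (Finset.mem_powerset.1 ht h)
    have h3 : ∀ t ∈ (P.erase p).powerset, (if p ∈ insert p t then 1 / ph (insert p t) else 0) =
        1 / ((p : ℝ) - 1) * ∏ q ∈ t, (1 / ((q : ℝ) - 1)) := by
      intro t ht
      have h4 : p ∉ t := fun h => Finset.notMem_erase p P (Finset.mem_powerset.1 ht h)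
      rw [if_pos (Finset.mem_insert_self p t), M3_inv_ph, Finset.prod_insert h4]
    rw [h2, Finset.sum_congr rfl h3, zero_add, ← Finset.mul_sum, Finset.prod_one_add]
  rw [h1]
  refine mul_le_mul_of_nonneg_left ?_ (hpos p hp)
  rw [← Finset.mul_prod_erase P (fun q : ℕ => (1 + 1 / ((q : ℝ) - 1))) hp]
  refine le_mul_of_one_le_left ?_ ?_
  · refine Finset.prod_nonneg fun q hq => ?_
    have := hpos q (Finset.mem_of_mem_erase hq)
    linarith
  · have := hpos p hp
    linarith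

theorem cc5_small (hP : ∀ p ∈ P, Nat.Prime p) (hPz : ∀ p ∈ P, z < p) (hz : 2 ≤ z) (hq : 1 ≤ q0)
    (hD : 0 < Dn P z q0 k1) (hD1 : 1 ≤ Dn P z q0 k1 * (q0 * Real.log z)) (β : P → Option ι)
    (h : rr (sp P β) ≤ (z : ℝ) ^ k1) :
    cc5 P z q0 k1 β ≤ (sp P β).card * (∏ p ∈ P, (1 + 1 / ((p : ℝ) - 1))) / z := by
  classical
  have hspP := sp_subset P β
  have hsp1 := one_le_rr P hP hspP
  have hz1 : (1 : ℝ) ≤ z := by exact_mod_cast (by omega : 1 ≤ z)
  have hzk : (1 : ℝ) ≤ (z : ℝ) ^ k1 := one_le_pow₀ hz1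
  have hcc : cc5 P z q0 k1 β = ∑ A ∈ (P \ sp P β).powerset, f5 P z q0 k1 A / ph A := by
    unfold cc5
    refine Finset.sum_filter_of_ne fun A hA hne => ?_
    have hff : f5 P z q0 k1 A ≠ 0 := by
      intro h0
      rw [h0, zero_div] at hne
      exact hne rfl
    have hrr : rr A ≤ (z : ℝ) ^ k1 := by
      by_cases hA0 : A = ∅
      · rw [hA0]
        simp only [rr, Finset.prod_empty]
        exact hzk
      · exact (f5_ne P z q0 k1 hA0 hff).2
    rw [two_mul, pow_add]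
    exact mul_le_mul hrr h (by linarith) (by linarith)
  have h0 := f5_sum P z q0 k1 hP hz hD
  have hsub : (P \ sp P β).powerset ⊆ P.powerset :=
    Finset.powerset_mono.2 Finset.sdiff_subset
  rw [← Finset.sum_sdiff hsub] at h0
  have h1 : cc5 P z q0 k1 β =
      ∑ A ∈ P.powerset \ (P \ sp P β).powerset, -(f5 P z q0 k1 A / ph A) := by
    rw [hcc, Finset.sum_neg_distrib]
    linarith
  rw [h1]
  have h2 : ∀ A ∈ P.powerset \ (P \ sp P β).powerset, -(f5 P z q0 k1 A / ph A) ≤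
      ∑ p ∈ sp P β, if p ∈ A then 1 / ph A else 0 := by
    intro A hA
    rw [Finset.mem_sdiff, Finset.mem_powerset, Finset.mem_powerset] at hA
    obtain ⟨hAP, hA2⟩ := hA
    have hpos := ph_pos P hP hAP
    obtain ⟨p, hpA, hps⟩ : ∃ p ∈ A, p ∈ sp P β := by
      by_contra hcon
      push Not at hcon
      apply hA2
      intro p hp
      rw [Finset.mem_sdiff]
      exact ⟨hAP hp, hcon p hp⟩
    have h3 : (if p ∈ A then 1 / ph A else 0) ≤
        ∑ p ∈ sp P β, if p ∈ A then 1 / ph A else 0 := by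
      refine Finset.single_le_sum (f := fun p => if p ∈ A then 1 / ph A else 0)
        (fun q _ => ?_) hps
      change 0 ≤ if q ∈ A then 1 / ph A else 0
      split_ifs
      · positivity
      · exact le_rfl
    rw [if_pos hpA] at h3
    refine le_trans ?_ h3
    rw [← neg_div]
    refine div_le_div_of_nonneg_right ?_ hpos.le
    exact (neg_le_abs _).trans (f5_abs_le P z q0 k1 hP hz hq hD hD1 A)
  refine (Finset.sum_le_sum h2).trans ?_
  have h4 : ∑ A ∈ P.powerset \ (P \ sp P β).powerset,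
      ∑ p ∈ sp P β, (if p ∈ A then 1 / ph A else 0) ≤
      ∑ A ∈ P.powerset, ∑ p ∈ sp P β, (if p ∈ A then 1 / ph A else 0) := by
    refine Finset.sum_le_sum_of_subset_of_nonneg Finset.sdiff_subset fun A hA _ => ?_
    rw [Finset.mem_powerset] at hA
    have hpos := ph_pos P hP hA
    refine Finset.sum_nonneg fun p _ => ?_
    split_ifs
    · positivity
    · exact le_rfl
  refine h4.trans ?_
  rw [Finset.sum_comm]
  have hprod : 0 ≤ ∏ p ∈ P, (1 + 1 / ((p : ℝ) - 1)) := by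
    refine Finset.prod_nonneg fun q hq => ?_
    have h1 : (2 : ℝ) ≤ q := by exact_mod_cast (hP q hq).two_le
    have : 0 ≤ 1 / ((q : ℝ) - 1) := div_nonneg zero_le_one (by linarith)
    linarith
  have h5 : ∀ p ∈ sp P β, ∑ A ∈ P.powerset, (if p ∈ A then 1 / ph A else 0) ≤
      1 / z * ∏ p ∈ P, (1 + 1 / ((p : ℝ) - 1)) := by
    intro p hp
    refine (M3_sum_mem P hP (hspP hp)).trans ?_
    refine mul_le_mul_of_nonneg_right ?_ hprod
    have h6 : (z : ℝ) + 1 ≤ p := by exact_mod_cast hPz p (hspP hp)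
    exact div_le_div_of_nonneg_left zero_le_one (by linarith) (by linarith)
  refine (Finset.sum_le_sum h5).trans ?_
  rw [Finset.sum_const, nsmul_eq_mul]
  apply le_of_eq
  ring

end Pool.Agent.LibLG5
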