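import Pool.Agent.LibLG5.M2
import Pool.Agent.LibLG5.M3
import Pool.Agent.LibLG5.M4

/-!
Row M5: collapse at a position `i` where `n + b i` has no prime factor in `(w, z]` or in `P`, with the Selberg factor.
By `split`, with `y5 (ins i A β) = 1[rr A rr(sp β) ≤ z^(2k1)] f5 A ∏_{j} f5 (fb β j)`, `ee_ins`, and
`rho (su (ins i A β)) n = rho (su β) n` (the new position `b i` satisfies the condition), the left side is
`∑_{β no i} yc5 i β rho (su β) n ee β n` (`cc5_eq_zero` when `rr (sp β) > z^(2 k1)`). The right side is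
`∑_{β no i} ∑_{A ⊆ P \ sp β, rr A ≤ z^k1} yc5 i β / Gn (P \ sp β) * rho ({b i} ∪ su β) n * ee β n / ph A`, the sum over `A` of
`1/ph A` is `Gn (P \ sp β) > 0` (term `∅`).
-/

open Finset

namespace Pool.Agent.LibLG5

open Pool.Agent.LibRG87

variable {ι : Type} [Fintype ι] [DecidableEq ι] (P : Finset ℕ) (z q0 k1 : ℕ)

theorem M5_rho {w z n x : ℕ} (B : Finset ℕ) (h : ∀ p ∈ PP w z, ¬ p ∣ n + x) :
    rho w z B n = rho w z (insert x B) n := by
  unfold rho
  have h1 : (∀ a ∈ B, ∀ p ∈ PP w z, ¬ p ∣ n + a) ↔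
      ∀ a ∈ insert x B, ∀ p ∈ PP w z, ¬ p ∣ n + a := by
    constructor
    · intro h1 a ha
      rcases Finset.mem_insert.1 ha with h2 | h2
      · rw [h2]
        exact h
      · exact h1 a h2
    · intro h1 a ha
      exact h1 a (Finset.mem_insert_of_mem ha)
  by_cases h2 : ∀ a ∈ B, ∀ p ∈ PP w z, ¬ p ∣ n + a
  · rw [if_pos h2, if_pos (h1.1 h2)]
  · rw [if_neg h2, if_neg (fun h3 => h2 (h1.2 h3))]

/-- two sets which agree up to `x` -/
theorem M5_rho' {w z n x : ℕ} (B B' : Finset ℕ) (h : ∀ p ∈ PP w z, ¬ p ∣ n + x)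
    (hB : insert x B = insert x B') : rho w z B n = rho w z B' n := by
  rw [M5_rho B h, M5_rho B' h, hB]

theorem M5_su_ins (b : ι → ℕ) (i : ι) {A : Finset ℕ} {β : P → Option ι} (hβ : ∀ p, β p ≠ some i)
    (hA : A ⊆ P \ sp P β) : insert (b i) (su P b (ins P i A β)) = insert (b i) (su P b β) := by
  unfold su
  rw [sui_ins P i hβ hA]
  split_ifs
  · rfl
  · rw [Finset.image_insert]
    exact Finset.insert_idem _ _

theorem M5_prod_ins (i : ι) {A : Finset ℕ} {β : P → Option ι} (hβ : ∀ p, β p ≠ some i)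
    (hA : A ⊆ P \ sp P β) : ∏ j, f5 P z q0 k1 (fb P (ins P i A β) j) =
      f5 P z q0 k1 A * ∏ j, f5 P z q0 k1 (fb P β j) := by
  rw [← Finset.mul_prod_erase univ (fun j => f5 P z q0 k1 (fb P (ins P i A β) j)) (mem_univ i),
    ← Finset.mul_prod_erase univ (fun j => f5 P z q0 k1 (fb P β j)) (mem_univ i),
    fb_ins_self P i hβ hA, fb_self_eq_empty P hβ, f5_empty, one_mul]
  congr 1
  refine Finset.prod_congr rfl fun j hj => ?_
  rw [fb_ins_ne P i hβ hA (Finset.ne_of_mem_erase hj)]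

theorem one_le_Gn (hP : ∀ p ∈ P, Nat.Prime p) (hz : 1 ≤ z) : 1 ≤ Gn P z k1 := by
  classical
  unfold Gn
  have h1 : (1 : ℝ) = 1 / ph ∅ := by simp [ph]
  refine h1.le.trans (Finset.single_le_sum (f := fun A => 1 / ph A) (fun A hA => ?_) ?_)
  · have := ph_pos P hP (Finset.mem_powerset.1 (Finset.mem_filter.1 hA).1)
    positivity
  · rw [Finset.mem_filter, Finset.mem_powerset]
    refine ⟨Finset.empty_subset _, ?_⟩
    simp only [rr, Finset.prod_empty]
    exact one_le_pow₀ (by exact_mod_cast hz)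

theorem collapse5 (hP : ∀ p ∈ P, Nat.Prime p) (hz : 2 ≤ z) (w : ℕ) (b : ι → ℕ) (i : ι) (n : ℕ)
    (hn : ∀ p ∈ PP w z, ¬ p ∣ n + b i) (hn' : ∀ p ∈ P, ¬ p ∣ n + b i) :
    PhiR P w z b (y5 P z q0 k1) ∅ n = PhiR P w z b (ys5 P z q0 k1 i) {b i} n := by
  classical
  unfold PhiR
  rw [split P i (fun β => y5 P z q0 k1 β * rho w z (∅ ∪ su P b β) n * ee P b β n),
    split P i (fun β => ys5 P z q0 k1 i β * rho w z ({b i} ∪ su P b β) n * ee P b β n)]
  refine Finset.sum_congr rfl fun β _ => ?_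
  by_cases hβ : ∀ p, β p ≠ some i
  · rw [if_pos hβ, if_pos hβ]
    set R : ℝ := rho w z (su P b β) n * ee P b β n with hR
    -- the left side
    have h1 : ∀ A ∈ (P \ sp P β).powerset,
        y5 P z q0 k1 (ins P i A β) * rho w z (∅ ∪ su P b (ins P i A β)) n *
          ee P b (ins P i A β) n =
        (if rr A * rr (sp P β) ≤ (z : ℝ) ^ (2 * k1) then f5 P z q0 k1 A / ph A else 0) *
          ((∏ j, f5 P z q0 k1 (fb P β j)) * R) := by
      intro A hA
      rw [Finset.mem_powerset] at hA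
      have h2 : rho w z (∅ ∪ su P b (ins P i A β)) n = rho w z (su P b β) n := by
        rw [Finset.empty_union]
        exact M5_rho' _ _ hn (M5_su_ins P b i hβ hA)
      rw [h2, ee_ins P b i hβ hA n hn']
      unfold y5
      rw [rr_sp_ins P i hβ hA, M5_prod_ins P z q0 k1 i hβ hA, hR]
      split_ifs
      · ring
      · ring
    -- the right side
    have h3 : ∀ A ∈ (P \ sp P β).powerset,
        ys5 P z q0 k1 i (ins P i A β) * rho w z ({b i} ∪ su P b (ins P i A β)) n *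
          ee P b (ins P i A β) n =
        (if rr A ≤ (z : ℝ) ^ k1 then 1 / ph A else 0) *
          (yc5 P z q0 k1 i β / Gn (P \ sp P β) z k1 * R) := by
      intro A hA
      rw [Finset.mem_powerset] at hA
      have h2 : rho w z ({b i} ∪ su P b (ins P i A β)) n = rho w z (su P b β) n := by
        refine M5_rho' _ _ hn ?_
        rw [← Finset.insert_eq, Finset.insert_idem, M5_su_ins P b i hβ hA]
      rw [h2, ee_ins P b i hβ hA n hn']
      unfold ys5
      rw [fb_ins_self P i hβ hA, rem_ins P i hβ hA, hR]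
      split_ifs
      · ring
      · ring
    rw [Finset.sum_congr rfl h1, Finset.sum_congr rfl h3, ← Finset.sum_mul, ← Finset.sum_mul,
      ← Finset.sum_filter, ← Finset.sum_filter]
    have h4 : ∑ A ∈ (P \ sp P β).powerset with rr A ≤ (z : ℝ) ^ k1, 1 / ph A =
        Gn (P \ sp P β) z k1 := rfl
    have h5 : ∑ A ∈ (P \ sp P β).powerset with rr A * rr (sp P β) ≤ (z : ℝ) ^ (2 * k1),
        f5 P z q0 k1 A / ph A = cc5 P z q0 k1 β := rfl
    rw [h4, h5]
    have h6 : Gn (P \ sp P β) z k1 ≠ 0 := by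
      have := one_le_Gn (P \ sp P β) z k1 (fun p hp => hP p (Finset.mem_sdiff.1 hp).1)
        (by omega)
      linarith
    have h7 : yc5 P z q0 k1 i β = cc5 P z q0 k1 β * ∏ j, f5 P z q0 k1 (fb P β j) := by
      unfold yc5
      rw [if_pos hβ]
      by_cases h8 : rr (sp P β) ≤ (z : ℝ) ^ (2 * k1)
      · unfold y5
        rw [if_pos h8]
        ring
      · rw [cc5_eq_zero P z q0 k1 hP β (not_le.1 h8)]
        ring
    rw [h7]
    field_simp
  · rw [if_neg hβ, if_neg hβ]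

/-- facts needed to apply the quadratic form lemma to `ys5` -/
theorem ys5_abs_le (hP : ∀ p ∈ P, Nat.Prime p) (hz : 2 ≤ z) (hq : 1 ≤ q0) (hD : 0 < Dn P z q0 k1)
    (hD1 : 1 ≤ Dn P z q0 k1 * (q0 * Real.log z)) (i : ι) (β : P → Option ι) :
    |ys5 P z q0 k1 i β| ≤ 1 := by
  classical
  unfold ys5
  split_ifs with h1
  · have h6 : 1 ≤ Gn (P \ sp P (rem P i β)) z k1 :=
      one_le_Gn _ z k1 (fun p hp => hP p (Finset.mem_sdiff.1 hp).1) (by omega)
    have h7 : |yc5 P z q0 k1 i (rem P i β)| ≤ 1 := by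
      unfold yc5
      split_ifs with h2
      · rw [abs_mul]
        refine mul_le_one₀ (y5_abs_le P z q0 k1 hP hz hq hD hD1 _) (abs_nonneg _) ?_
        rw [abs_of_nonneg (cc5_nonneg P z q0 k1 hP hz hD _)]
        exact cc5_le_one P z q0 k1 hP hz hD _
      · rw [abs_zero]
        exact zero_le_one
    rw [abs_div, abs_of_pos (by linarith : 0 < Gn (P \ sp P (rem P i β)) z k1)]
    rw [div_le_one (by linarith)]
    linarith
  · rw [abs_zero]
    exact zero_le_one

omit [Fintype ι] in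
theorem M5_rem_ne (i : ι) (β : P → Option ι) (p : P) : rem P i β p ≠ some i := by
  unfold rem
  by_cases h : β p = some i
  · rw [if_pos h]
    exact fun h' => by cases h'
  · rw [if_neg h]
    exact h

theorem M5_fb_sub (i : ι) (β : P → Option ι) : fb P β i ⊆ P \ sp P (rem P i β) := by
  intro q hq
  obtain ⟨hqP, h3⟩ := (mem_fb P).1 hq
  rw [Finset.mem_sdiff]
  refine ⟨hqP, fun h4 => ?_⟩
  obtain ⟨_, h5⟩ := (mem_sp P).1 h4
  apply h5
  unfold rem
  rw [if_pos h3]

theorem M5_ins_rem (i : ι) (β : P → Option ι) : ins P i (fb P β i) (rem P i β) = β := by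
  funext p
  unfold ins
  by_cases hp : β p = some i
  · rw [if_pos ((mem_fb P).2 ⟨p.2, hp⟩), hp]
  · have h3 : (p : ℕ) ∉ fb P β i := by
      intro h4
      obtain ⟨_, h5⟩ := (mem_fb P).1 h4
      exact hp h5
    rw [if_neg h3]
    unfold rem
    rw [if_neg hp]

theorem ys5_supp (hP : ∀ p ∈ P, Nat.Prime p) (hz : 2 ≤ z) (hq : 1 ≤ q0) {K : ℕ} (hK : 2 * k1 ≤ K * q0)
    (i : ι) (β : P → Option ι) (h : ys5 P z q0 k1 i β ≠ 0) :
    rr (sp P β) ≤ (z : ℝ) ^ (3 * k1) ∧ (sui P β).card ≤ K + 1 := by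
  classical
  have h1 : rr (fb P β i) ≤ (z : ℝ) ^ k1 := by
    by_contra h1
    apply h
    unfold ys5
    rw [if_neg h1]
  have h2 : y5 P z q0 k1 (rem P i β) ≠ 0 := by
    intro h2
    apply h
    unfold ys5
    rw [if_pos h1]
    unfold yc5
    rw [h2]
    simp
  obtain ⟨h3, h4⟩ := y5_supp P z q0 k1 hP hz hq hK _ h2
  have h5 := rr_sp_ins P i (M5_rem_ne P i β) (M5_fb_sub P i β)
  have h6 := sui_ins P i (M5_rem_ne P i β) (M5_fb_sub P i β)
  rw [M5_ins_rem] at h5 h6
  constructor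
  · rw [h5]
    have h7 : (z : ℝ) ^ (3 * k1) = (z : ℝ) ^ k1 * (z : ℝ) ^ (2 * k1) := by
      rw [← pow_add]
      congr 1
      ring
    rw [h7]
    have h8 := one_le_rr P hP (sp_subset P (rem P i β))
    exact mul_le_mul h1 h3 (by linarith) (by positivity)
  · rw [h6]
    split_ifs
    · omega
    · exact (Finset.card_insert_le _ _).trans (by omega)

end Pool.Agent.LibLG5
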