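import Pool.Agent.LibLG5.P4
import Pool.Agent.LibGP53.Defs

/-!
Row FIN: the output `GP.Main l e`. Let `l' = max l 1`, `C, q0, k1, K, T, Bd` from `block C` for `l', e` and `pair` for the same parameters,
`q = 16 k1`, `W = primorial (wf z)`, `M = z^q / W`, `h = hh l (z^q)`, `ι_j = {a ∈ Ioc (j h) ((j+1) h) | (c + a).Coprime W}` (as a subtype of a
Finset), `b_j = Subtype.val`, `X j m = if m < M then X5 z q0 k1 T b_j (c + W m) else 0`, `d j = DG z q0 k1 b_j ≥ 1` (`one_le_dg`).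
* `card ι_j ≤ (h / W + 1) φ(W) ≤ 2 h φ(W)/W` (`W ≤ h`, `primorial_wf_le`), so `card ι_j * V1 ≤ 2 h / log z ≤ 64 l' k1` (`NT_V`).
* `b_j ≤ J h ≤ log² z`; `z^(q-1) ≤ M` because `W ≤ z`; `c + W m ≤ z^q` for `m < M`, `c < W`.
* free: `X j m > 0` gives `Nb = 0`; for `n + a` prime with `a ∈ (j h, (j+1) h]`: if `a ∈ ι_j`, a prime `≤ z^k1 < z^(q-1) ≤ n` divides `n + a`;
  otherwise a prime dividing `W`, so `≤ wf z < n`, divides `c + a`, hence `n + a`: contradiction.
* `avg M F = (∑ F)/M`; the sums follow (`M > 0`).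
Split into lemmas as you like.
-/

open Finset Filter

namespace Pool.Agent.LibLG5

open Pool.Agent.LibRG87

/-- the positions of the block `j` -/
def FIN_S (h W c j : ℕ) : Finset ℕ :=
  (Finset.Ioc (j * h) (j * h + h)).filter fun a => (c + a).Coprime W

theorem FIN_ev (l : ℝ) (hl : 0 < l) (k1 J : ℕ) (hk1 : 1 ≤ k1) : ∀ᶠ z : ℕ in atTop, 4 ≤ z ∧
    1 ≤ Real.log z ∧ (J : ℝ) * (l * ((16 * k1 : ℕ) * Real.log z) + 1) ≤ Real.log z ^ 2 ∧
    (primorial (wf z) : ℝ) ≤ l * ((16 * k1 : ℕ) * Real.log z) ∧ primorial (wf z) ≤ z ∧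
    wf z ≤ z := by
  set A : ℝ := l * (16 * k1 : ℕ) with hA
  have hk1' : (0 : ℝ) < ((16 * k1 : ℕ) : ℝ) := by
    have : 0 < 16 * k1 := by omega
    exact_mod_cast this
  have hA0 : 0 < A := mul_pos hl hk1'
  have h1 : ∀ᶠ z : ℕ in atTop, max (max 1 ((J : ℝ) * (A + 1))) (2 / A ^ 2) ≤ Real.log z :=
    (Real.tendsto_log_atTop.comp tendsto_natCast_atTop_atTop).eventually_ge_atTop _
  filter_upwards [eventually_ge_atTop 4, h1] with z hz hx
  have hx1 : 1 ≤ Real.log z := (le_max_left _ _).trans ((le_max_left _ _).trans hx)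
  have hxJ : (J : ℝ) * (A + 1) ≤ Real.log z := (le_max_right _ _).trans ((le_max_left _ _).trans hx)
  have hxA : 2 / A ^ 2 ≤ Real.log z := (le_max_right _ _).trans hx
  set x := Real.log z with hxdef
  have hz0 : (0 : ℝ) < z := by
    have : 0 < z := by omega
    exact_mod_cast this
  have hz4 : (4 : ℝ) ≤ z := by exact_mod_cast hz
  have hxz : x ≤ z := (Real.log_le_sub_one_of_pos hz0).trans (by linarith)
  have hW := primorial_wf_le hz
  have hlog2 : (1 / 2 : ℝ) < Real.log 2 := by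
    have := Real.log_two_gt_d9
    linarith
  have hW2 : (primorial (wf z) : ℝ) ^ 2 ≤ 2 * x := by
    refine hW.trans ?_
    rw [div_le_iff₀ (by linarith)]
    nlinarith
  have hW0 : (0 : ℝ) ≤ (primorial (wf z) : ℝ) := Nat.cast_nonneg _
  refine ⟨hz, hx1, ?_, ?_, ?_, ?_⟩
  · have hJ0 : (0 : ℝ) ≤ J := Nat.cast_nonneg _
    have e1 : l * (((16 * k1 : ℕ) : ℝ) * x) = A * x := by rw [hA]; ring
    rw [e1]
    calc (J : ℝ) * (A * x + 1) ≤ (J : ℝ) * (A * x + x) := by
          apply mul_le_mul_of_nonneg_left _ hJ0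
          linarith
      _ = (J : ℝ) * (A + 1) * x := by ring
      _ ≤ x * x := mul_le_mul_of_nonneg_right hxJ (by linarith)
      _ = x ^ 2 := by ring
  · have e1 : l * (((16 * k1 : ℕ) : ℝ) * x) = A * x := by rw [hA]; ring
    rw [e1]
    refine (pow_le_pow_iff_left₀ hW0 (by positivity) two_ne_zero).mp ?_
    refine hW2.trans ?_
    rw [div_le_iff₀ (by positivity)] at hxA
    calc 2 * x ≤ (x * A ^ 2) * x := mul_le_mul_of_nonneg_right hxA (by linarith)
      _ = (A * x) ^ 2 := by ring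
  · have : (primorial (wf z) : ℝ) ≤ z := by
      refine (pow_le_pow_iff_left₀ hW0 hz0.le two_ne_zero).mp ?_
      refine hW2.trans ?_
      nlinarith
    exact_mod_cast this
  · unfold wf
    have h2 : Nat.log 2 (Nat.log 2 z) ≤ Nat.log 2 z := Nat.log_le_self 2 _
    have h3 : Nat.log 2 z ≤ z := Nat.log_le_self 2 _
    omega


theorem FIN_card {h W c j : ℕ} (hW : W ≠ 0) :
    (FIN_S h W c j).card ≤ W.totient * (h / W + 1) := by
  refine le_trans ?_ (Nat.Ico_filter_coprime_le (c + j * h + 1) h hW)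
  refine Finset.card_le_card_of_injOn (fun a => c + a) ?_ ?_
  · intro a ha
    rw [Finset.mem_coe, FIN_S, Finset.mem_filter, Finset.mem_Ioc] at ha
    rw [Finset.mem_coe, Finset.mem_filter, Finset.mem_Ico]
    refine ⟨⟨?_, ?_⟩, Nat.Coprime.symm ha.2⟩
    · show c + j * h + 1 ≤ c + a
      omega
    · show c + a < c + j * h + 1 + h
      omega
  · intro a _ a' _ h
    exact Nat.add_left_cancel h

theorem FIN_card_V1 {h z c j : ℕ} (hz : 2 ≤ z) (hw : wf z ≤ z)
    (hWh : (primorial (wf z) : ℝ) ≤ h) :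
    ((FIN_S h (primorial (wf z)) c j).card : ℝ) * V1 (wf z) z ≤ 2 * h / Real.log z := by
  set W := primorial (wf z) with hWdef
  have hW0 : 0 < W := primorial_pos _
  have hW0' : (0 : ℝ) < W := by exact_mod_cast hW0
  have h1 : ((FIN_S h W c j).card : ℝ) ≤ W.totient * (2 * h / W) := by
    have h2 : ((FIN_S h W c j).card : ℝ) ≤ ((W.totient * (h / W + 1) : ℕ) : ℝ) := by
      exact_mod_cast FIN_card hW0.ne'
    refine h2.trans ?_
    push_cast
    refine mul_le_mul_of_nonneg_left ?_ (Nat.cast_nonneg _)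
    have h3 : ((h / W : ℕ) : ℝ) ≤ (h : ℝ) / W := Nat.cast_div_le
    have h4 : (1 : ℝ) ≤ (h : ℝ) / W := by
      rw [le_div_iff₀ hW0', one_mul]
      exact hWh
    have h5 : 2 * (h : ℝ) / W = (h : ℝ) / W + (h : ℝ) / W := by ring
    linarith
  have h6 := NT_V hz hw
  have hV := (V1_pos (wf z) z).le
  calc ((FIN_S h W c j).card : ℝ) * V1 (wf z) z ≤ W.totient * (2 * h / W) * V1 (wf z) z :=
        mul_le_mul_of_nonneg_right h1 hV
    _ = 2 * h * ((W.totient : ℝ) / W * V1 (wf z) z) := by ring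
    _ ≤ 2 * h * (1 / Real.log z) := mul_le_mul_of_nonneg_left h6 (by positivity)
    _ = 2 * h / Real.log z := by ring

theorem FIN_free {z q0 k1 T h c j m : ℕ} (hk1 : 3 ≤ k1) (hz : 4 ≤ z) (hwz : wf z ≤ z)
    (hn : z ^ (16 * k1 - 1) ≤ c + primorial (wf z) * m)
    (hX : 0 < X5 z q0 k1 T (fun a : FIN_S h (primorial (wf z)) c j => (a : ℕ))
      (c + primorial (wf z) * m)) :
    GP.Free (c + primorial (wf z) * m + j * h) h := by
  set n := c + primorial (wf z) * m with hndef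
  have hNb : Nb (wf z) z (z ^ k1) (fun a : FIN_S h (primorial (wf z)) c j => (a : ℕ)) n = 0 := by
    by_contra hne
    unfold X5 at hX
    rw [if_neg (fun hh => hne hh.1)] at hX
    exact lt_irrefl _ hX
  have hzk : z ^ k1 < n := by
    refine lt_of_lt_of_le ?_ hn
    exact Nat.pow_lt_pow_right (by omega) (by omega)
  have hzn : z < n := by
    refine lt_of_le_of_lt ?_ hzk
    calc z = z ^ 1 := (pow_one z).symm
      _ ≤ z ^ k1 := Nat.pow_le_pow_right (by omega) (by omega)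
  intro p hp1 hp2 hpp
  have hpn : n < p := by omega
  obtain ⟨a, ha⟩ : ∃ a, p = n + a := ⟨p - n, by omega⟩
  by_cases hc : (c + a).Coprime (primorial (wf z))
  · have haS : a ∈ FIN_S h (primorial (wf z)) c j := by
      rw [FIN_S, Finset.mem_filter, Finset.mem_Ioc]
      exact ⟨⟨by omega, by omega⟩, hc⟩
    unfold Nb at hNb
    rw [Finset.card_eq_zero, Finset.filter_eq_empty_iff] at hNb
    have h1 := hNb (Finset.mem_univ (⟨a, haS⟩ : FIN_S h (primorial (wf z)) c j))
    apply h1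
    refine ⟨fun r hr hd => ?_, fun r hr hd => ?_⟩
    · rw [PP, Finset.mem_filter, Finset.mem_Ioc] at hr
      simp only at hd
      rw [← ha] at hd
      have h2 := (Nat.prime_dvd_prime_iff_eq hr.2 hpp).mp hd
      omega
    · rw [PP, Finset.mem_filter, Finset.mem_Ioc] at hr
      simp only at hd
      rw [← ha] at hd
      have h2 := (Nat.prime_dvd_prime_iff_eq hr.2 hpp).mp hd
      omega
  · obtain ⟨r, hr, hr1, hr2⟩ := Nat.Prime.not_coprime_iff_dvd.mp hc
    have h3 : r ≤ wf z := (Nat.Prime.dvd_primorial_iff hr).mp hr2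
    have h4 : r ∣ p := by
      rw [ha, hndef]
      have h5 : c + primorial (wf z) * m + a = (c + a) + primorial (wf z) * m := by ring
      rw [h5]
      exact Dvd.dvd.add hr1 (Dvd.dvd.mul_right hr2 m)
    have h6 := (Nat.prime_dvd_prime_iff_eq hr hpp).mp h4
    omega

theorem FIN_inj {h W c i j : ℕ} (hij : i ≠ j) : Function.Injective
    (Sum.elim (fun a : FIN_S h W c i => (a : ℕ)) (fun a : FIN_S h W c j => (a : ℕ))) := by
  have hmem : ∀ (k : ℕ) (a : FIN_S h W c k), k * h < (a : ℕ) ∧ (a : ℕ) ≤ k * h + h := by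
    intro k a
    exact Finset.mem_Ioc.mp (Finset.mem_filter.mp a.2).1
  have hdis : ∀ (k k' : ℕ) (a : FIN_S h W c k) (a' : FIN_S h W c k'), k ≠ k' → (a : ℕ) ≠ a' := by
    intro k k' a a' hk hEq
    have h1 := hmem k a
    have h2 := hmem k' a'
    rcases lt_or_gt_of_ne hk with h3 | h3
    · have h4 : (k + 1) * h ≤ k' * h := Nat.mul_le_mul_right h h3
      have h5 : (k + 1) * h = k * h + h := by ring
      omega
    · have h4 : (k' + 1) * h ≤ k * h := Nat.mul_le_mul_right h h3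
      have h5 : (k' + 1) * h = k' * h + h := by ring
      omega
  rintro (a | a) (a' | a') hEq
  · simp only [Sum.elim_inl] at hEq
    rw [Subtype.ext hEq]
  · simp only [Sum.elim_inl, Sum.elim_inr] at hEq
    exact absurd hEq (hdis i j a a' hij)
  · simp only [Sum.elim_inl, Sum.elim_inr] at hEq
    exact absurd hEq (hdis j i a a' (Ne.symm hij))
  · simp only [Sum.elim_inr] at hEq
    rw [Subtype.ext hEq]

theorem main (l e : ℝ) (hl : 0 < l) (he : 0 < e) (he1 : e < 1) : GP.Main l e := by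
  obtain ⟨C, hC, hQF, hblk⟩ := block
  set l' : ℝ := max l 1 with hl'def
  have hl' : 1 ≤ l' := le_max_right _ _
  have hll' : l ≤ l' := le_max_left _ _
  obtain ⟨q0, k1, K, T, Bd, hBd, hpar, hev⟩ := hblk l' e hl' he he1
  have hpar' := hpar
  obtain ⟨hq0, hk1, hK, _, _, _, _⟩ := hpar'
  have hpr := pair C hQF l' e hl' he he1 q0 k1 K T hpar
  refine ⟨16 * k1, Bd, by omega, hBd, fun J => ?_⟩
  have hall := (hev.and hpr).and (FIN_ev l hl k1 J (by omega))
  obtain ⟨z₀, hz₀⟩ := Filter.eventually_atTop.mp hall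
  refine ⟨z₀, fun z hz => ?_⟩
  obtain ⟨⟨hB, hPr⟩, hz4, hlog, hJ, hWl, hWz, hwz⟩ := hz₀ z hz
  set W := primorial (wf z) with hWdef
  have hW0 : 0 < W := primorial_pos _
  refine ⟨W, hW0, hWz, fun c hc => ?_⟩
  set h := GP.hh l (z ^ (16 * k1)) with hhdef
  set M := z ^ (16 * k1) / W with hMdef
  have hlogz : Real.log ((z ^ (16 * k1) : ℕ) : ℝ) = ((16 * k1 : ℕ) : ℝ) * Real.log z := by
    rw [Nat.cast_pow, Real.log_pow]
  have hh1 : l * (((16 * k1 : ℕ) : ℝ) * Real.log z) ≤ h := by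
    rw [hhdef, GP.hh, hlogz]
    exact Nat.le_ceil _
  have hh2 : (h : ℝ) ≤ l * (((16 * k1 : ℕ) : ℝ) * Real.log z) + 1 := by
    rw [hhdef, GP.hh, hlogz]
    exact (Nat.ceil_lt_add_one (by positivity)).le
  have hM1 : z ^ (16 * k1 - 1) ≤ M := by
    rw [hMdef, Nat.le_div_iff_mul_le hW0]
    calc z ^ (16 * k1 - 1) * W ≤ z ^ (16 * k1 - 1) * z := Nat.mul_le_mul_left _ hWz
      _ = z ^ (16 * k1) := by
          rw [← pow_succ]
          congr 1
          omega
  have hM0 : 0 < M := lt_of_lt_of_le (pow_pos (by omega) _) hM1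
  have hM0' : (0 : ℝ) < (M : ℝ) := by exact_mod_cast hM0
  have hcM : ∀ m < M, c + W * m ≤ z ^ (16 * k1) := by
    intro m hm
    have h1 : W * (m + 1) ≤ W * M := Nat.mul_le_mul_left W hm
    have h2 : W * M ≤ z ^ (16 * k1) := by
      rw [hMdef]
      exact Nat.mul_div_le _ _
    have h3 : W * (m + 1) = W * m + W := by ring
    omega
  -- the positions
  have hbz : ∀ j < J, ∀ a : FIN_S h W c j, 1 ≤ (a : ℕ) ∧ ((a : ℕ) : ℝ) ≤ Real.log z ^ 2 := by
    intro j hj a
    have h1 := Finset.mem_Ioc.mp (Finset.mem_filter.mp a.2).1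
    refine ⟨by omega, ?_⟩
    have h2 : (a : ℕ) ≤ J * h := by
      have h3 : (j + 1) * h ≤ J * h := Nat.mul_le_mul_right h hj
      have h4 : (j + 1) * h = j * h + h := by ring
      omega
    have h5 : ((a : ℕ) : ℝ) ≤ (J : ℝ) * h := by exact_mod_cast h2
    refine h5.trans (le_trans ?_ hJ)
    exact mul_le_mul_of_nonneg_left hh2 (Nat.cast_nonneg _)
  have hcard : ∀ j, (Fintype.card (FIN_S h W c j) : ℝ) * V1 (wf z) z ≤ 64 * l' * k1 := by
    intro j
    rw [Fintype.card_coe]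
    have h1 := FIN_card_V1 (h := h) (z := z) (c := c) (j := j) (by omega) hwz
      (hWl.trans hh1)
    refine h1.trans ?_
    have hlp : 0 < Real.log z := by linarith
    rw [div_le_iff₀ hlp]
    have hk : (3 : ℝ) ≤ k1 := by exact_mod_cast hk1
    have h2 : l * (((16 * k1 : ℕ) : ℝ) * Real.log z) = 16 * l * k1 * Real.log z := by
      push_cast
      ring
    rw [h2] at hh2
    have h3 : 16 * l * k1 * Real.log z ≤ 16 * l' * k1 * Real.log z := by
      have : 16 * l * k1 ≤ 16 * l' * k1 := by nlinarith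
      exact mul_le_mul_of_nonneg_right this hlp.le
    have h4 : 1 ≤ 16 * l' * k1 * Real.log z := by
      have h5 : 1 ≤ 16 * l' * k1 := by nlinarith
      nlinarith
    nlinarith
  have hinj : ∀ j, Function.Injective (fun a : FIN_S h W c j => (a : ℕ)) := fun j =>
    Subtype.val_injective
  classical
  let X : ℕ → ℕ → ℝ := fun j m => if j < J ∧ m < M then
    X5 z q0 k1 T (fun a : FIN_S h W c j => (a : ℕ)) (c + W * m) else 0
  let d : ℕ → ℝ := fun j => DG z q0 k1 (fun a : FIN_S h W c j => (a : ℕ))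
  have hXeq : ∀ j < J, ∀ m < M, X j m =
      X5 z q0 k1 T (fun a : FIN_S h W c j => (a : ℕ)) (c + W * m) := fun j hj m hm =>
    if_pos ⟨hj, hm⟩
  have hsum : ∀ j < J, ∑ m ∈ range M, X j m =
      avg M (fun m => X5 z q0 k1 T (fun a : FIN_S h W c j => (a : ℕ)) (c + W * m)) * M := by
    intro j hj
    rw [avg, div_mul_cancel₀ _ hM0'.ne']
    exact Finset.sum_congr rfl fun m hm => hXeq j hj m (Finset.mem_range.mp hm)
  have hblock : ∀ j < J, (1 - e) * d j ≤
      avg M (fun m => X5 z q0 k1 T (fun a : FIN_S h W c j => (a : ℕ)) (c + W * m)) ∧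
      avg M (fun m => X5 z q0 k1 T (fun a : FIN_S h W c j => (a : ℕ)) (c + W * m)) ≤
        (1 + e) * d j ∧
      ∀ m < M, X5 z q0 k1 T (fun a : FIN_S h W c j => (a : ℕ)) (c + W * m) ≤ Bd := fun j hj =>
    hB (FIN_S h W c j) (fun a => (a : ℕ)) c M (hinj j) (hbz j hj) (hcard j) hM1 hcM
  refine ⟨X, d, ?_, ?_, ?_, ?_, ?_, ?_⟩
  · intro j _
    exact one_le_dg (PP z (z ^ k1)) z q0 k1 (fun p hp => (Finset.mem_filter.mp hp).2) (by omega)
      (wf z) _
  · intro j m
    by_cases hjm : j < J ∧ m < M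
    · rw [hXeq j hjm.1 m hjm.2]
      exact ⟨X5_nonneg _ _ _ _ _ _, (hblock j hjm.1).2.2 m hjm.2⟩
    · have : X j m = 0 := if_neg hjm
      rw [this]
      exact ⟨le_rfl, by linarith⟩
  · intro j hj m hm hn hX
    rw [hXeq j hj m hm] at hX
    exact FIN_free hk1 hz4 hwz hn hX
  · intro j hj
    rw [hsum j hj]
    exact mul_le_mul_of_nonneg_right (hblock j hj).1 hM0'.le
  · intro j hj
    rw [hsum j hj]
    exact mul_le_mul_of_nonneg_right (hblock j hj).2.1 hM0'.le
  · intro i hi j hj hij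
    have h1 := hPr (FIN_S h W c i) (FIN_S h W c j) (fun a => (a : ℕ)) (fun a => (a : ℕ)) c M
      (FIN_inj hij) (hbz i hi) (hbz j hj) (hcard i) (hcard j) hM1 hcM
    have h2 : ∑ m ∈ range M, X i m * X j m =
        avg M (fun m => X5 z q0 k1 T (fun a : FIN_S h W c i => (a : ℕ)) (c + W * m) *
          X5 z q0 k1 T (fun a : FIN_S h W c j => (a : ℕ)) (c + W * m)) * M := by
      rw [avg, div_mul_cancel₀ _ hM0'.ne']
      refine Finset.sum_congr rfl fun m hm => ?_
      rw [hXeq i hi m (Finset.mem_range.mp hm), hXeq j hj m (Finset.mem_range.mp hm)]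
    rw [h2]
    calc avg M (fun m => X5 z q0 k1 T (fun a : FIN_S h W c i => (a : ℕ)) (c + W * m) *
          X5 z q0 k1 T (fun a : FIN_S h W c j => (a : ℕ)) (c + W * m)) * M
        ≤ ((1 + e) * (d i * d j)) * M := mul_le_mul_of_nonneg_right h1 hM0'.le
      _ = (1 + e) * d i * d j * (M : ℝ) := by ring

end Pool.Agent.LibLG5
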