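import Pool.Agent.LibLG5.M5
import Pool.Agent.LibLG5.M0

/-!
Row M10: pointwise identities. `rho B n * rho B' n = rho (B ∪ B') n`, so
`PhiR y {b i} n = rho {b i} n * PhiR y ∅ n`, and `∑_i rho {b i} n = Nr n`. For a position `i` counted by `Nb`:
`PHI n = PhiR (ys5 i) {b i} n` (`collapse5`), the squares of the others are `≥ 0`.
-/

open Finset

namespace Pool.Agent.LibLG5

open Pool.Agent.LibRG87

variable {ι : Type} [Fintype ι] [DecidableEq ι]

theorem rho_mul (w z : ℕ) (B B' : Finset ℕ) (n : ℕ) :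
    rho w z B n * rho w z B' n = rho w z (B ∪ B') n := by
  unfold rho
  by_cases h : ∀ a ∈ B, ∀ p ∈ PP w z, ¬ p ∣ n + a
  · by_cases h' : ∀ a ∈ B', ∀ p ∈ PP w z, ¬ p ∣ n + a
    · rw [if_pos h, if_pos h', if_pos, mul_one]
      intro a ha
      rcases Finset.mem_union.1 ha with ha | ha
      · exact h a ha
      · exact h' a ha
    · rw [if_neg h', mul_zero, if_neg]
      intro h2
      exact h' fun a ha => h2 a (Finset.mem_union_right _ ha)
  · rw [if_neg h, zero_mul, if_neg]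
    intro h2
    exact h fun a ha => h2 a (Finset.mem_union_left _ ha)

theorem M10_PhiR (P : Finset ℕ) (w z : ℕ) (b : ι → ℕ) (y : (P → Option ι) → ℝ) (E : Finset ℕ)
    (n : ℕ) : PhiR P w z b y E n = rho w z E n * PhiR P w z b y ∅ n := by
  unfold PhiR
  rw [Finset.mul_sum]
  refine Finset.sum_congr rfl fun β _ => ?_
  rw [← rho_mul w z E, ← rho_mul w z ∅]
  have h : rho w z ∅ n = 1 := by
    unfold rho
    rw [if_pos]
    intro a ha
    exact absurd ha (Finset.notMem_empty a)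
  rw [h]
  ring

theorem M10_rho_single (w z a n : ℕ) (c : ℝ) :
    (rho w z {a} n * c) ^ 2 = if ∀ p ∈ PP w z, ¬ p ∣ n + a then c ^ 2 else 0 := by
  unfold rho
  by_cases h : ∀ p ∈ PP w z, ¬ p ∣ n + a
  · rw [if_pos h, if_pos, one_mul]
    intro x hx
    rw [Finset.mem_singleton.1 hx]
    exact h
  · rw [if_neg h, if_neg]
    · ring
    · intro h2
      exact h (h2 a (Finset.mem_singleton_self a))

theorem PHI_sq_mul_Nr (z q0 k1 : ℕ) (b : ι → ℕ) (n : ℕ) :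
    PHI z q0 k1 b n ^ 2 * Nr (wf z) z b n =
      ∑ i, PhiR (PP z (z ^ k1)) (wf z) z b (y5 (PP z (z ^ k1)) z q0 k1) {b i} n ^ 2 := by
  classical
  have h : ∀ i, PhiR (PP z (z ^ k1)) (wf z) z b (y5 (PP z (z ^ k1)) z q0 k1) {b i} n ^ 2 =
      if ∀ p ∈ PP (wf z) z, ¬ p ∣ n + b i then PHI z q0 k1 b n ^ 2 else 0 := by
    intro i
    rw [M10_PhiR, M10_rho_single]
    rfl
  simp only [h]
  rw [← Finset.sum_filter, Finset.sum_const, nsmul_eq_mul, mul_comm]
  congr 2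

theorem PHI_sq_mul_Nb (z q0 k1 : ℕ) (hz : 2 ≤ z) (b : ι → ℕ) (n : ℕ) :
    PHI z q0 k1 b n ^ 2 * Nb (wf z) z (z ^ k1) b n ≤
      ∑ i, PhiR (PP z (z ^ k1)) (wf z) z b (ys5 (PP z (z ^ k1)) z q0 k1 i) {b i} n ^ 2 := by
  classical
  unfold Nb
  rw [mul_comm, ← nsmul_eq_mul, ← Finset.sum_const]
  refine le_trans (Finset.sum_le_sum fun i hi => ?_) (Finset.sum_le_sum_of_subset_of_nonneg
    (Finset.subset_univ _) fun i _ _ => sq_nonneg _)
  have hi' := (Finset.mem_filter.1 hi).2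
  have hP : ∀ p ∈ PP z (z ^ k1), Nat.Prime p := fun p hp => (Finset.mem_filter.1 hp).2
  have h := collapse5 (PP z (z ^ k1)) z q0 k1 hP hz (wf z) b i n hi'.1 hi'.2
  rw [← h]
  exact le_rfl

/-- the truncated weight from below -/
theorem X5_ge (z q0 k1 T : ℕ) (hT : 1 ≤ T) (b : ι → ℕ) (n : ℕ) :
    PHI z q0 k1 b n ^ 2 - PHI z q0 k1 b n ^ 2 * Nb (wf z) z (z ^ k1) b n -
      PHI z q0 k1 b n ^ 2 * Nr (wf z) z b n / T ≤ X5 z q0 k1 T b n := by
  have hT' : (0 : ℝ) < T := by exact_mod_cast hT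
  have h0 : 0 ≤ PHI z q0 k1 b n ^ 2 := sq_nonneg _
  have h1 : 0 ≤ PHI z q0 k1 b n ^ 2 * Nb (wf z) z (z ^ k1) b n := by positivity
  have h2 : 0 ≤ PHI z q0 k1 b n ^ 2 * Nr (wf z) z b n / T := by positivity
  unfold X5
  split_ifs with h
  · linarith
  · rw [not_and_or] at h
    rcases h with h | h
    · have h3 : (1 : ℝ) ≤ Nb (wf z) z (z ^ k1) b n := by
        exact_mod_cast Nat.one_le_iff_ne_zero.2 h
      nlinarith
    · have h3 : (T : ℝ) ≤ Nr (wf z) z b n := by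
        exact_mod_cast (not_le.1 h).le
      have h4 : PHI z q0 k1 b n ^ 2 ≤ PHI z q0 k1 b n ^ 2 * Nr (wf z) z b n / T := by
        rw [le_div_iff₀ hT']
        exact mul_le_mul_of_nonneg_left h3 h0
      linarith

theorem X5_le (z q0 k1 T : ℕ) (b : ι → ℕ) (n : ℕ) : X5 z q0 k1 T b n ≤ PHI z q0 k1 b n ^ 2 := by
  unfold X5
  split_ifs
  · exact le_rfl
  · exact sq_nonneg _

theorem X5_nonneg (z q0 k1 T : ℕ) (b : ι → ℕ) (n : ℕ) : 0 ≤ X5 z q0 k1 T b n := by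
  unfold X5
  split_ifs
  · exact sq_nonneg _
  · exact le_rfl

end Pool.Agent.LibLG5
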