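import Pool.Agent.LibLG5.Defs

/-!
Row M11: the sieve error beats everything. With `Λ = L k` (`L ≥ 1` fixed), `b0 = 2 (k/2)`, `K` fixed, `k → ∞`:
`errQF C K k b0 Λ = C (C(2K+1))^(b0+1) exp(C(2K+1)) / (b0+1)! * (C k)^(C K^2) * (1 + L k)^(2K)`; the factorial wins
(`FloorSemiring.tendsto_pow_div_factorial_atTop`, polynomials times `a^k/k!`; note `b0 + 1 ≥ k`; substitute `k ≤ b0 + 1` and absorb
`k^j ≤ (b0+1)^j ≤ j^j… ` or compare `(b0+1)^j ≤ j! e^{b0+1}`, i.e. polynomial ≤ const · e^{b0+1}).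
-/

open Finset Filter

namespace Pool.Agent.LibLG5

theorem M11_pow_le (m N : ℕ) : (m:ℝ) ^ N ≤ (N.factorial : ℝ) * Real.exp 1 ^ m := by
  have h := Real.pow_div_factorial_le_exp (m:ℝ) (Nat.cast_nonneg m) N
  rw [div_le_iff₀ (by positivity)] at h
  have e : Real.exp (m:ℝ) = Real.exp 1 ^ m := by
    rw [← Real.exp_nat_mul, mul_one]
  rw [e] at h
  linarith

theorem errQF_tendsto (C K : ℕ) (L : ℝ) (hL : 1 ≤ L) :
    Tendsto (fun k : ℕ => (L * k) * errQF C K k (2 * (k / 2)) (L * k)) atTop (nhds 0) := by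
  have hL0 : 0 ≤ L := by linarith
  obtain ⟨D, hD⟩ : ∃ D : ℝ, D = (C:ℝ) * ((2 * K + 1 : ℕ) : ℝ) := ⟨_, rfl⟩
  have hD0 : 0 ≤ D := by rw [hD]; positivity
  obtain ⟨A, hA⟩ : ∃ A : ℝ, A = C * Real.exp D * L * (C:ℝ) ^ (C * K ^ 2) * (2 * L) ^ (2 * K) *
    ((1 + C * K ^ 2 + 2 * K).factorial : ℝ) := ⟨_, rfl⟩
  have h1 : Tendsto (fun m : ℕ => (D * Real.exp 1) ^ m / (m.factorial : ℝ)) atTop (nhds 0) :=
    FloorSemiring.tendsto_pow_div_factorial_atTop _
  have h2 : Tendsto (fun k : ℕ => 2 * (k / 2) + 1) atTop atTop :=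
    tendsto_atTop_mono (fun k => by show k ≤ 2 * (k / 2) + 1; omega) tendsto_id
  have h3 := (h1.comp h2).const_mul A
  rw [mul_zero] at h3
  refine squeeze_zero (fun k => ?_) (fun k => ?_) h3
  · unfold errQF eps0; positivity
  · show L * k * errQF C K k (2 * (k / 2)) (L * k) ≤
      A * ((D * Real.exp 1) ^ (2 * (k / 2) + 1) / ((2 * (k / 2) + 1).factorial : ℝ))
    unfold errQF eps0
    rw [← hD]
    obtain ⟨m, hm⟩ : ∃ m, m = 2 * (k / 2) + 1 := ⟨_, rfl⟩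
    rw [← hm]
    have hkm : k ≤ m := by omega
    have hkm' : (k:ℝ) ≤ m := by exact_mod_cast hkm
    have hm1 : (1:ℝ) ≤ m := by
      have : 1 ≤ m := by omega
      exact_mod_cast this
    have hk0 : (0:ℝ) ≤ k := Nat.cast_nonneg k
    have b1 : L * k ≤ L * m := mul_le_mul_of_nonneg_left hkm' hL0
    have b2 : ((C * k : ℕ) : ℝ) ^ (C * K ^ 2) ≤ (C:ℝ) ^ (C * K ^ 2) * (m:ℝ) ^ (C * K ^ 2) := by
      rw [← mul_pow]
      apply pow_le_pow_left₀ (Nat.cast_nonneg _)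
      push_cast
      exact mul_le_mul_of_nonneg_left hkm' (Nat.cast_nonneg _)
    have b3 : (1 + L * k) ^ (2 * K) ≤ (2 * L) ^ (2 * K) * (m:ℝ) ^ (2 * K) := by
      rw [← mul_pow]
      apply pow_le_pow_left₀ (by positivity)
      nlinarith
    have b4 := M11_pow_le m (1 + C * K ^ 2 + 2 * K)
    have hE : 0 ≤ (C:ℝ) * D ^ m * Real.exp D / (m.factorial : ℝ) := by positivity
    calc L * k * (C * D ^ m * Real.exp D / (m.factorial : ℝ) * ((C * k : ℕ) : ℝ) ^ (C * K ^ 2) *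
          (1 + L * k) ^ (2 * K))
        ≤ L * m * (C * D ^ m * Real.exp D / (m.factorial : ℝ) * ((C:ℝ) ^ (C * K ^ 2) * (m:ℝ) ^ (C * K ^ 2)) *
          ((2 * L) ^ (2 * K) * (m:ℝ) ^ (2 * K))) := by
          apply mul_le_mul b1 _ (by positivity) (by positivity)
          apply mul_le_mul _ b3 (by positivity) (by positivity)
          exact mul_le_mul_of_nonneg_left b2 hE
      _ = (C * Real.exp D * L * (C:ℝ) ^ (C * K ^ 2) * (2 * L) ^ (2 * K)) * (D ^ m / (m.factorial : ℝ)) *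
          (m:ℝ) ^ (1 + C * K ^ 2 + 2 * K) := by
          rw [pow_add, pow_add, pow_one]; ring
      _ ≤ (C * Real.exp D * L * (C:ℝ) ^ (C * K ^ 2) * (2 * L) ^ (2 * K)) * (D ^ m / (m.factorial : ℝ)) *
          (((1 + C * K ^ 2 + 2 * K).factorial : ℝ) * Real.exp 1 ^ m) :=
          mul_le_mul_of_nonneg_left b4 (by positivity)
      _ = A * ((D * Real.exp 1) ^ m / (m.factorial : ℝ)) := by
          rw [hA, mul_pow]; ring

end Pool.Agent.LibLG5
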