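import Pool.Agent.LibLG5.M5
import Pool.Agent.LibLG5.M2
import Pool.Agent.LibLG5.M0

/-!
Row M6: the diagonal of the collapsed sum, summed over the positions.
-/

open Finset

namespace Pool.Agent.LibLG5

open Pool.Agent.LibRG87

variable {ι : Type} [Fintype ι] [DecidableEq ι]

private theorem sp_of_rem (P : Finset ℕ) (z q0 k1 w : ℕ) (b : ι → ℕ) (i : ι)
    (hP : ∀ p ∈ P, Nat.Prime p) (hz : 1 ≤ z) :
    dg P w z b {b i} (ys5 P z q0 k1 i) = ∑ β : P → Option ι,
      if ∀ p, β p ≠ some i then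
        (y5 P z q0 k1 β * cc5 P z q0 k1 β) ^ 2 * VV w z ({b i} ∪ su P b β) /
          (Gn (P \ sp P β) z k1 * ph (sp P β)) else 0 := by
  classical
  unfold dg
  rw [split P i]
  refine Finset.sum_congr rfl fun β _ => ?_
  by_cases hβ : ∀ p, β p ≠ some i
  · rw [if_pos hβ, if_pos hβ]
    have hGn : 1 ≤ Gn (P \ sp P β) z k1 :=
      one_le_Gn (P \ sp P β) z k1 (fun p hp => hP p (Finset.mem_sdiff.1 hp).1) hz
    have hGn0 : Gn (P \ sp P β) z k1 ≠ 0 := by
      intro h
      rw [h] at hGn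
      norm_num at hGn
    have hterm : ∀ A ∈ (P \ sp P β).powerset,
        ys5 P z q0 k1 i (ins P i A β) ^ 2 * VV w z ({b i} ∪ su P b (ins P i A β)) /
          ph (sp P (ins P i A β)) =
        if rr A ≤ (z : ℝ) ^ k1 then
          ((y5 P z q0 k1 β * cc5 P z q0 k1 β) ^ 2 * VV w z ({b i} ∪ su P b β) /
            (Gn (P \ sp P β) z k1 ^ 2 * ph (sp P β))) * (1 / ph A) else 0 := by
      intro A hA
      have hA' : A ⊆ P \ sp P β := Finset.mem_powerset.1 hA
      have h1 : ys5 P z q0 k1 i (ins P i A β) = if rr A ≤ (z : ℝ) ^ k1 then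
          (y5 P z q0 k1 β * cc5 P z q0 k1 β) / Gn (P \ sp P β) z k1 else 0 := by
        unfold ys5
        rw [fb_ins_self P i hβ hA', rem_ins P i hβ hA']
        unfold yc5
        rw [if_pos hβ]
      have h2 : {b i} ∪ su P b (ins P i A β) = {b i} ∪ su P b β := by
        unfold su
        rw [sui_ins P i hβ hA']
        split_ifs with h
        · rfl
        · rw [Finset.image_insert]
          ext x
          simp only [Finset.mem_union, Finset.mem_singleton, Finset.mem_insert]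
          tauto
      rw [h1, h2, ph_sp_ins P i hβ hA']
      split_ifs with h
      · have h3 : ph A ≠ 0 := (ph_pos P hP (fun x hx => (Finset.mem_sdiff.1 (hA' hx)).1)).ne'
        have h4 : ph (sp P β) ≠ 0 := (ph_pos P hP (sp_subset P β)).ne'
        field_simp
      · simp
    rw [Finset.sum_congr rfl hterm, ← Finset.sum_filter, ← Finset.mul_sum]
    have h5 : ∑ A ∈ (P \ sp P β).powerset with (rr A ≤ (z : ℝ) ^ k1), 1 / ph A =
        Gn (P \ sp P β) z k1 := by
      unfold Gn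
      rfl
    rw [h5]
    have h4 : ph (sp P β) ≠ 0 := (ph_pos P hP (sp_subset P β)).ne'
    field_simp
  · rw [if_neg hβ, if_neg hβ]

theorem sum_dg_ys5 (z q0 k1 K : ℕ) (hz : 2 ≤ z) (hq : 1 ≤ q0) (hk : 1 ≤ k1) (hK : 2 * k1 ≤ K * q0)
    (hD : 0 < Dn (PP z (z ^ k1)) z q0 k1)
    (hD1 : 1 ≤ Dn (PP z (z ^ k1)) z q0 k1 * (q0 * Real.log z))
    {δ G0 ε : ℝ} (hδ : 0 ≤ δ) (hG0 : 0 < G0) (hε : 0 ≤ ε) (hV : Vstep K δ z)
    (hG : ∀ T ⊆ PP z (z ^ k1), T.card ≤ 2 * k1 → G0 ≤ Gn (PP z (z ^ k1) \ T) z k1)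
    (hcc : ∀ β : PP z (z ^ k1) → Option ι, rr (sp (PP z (z ^ k1)) β) ≤ (z : ℝ) ^ k1 →
      cc5 (PP z (z ^ k1)) z q0 k1 β ≤ ε)
    (b : ι → ℕ) (hb : Function.Injective b) (hbz : ∀ i, (b i : ℝ) ≤ Real.log z ^ 2) :
    ∑ i, dg (PP z (z ^ k1)) (wf z) z b {b i} (ys5 (PP z (z ^ k1)) z q0 k1 i) ≤
      ((1 + δ) * (Fintype.card ι * V1 (wf z) z) / G0) * (Tbig z q0 k1 b + ε ^ 2 * DG z q0 k1 b) := by
  classical
  set P : Finset ℕ := PP z (z ^ k1) with hPdef
  have hP : ∀ p ∈ P, Nat.Prime p := fun p hp => (Finset.mem_filter.1 hp).2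
  have hPz : ∀ p ∈ P, z < p := fun p hp => (Finset.mem_Ioc.1 (Finset.mem_filter.1 hp).1).1
  have hV1 : 0 < V1 (wf z) z := V1_pos _ _
  have hzR : (1 : ℝ) < z := by exact_mod_cast (by omega : 1 < z)
  -- the number of primes used
  have hcard : ∀ β : P → Option ι, rr (sp P β) ≤ (z : ℝ) ^ (2 * k1) → (sp P β).card ≤ 2 * k1 := by
    intro β h
    by_contra hcon
    push Not at hcon
    have h1 : (z : ℝ) ^ (sp P β).card ≤ rr (sp P β) := by
      unfold rr
      rw [← Finset.prod_const]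
      refine Finset.prod_le_prod (fun p _ => by positivity) fun p hp => ?_
      exact_mod_cast (hPz p (sp_subset P β hp)).le
    have h2 : (z : ℝ) ^ (2 * k1) < (z : ℝ) ^ (sp P β).card := pow_lt_pow_right₀ hzR hcon
    linarith
  -- the bound for one `β`
  have hone : ∀ (i : ι) (β : P → Option ι),
      (if ∀ p, β p ≠ some i then
        (y5 P z q0 k1 β * cc5 P z q0 k1 β) ^ 2 * VV (wf z) z ({b i} ∪ su P b β) /
          (Gn (P \ sp P β) z k1 * ph (sp P β)) else 0) ≤
      ((1 + δ) * V1 (wf z) z / G0) * ((if (z : ℝ) ^ k1 < rr (sp P β) then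
        y5 P z q0 k1 β ^ 2 * VV (wf z) z (su P b β) / ph (sp P β) else 0) +
          ε ^ 2 * (y5 P z q0 k1 β ^ 2 * VV (wf z) z (∅ ∪ su P b β) / ph (sp P β))) := by
    intro i β
    rw [Finset.empty_union]
    have hph : 0 < ph (sp P β) := ph_pos P hP (sp_subset P β)
    have hVV : 0 ≤ VV (wf z) z (su P b β) := VV_nonneg _ _ _
    have hX : 0 ≤ y5 P z q0 k1 β ^ 2 * VV (wf z) z (su P b β) / ph (sp P β) :=
      div_nonneg (mul_nonneg (sq_nonneg _) hVV) hph.le
    have hδ1 : 0 ≤ (1 + δ) * V1 (wf z) z := mul_nonneg (by linarith) hV1.le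
    have hc0 : 0 ≤ (1 + δ) * V1 (wf z) z / G0 := div_nonneg hδ1 hG0.le
    have hRHS : 0 ≤ ((1 + δ) * V1 (wf z) z / G0) * ((if (z : ℝ) ^ k1 < rr (sp P β) then
        y5 P z q0 k1 β ^ 2 * VV (wf z) z (su P b β) / ph (sp P β) else 0) +
          ε ^ 2 * (y5 P z q0 k1 β ^ 2 * VV (wf z) z (su P b β) / ph (sp P β))) := by
      refine mul_nonneg hc0 (add_nonneg ?_ (mul_nonneg (sq_nonneg _) hX))
      split_ifs
      · exact hX
      · exact le_rfl
    by_cases hβ : ∀ p, β p ≠ some i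
    swap
    · rw [if_neg hβ]
      exact hRHS
    rw [if_pos hβ]
    by_cases hy : y5 P z q0 k1 β = 0
    · rw [hy, zero_mul]
      have h0 : (0 : ℝ) ^ 2 * VV (wf z) z ({b i} ∪ su P b β) /
          (Gn (P \ sp P β) z k1 * ph (sp P β)) = 0 := by simp
      rw [h0]
      rw [hy] at hRHS
      exact hRHS
    obtain ⟨hrr, hsui⟩ := y5_supp P z q0 k1 hP hz hq hK β hy
    have hGn : G0 ≤ Gn (P \ sp P β) z k1 := hG _ (sp_subset P β) (hcard β hrr)
    have hGn0 : 0 < Gn (P \ sp P β) z k1 := lt_of_lt_of_le hG0 hGn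
    -- the new position
    have hnot : b i ∉ su P b β := by
      unfold su
      rw [Finset.mem_image]
      rintro ⟨j, hj, hji⟩
      have hij : j = i := hb hji
      unfold sui at hj
      rw [Finset.mem_filter] at hj
      obtain ⟨p, hp⟩ := hj.2
      exact hβ p (by rw [hp, hij])
    have hsu : (su P b β).card ≤ K := le_trans Finset.card_image_le hsui
    have hVs : VV (wf z) z ({b i} ∪ su P b β) ≤
        (1 + δ) * V1 (wf z) z * VV (wf z) z (su P b β) := by
      have h1 := hV (su P b β) (b i) hsu hnot (by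
        intro a ha
        rcases Finset.mem_insert.1 ha with rfl | ha
        · exact hbz i
        · obtain ⟨j, _, rfl⟩ := Finset.mem_image.1 ha
          exact hbz j)
      rwa [Finset.insert_eq] at h1
    have hcc0 : 0 ≤ cc5 P z q0 k1 β := cc5_nonneg P z q0 k1 hP hz hD β
    have hcc1 : cc5 P z q0 k1 β ≤ 1 := cc5_le_one P z q0 k1 hP hz hD β
    -- the square of the collapsed factor
    have hsq : cc5 P z q0 k1 β ^ 2 ≤ (if (z : ℝ) ^ k1 < rr (sp P β) then 1 else 0) + ε ^ 2 := by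
      split_ifs with h
      · have h1 : cc5 P z q0 k1 β ^ 2 ≤ 1 := pow_le_one₀ hcc0 hcc1
        have h2 : 0 ≤ ε ^ 2 := sq_nonneg _
        linarith
      · push Not at h
        have h1 := hcc β h
        rw [zero_add]
        exact pow_le_pow_left₀ hcc0 h1 2
    have hVVu : 0 ≤ VV (wf z) z ({b i} ∪ su P b β) := VV_nonneg _ _ _
    calc (y5 P z q0 k1 β * cc5 P z q0 k1 β) ^ 2 * VV (wf z) z ({b i} ∪ su P b β) /
          (Gn (P \ sp P β) z k1 * ph (sp P β))
        ≤ (y5 P z q0 k1 β * cc5 P z q0 k1 β) ^ 2 *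
            ((1 + δ) * V1 (wf z) z * VV (wf z) z (su P b β)) / (G0 * ph (sp P β)) := by
          apply div_le_div₀
          · exact mul_nonneg (sq_nonneg _) (mul_nonneg hδ1 hVV)
          · exact mul_le_mul_of_nonneg_left hVs (sq_nonneg _)
          · exact mul_pos hG0 hph
          · exact mul_le_mul_of_nonneg_right hGn hph.le
      _ = ((1 + δ) * V1 (wf z) z / G0) * (cc5 P z q0 k1 β ^ 2 *
            (y5 P z q0 k1 β ^ 2 * VV (wf z) z (su P b β) / ph (sp P β))) := by
          field_simp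
      _ ≤ ((1 + δ) * V1 (wf z) z / G0) * (((if (z : ℝ) ^ k1 < rr (sp P β) then 1 else 0) + ε ^ 2) *
            (y5 P z q0 k1 β ^ 2 * VV (wf z) z (su P b β) / ph (sp P β))) :=
          mul_le_mul_of_nonneg_left (mul_le_mul_of_nonneg_right hsq hX) hc0
      _ = _ := by
          split_ifs
          · ring
          · ring
  -- the sum over `β`
  have hsum : ∀ i, dg P (wf z) z b {b i} (ys5 P z q0 k1 i) ≤
      ((1 + δ) * V1 (wf z) z / G0) * (Tbig z q0 k1 b + ε ^ 2 * DG z q0 k1 b) := by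
    intro i
    rw [sp_of_rem P z q0 k1 (wf z) b i hP (by omega)]
    refine le_trans (Finset.sum_le_sum fun β _ => hone i β) ?_
    rw [← Finset.mul_sum, Finset.sum_add_distrib, ← Finset.mul_sum]
    exact le_rfl
  refine le_trans (Finset.sum_le_sum fun i _ => hsum i) ?_
  rw [Finset.sum_const, Finset.card_univ, nsmul_eq_mul]
  apply le_of_eq
  ring

end Pool.Agent.LibLG5
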