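import Pool.Agent.LibLG5.Q6
import Pool.Agent.LibLG5.M6
import Pool.Agent.LibLG5.M7
import Pool.Agent.LibLG5.M8
import Pool.Agent.LibLG5.M9
import Pool.Agent.LibLG5.M10
import Pool.Agent.LibLG5.M11

/-!
Row M12: one block. `A`, `cD` from `NT_D_lower`, `CS` from `NT_S_upper`, `cG` from `NT_G_lower`, `C` from `QF`. `L = 64 l`, `Λ = L k1`.
-/

open Finset Filter

namespace Pool.Agent.LibLG5

open Pool.Agent.LibRG87

/-- parameters `q0, k1, K` are admissible for `l, e` with the constant `C` -/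
def Params (C : ℕ) (l e : ℝ) (q0 k1 K : ℕ) : Prop :=
  1 ≤ q0 ∧ 3 ≤ k1 ∧ 1 ≤ K ∧ 2 * k1 ≤ K * q0 ∧ q0 ≤ k1 ∧
    errQF C (2 * K) k1 (2 * (k1 / 2)) (128 * l * k1) ≤ e / 16 ∧
    (∀ᶠ z : ℕ in atTop, 0 < Dn (PP z (z ^ k1)) z q0 k1 ∧
      1 ≤ Dn (PP z (z ^ k1)) z q0 k1 * (q0 * Real.log z))

theorem M12_avg_sum {κ : Type} (s : Finset κ) (M : ℕ) (F : κ → ℕ → ℝ) :
    avg M (fun m => ∑ i ∈ s, F i m) = ∑ i ∈ s, avg M (F i) := by
  unfold avg
  rw [Finset.sum_comm, Finset.sum_div]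

theorem M12_avg_mono {M : ℕ} {F G : ℕ → ℝ} (h : ∀ m, F m ≤ G m) : avg M F ≤ avg M G := by
  unfold avg
  exact div_le_div_of_nonneg_right (Finset.sum_le_sum fun m _ => h m) (Nat.cast_nonneg _)

theorem M12_avg_sub (M : ℕ) (F G : ℕ → ℝ) :
    avg M (fun m => F m - G m) = avg M F - avg M G := by
  unfold avg
  rw [Finset.sum_sub_distrib, sub_div]

theorem M12_avg_div (M : ℕ) (F : ℕ → ℝ) (t : ℝ) :
    avg M (fun m => F m / t) = avg M F / t := by
  unfold avg
  rw [← Finset.sum_div, div_div, div_div, mul_comm t]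

theorem M12_eps0_mono {C : ℕ} {k k' b0 : ℕ} (h : k ≤ k') : eps0 C k b0 ≤ eps0 C k' b0 := by
  unfold eps0
  have hk : (k : ℝ) ≤ k' := by exact_mod_cast h
  gcongr

theorem M12_eps0_nonneg (C k b0 : ℕ) : 0 ≤ eps0 C k b0 := by
  unfold eps0; positivity

theorem M12_errQF_nonneg (C K k b0 : ℕ) {Λ : ℝ} (hΛ : 0 ≤ Λ) : 0 ≤ errQF C K k b0 Λ := by
  unfold errQF
  have := M12_eps0_nonneg C (2 * K + 1) b0
  positivity

theorem M12_errQF_mono {C K K' k b0 : ℕ} {Λ Λ' : ℝ} (hC : 1 ≤ C) (hk : 1 ≤ k) (hK : K ≤ K')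
    (hΛ : 0 ≤ Λ) (hΛ' : Λ ≤ Λ') : errQF C K k b0 Λ ≤ errQF C K' k b0 Λ' := by
  unfold errQF
  have h1 : eps0 C (2 * K + 1) b0 ≤ eps0 C (2 * K' + 1) b0 := M12_eps0_mono (by omega)
  have h0 := M12_eps0_nonneg C (2 * K + 1) b0
  have h2 : (1 : ℝ) ≤ ((C * k : ℕ) : ℝ) := by
    have : 1 ≤ C * k := Nat.one_le_iff_ne_zero.2 (by positivity)
    exact_mod_cast this
  have h3 : ((C * k : ℕ) : ℝ) ^ (C * K ^ 2) ≤ ((C * k : ℕ) : ℝ) ^ (C * K' ^ 2) :=
    pow_le_pow_right₀ h2 (by gcongr)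
  have h4 : (1 + Λ) ^ (2 * K) ≤ (1 + Λ') ^ (2 * K') := by
    calc (1 + Λ) ^ (2 * K) ≤ (1 + Λ) ^ (2 * K') := pow_le_pow_right₀ (by linarith) (by omega)
      _ ≤ (1 + Λ') ^ (2 * K') := by gcongr
  have h5 : 0 ≤ eps0 C (2 * K' + 1) b0 := M12_eps0_nonneg _ _ _
  gcongr

theorem M12_PP_prime {z u p : ℕ} (h : p ∈ PP z u) : p.Prime := (Finset.mem_filter.1 h).2

theorem M12_PP_gt {z u p : ℕ} (h : p ∈ PP z u) : z < p :=
  (Finset.mem_Ioc.1 (Finset.mem_filter.1 h).1).1

theorem M12_Vstep (K : ℕ) : ∀ᶠ z : ℕ in atTop, Vstep K 1 z := by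
  filter_upwards [VV_union (K + 1) (δ := 1) one_pos] with z hz
  intro A x hA hx hAx
  have h := hz A {x} (by omega) (by simp) (by simpa using hx) (by
    intro a ha
    apply hAx a
    simp only [Finset.mem_union, Finset.mem_singleton] at ha
    simp only [Finset.mem_insert]
    tauto)
  rw [VV_singleton] at h
  have e : insert x A = A ∪ {x} := by
    ext a; simp
  rw [e]
  linarith [h]

/-- the choice of the parameters -/
theorem M12_choice (C : ℕ) (A : ℕ) (hA : 2 ≤ A) (l e cD cG : ℝ) (hl : 1 ≤ l) (he : 0 < e)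
    (hcD : 0 < cD) (hcG : 0 < cG) :
    ∃ I q0 : ℕ, 1 ≤ I ∧ 1 ≤ q0 ∧ 3 ≤ A ^ I * q0 ∧ 1 ≤ cD * I * q0 ∧
      (2 * (64 * l) / cG) * (2 * (64 * l) / (cD * I)) ≤ e / 32 ∧
      (128 * l * ((A ^ I * q0 : ℕ) : ℝ)) *
        errQF C (2 * (2 * A ^ I)) (A ^ I * q0) (2 * (A ^ I * q0 / 2))
          (128 * l * ((A ^ I * q0 : ℕ) : ℝ)) ≤ e / 64 := by
  have hl0 : 0 < l := by linarith
  obtain ⟨I, hI⟩ := exists_nat_gt ((2 * (64 * l) / cG) * (2 * (64 * l)) / (cD * (e / 32)) + 1)
  have hIpos : (0 : ℝ) < I := by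
    have : 0 ≤ (2 * (64 * l) / cG) * (2 * (64 * l)) / (cD * (e / 32)) := by positivity
    linarith
  have hI1 : 1 ≤ I := by
    have : 0 < I := by exact_mod_cast hIpos
    omega
  have ht := errQF_tendsto C (2 * (2 * A ^ I)) (128 * l) (by linarith)
  have hA1 : 1 ≤ A ^ I := Nat.one_le_pow _ _ (by omega)
  have ht2 : Tendsto (fun q0 : ℕ => A ^ I * q0) atTop atTop :=
    tendsto_id.const_mul_atTop' (by omega)
  have ht3 := ht.comp ht2
  have hev1 : ∀ᶠ q0 : ℕ in atTop, (128 * l * ((A ^ I * q0 : ℕ) : ℝ)) *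
      errQF C (2 * (2 * A ^ I)) (A ^ I * q0) (2 * (A ^ I * q0 / 2))
          (128 * l * ((A ^ I * q0 : ℕ) : ℝ)) < e / 64 :=
    ht3.eventually (gt_mem_nhds (by positivity))
  have hev2 : ∀ᶠ q0 : ℕ in atTop, 1 / (cD * I) ≤ (q0 : ℝ) :=
    tendsto_natCast_atTop_atTop.eventually_ge_atTop _
  obtain ⟨q0, hq1, hq2, hq3⟩ := (hev1.and (hev2.and (eventually_ge_atTop 3))).exists
  refine ⟨I, q0, hI1, by omega, ?_, ?_, ?_, hq1.le⟩
  · calc 3 ≤ q0 := hq3
      _ = 1 * q0 := (one_mul _).symm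
      _ ≤ A ^ I * q0 := Nat.mul_le_mul_right _ hA1
  · rw [div_le_iff₀ (by positivity)] at hq2
    linarith
  · have hI2 : (2 * (64 * l) / cG) * (2 * (64 * l)) / (cD * (e / 32)) ≤ I := by linarith
    rw [div_le_iff₀ (by positivity)] at hI2
    rw [← mul_div_assoc, div_le_iff₀ (by positivity)]
    nlinarith [hI2]

/-- the real inequalities at the end -/
theorem M12_final {D E r e Λ Sg Sn Tn SgB : ℝ} (hD : 1 ≤ D) (hr : 0 ≤ r) (hr1 : r ≤ 1) (hE : 0 ≤ E)
    (hΛ : 1 ≤ Λ) (he : 0 < e) (he1 : e < 1)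
    (hEs : Λ * E ≤ e / 64) (hrs : (2 + Λ) * r ≤ e / 64)
    (hSg : Sg ≤ (e / 16) * D) (hSn : SgB ≤ (Sn) * D) (_hSn0 : 0 ≤ Sn) (hT : 0 < Tn)
    (hTn : (2 * Sn + 1) / Tn ≤ e / 8)
    {P2 PNb PNr : ℝ} (h1 : D - (r * D + (E + r)) ≤ P2)
    (h2 : PNb ≤ (1 + r) * Sg + Λ * (E + r)) (h3 : PNr ≤ (1 + r) * SgB + Λ * (E + r)) (hSg0 : 0 ≤ Sg)
    (hSgB0 : 0 ≤ SgB) :
    (1 - e) * D ≤ P2 - PNb - PNr / Tn := by
  have hΛr : Λ * r ≤ e / 64 := by nlinarith
  have hrr : r ≤ e / 64 := by nlinarith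
  have hE1 : E ≤ e / 64 := by nlinarith
  have hD0 : 0 ≤ D := by linarith
  have h2' : PNb ≤ (e / 8) * D + e / 32 := by
    have : (1 + r) * Sg ≤ 2 * ((e / 16) * D) := by nlinarith
    nlinarith
  have h3' : PNr ≤ (2 * Sn + 1) * D := by
    have : (1 + r) * SgB ≤ 2 * (Sn * D) := by nlinarith
    nlinarith
  have h4 : PNr / Tn ≤ (e / 8) * D := by
    rw [div_le_iff₀ hT]
    rw [div_le_iff₀ hT] at hTn
    nlinarith
  nlinarith

theorem block : ∃ C : ℕ, 1 ≤ C ∧ QFprop C ∧ ∀ l e : ℝ, 1 ≤ l → 0 < e → e < 1 →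
    ∃ q0 k1 K T : ℕ, ∃ Bd : ℝ, 1 ≤ Bd ∧ Params C l e q0 k1 K ∧ ∀ᶠ z : ℕ in atTop,
      ∀ (ι : Type) [Fintype ι] [DecidableEq ι] (b : ι → ℕ) (c M : ℕ),
        Function.Injective b → (∀ i, 1 ≤ b i ∧ (b i : ℝ) ≤ Real.log z ^ 2) →
        (Fintype.card ι : ℝ) * V1 (wf z) z ≤ 64 * l * k1 →
        z ^ (16 * k1 - 1) ≤ M → (∀ m < M, c + primorial (wf z) * m ≤ z ^ (16 * k1)) →
        (1 - e) * DG z q0 k1 b ≤ avg M (fun m => X5 z q0 k1 T b (c + primorial (wf z) * m)) ∧
        avg M (fun m => X5 z q0 k1 T b (c + primorial (wf z) * m)) ≤ (1 + e) * DG z q0 k1 b ∧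
        ∀ m < M, X5 z q0 k1 T b (c + primorial (wf z) * m) ≤ Bd := by
  obtain ⟨C, hC1, hQF⟩ := QF
  refine ⟨C, hC1, hQF, ?_⟩
  intro l e hl he he1
  obtain ⟨A, hA2, cD, hcD, hD⟩ := NT_D_lower
  obtain ⟨CS, hCS, hS⟩ := NT_S_upper
  obtain ⟨cG, hcG, hG⟩ := NT_G_lower
  obtain ⟨I, q0, hI1, hq1, hk3, hcDq, hLL, hErr⟩ := M12_choice C A hA2 l e cD cG hl he hcD hcG
  have hl0 : 0 < l := by linarith
  have hA1 : 1 ≤ A ^ I := Nat.one_le_pow _ _ (by omega)
  set k1 : ℕ := A ^ I * q0 with hk1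
  set K : ℕ := 2 * A ^ I with hKdef
  set b0 : ℕ := 2 * (k1 / 2) with hb0
  have hk1' : 1 ≤ k1 := by omega
  have hK1 : 1 ≤ K := by omega
  have hKq : 2 * k1 ≤ K * q0 := by rw [hk1, hKdef]; ring_nf; exact le_rfl
  have hqk : q0 ≤ k1 := by
    calc q0 = 1 * q0 := (one_mul _).symm
      _ ≤ A ^ I * q0 := Nat.mul_le_mul_right _ hA1
  set Λ : ℝ := 64 * l * k1 with hΛ
  have hkR : (3 : ℝ) ≤ k1 := by exact_mod_cast hk3
  have hlk : 3 ≤ l * (k1 : ℝ) := by
    have := mul_le_mul hl hkR (by norm_num) hl0.le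
    linarith
  have hΛ1 : 1 ≤ Λ := by rw [hΛ, mul_assoc]; linarith
  have hb0e : Even b0 := ⟨k1 / 2, by omega⟩
  have hb0k : b0 ≤ k1 := by omega
  -- the error
  set E : ℝ := errQF C (2 * K) k1 b0 (128 * l * k1) with hE
  have hE0 : 0 ≤ E := M12_errQF_nonneg _ _ _ _ (by positivity)
  have hErr' : (128 * l * k1) * E ≤ e / 64 := hErr
  have hΛE : Λ * E ≤ e / 64 := by
    have : Λ * E ≤ (128 * l * k1) * E := by
      apply mul_le_mul_of_nonneg_right _ hE0
      rw [hΛ, mul_assoc, mul_assoc]; linarith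
    linarith
  have hE1 : E ≤ e / 64 := by
    have h1 : 1 * E ≤ (128 * l * k1) * E := by
      apply mul_le_mul_of_nonneg_right _ hE0
      rw [mul_assoc]; linarith
    linarith
  have hEK : errQF C K k1 b0 Λ ≤ E :=
    M12_errQF_mono hC1 hk1' (by omega) (by positivity) (by rw [hΛ, mul_assoc, mul_assoc]; linarith)
  have hEK1 : errQF C (K + 1) k1 b0 Λ ≤ E :=
    M12_errQF_mono hC1 hk1' (by omega) (by positivity) (by rw [hΛ, mul_assoc, mul_assoc]; linarith)
  -- T
  obtain ⟨T, hT⟩ := exists_nat_gt ((2 * ((K : ℝ) + 2 * Λ) + 1) * 8 / e)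
  have hTpos : (0 : ℝ) < T := by
    have : 0 ≤ (2 * ((K : ℝ) + 2 * Λ) + 1) * 8 / e := by positivity
    linarith
  have hT1 : 1 ≤ T := by
    have : 0 < T := by exact_mod_cast hTpos
    omega
  have hTn : (2 * ((K : ℝ) + 2 * Λ) + 1) / T ≤ e / 8 := by
    rw [div_lt_iff₀ he] at hT
    rw [div_le_iff₀ hTpos]
    linarith
  have hCSk : (1 : ℝ) ≤ CS * k1 := by
    have h1 : (1 : ℝ) ≤ CS := by exact_mod_cast hCS
    nlinarith
  set Bd : ℝ := (((1 + T) * (2 ^ (16 * k1 + 1) * (CS * k1))) ^ K) ^ 2 with hBd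
  have hBd1 : 1 ≤ Bd := by
    rw [hBd]
    apply one_le_pow₀
    apply one_le_pow₀
    have h1 : (1 : ℝ) ≤ 2 ^ (16 * k1 + 1) := one_le_pow₀ (by norm_num)
    have h2 : (1 : ℝ) ≤ 2 ^ (16 * k1 + 1) * (CS * k1) := by nlinarith
    nlinarith
  refine ⟨q0, k1, K, T, Bd, hBd1, ?_, ?_⟩
  · refine ⟨hq1, hk3, hK1, hKq, hqk, by linarith, ?_⟩
    filter_upwards [hD I q0 hq1, eventually_ge_atTop 3] with z hz hz3
    have hlz : 0 < Real.log z := Real.log_pos (by exact_mod_cast (by omega : 1 < z))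
    have hDpos : 0 < cD * I / Real.log z := by
      have : (0 : ℝ) < I := by exact_mod_cast (by omega : 0 < I)
      positivity
    refine ⟨lt_of_lt_of_le hDpos hz, ?_⟩
    calc (1 : ℝ) ≤ cD * I * q0 := hcDq
      _ = (cD * I / Real.log z) * (q0 * Real.log z) := by field_simp
      _ ≤ Dn (PP z (z ^ k1)) z q0 k1 * (q0 * Real.log z) := by
        apply mul_le_mul_of_nonneg_right hz
        positivity
  · have hsqrt : Tendsto (fun z : ℕ => 1 / Real.sqrt z) atTop (nhds 0) := by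
      simp_rw [one_div]
      exact (Real.tendsto_sqrt_atTop.comp tendsto_natCast_atTop_atTop).inv_tendsto_atTop
    have hsm : ∀ᶠ z : ℕ in atTop, 1 / Real.sqrt z < e / (64 * (2 + Λ)) :=
      hsqrt.eventually (gt_mem_nhds (by positivity))
    have hepsT : Tendsto (fun z : ℕ => (2 * k1 : ℝ) * (CS * k1) / z) atTop (nhds 0) :=
      tendsto_const_nhds.div_atTop tendsto_natCast_atTop_atTop
    have heps : ∀ᶠ z : ℕ in atTop, (2 * k1 : ℝ) * (CS * k1) / z <
        min 1 (e / (32 * (2 * (64 * l) / cG))) :=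
      hepsT.eventually (gt_mem_nhds (by positivity))
    filter_upwards [hD I q0 hq1, hS k1 hk1', hG k1 (2 * k1) hk1', hsm, heps, M12_Vstep K,
      hQF K (2 * k1) k1 b0 Λ hK1 (by omega) hk1' hb0e hΛ1 (by linarith),
      hQF (K + 1) (3 * k1) k1 b0 Λ (by omega) (by omega) hk1' hb0e hΛ1 (by linarith),
      log_pow_le 1 2 le_rfl 1, eventually_ge_atTop 3] with
      z hDz hSz hGz hsmz hepsz hVz hQ1 hQ2 hlog hz3
    intro ι _ _ b c M hb hbz hcard hM hn
    have hz2 : 2 ≤ z := by omega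
    have hlz : 0 < Real.log z := Real.log_pos (by exact_mod_cast (by omega : 1 < z))
    have hIR : (0 : ℝ) < I := by exact_mod_cast (by omega : 0 < I)
    have hq0R : (0 : ℝ) < q0 := by exact_mod_cast (by omega : 0 < q0)
    have hDpos : 0 < Dn (PP z (z ^ k1)) z q0 k1 := lt_of_lt_of_le (by positivity) hDz
    have hD1 : 1 ≤ Dn (PP z (z ^ k1)) z q0 k1 * (q0 * Real.log z) := by
      calc (1 : ℝ) ≤ cD * I * q0 := hcDq
        _ = (cD * I / Real.log z) * (q0 * Real.log z) := by field_simp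
        _ ≤ _ := by
          apply mul_le_mul_of_nonneg_right hDz
          positivity
    have hPp : ∀ p ∈ PP z (z ^ k1), p.Prime := fun p hp => M12_PP_prime hp
    have hPz : ∀ p ∈ PP z (z ^ k1), z < p := fun p hp => M12_PP_gt hp
    set r : ℝ := 1 / Real.sqrt z with hr
    have hr0 : 0 ≤ r := by positivity
    have hrs : (2 + Λ) * r ≤ e / 64 := by
      have h64 : (0 : ℝ) < 64 * (2 + Λ) := by linarith
      have h65 := (lt_div_iff₀ h64).1 hsmz
      have h66 : r * (64 * (2 + Λ)) = 64 * ((2 + Λ) * r) := by ring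
      have h67 : r * (64 * (2 + Λ)) < e := h65
      linarith
    have hr1 : r ≤ 1 := by
      have h68 : 0 ≤ Λ * r := mul_nonneg (by linarith) hr0
      have h69 : (2 + Λ) * r = 2 * r + Λ * r := by ring
      linarith
    have hDG1 : 1 ≤ DG z q0 k1 b := one_le_dg _ _ _ _ hPp (by omega) _ _
    have hDG0 : 0 ≤ DG z q0 k1 b := by linarith
    have hV10 : 0 < V1 (wf z) z := V1_pos _ _
    have hV1n : 0 ≤ V1 (wf z) z := hV10.le
    have hMpow1 : z ^ (2 * (2 * k1) + 2 * b0 + 12) ≤ M :=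
      le_trans (Nat.pow_le_pow_right (by omega) (by omega)) hM
    have hMpow2 : z ^ (2 * (3 * k1) + 2 * b0 + 12) ≤ M :=
      le_trans (Nat.pow_le_pow_right (by omega) (by omega)) hM
    have hbz2 : ∀ i, (b i : ℝ) ≤ Real.log z ^ 2 := fun i => (hbz i).2
    set n : ℕ → ℕ := fun m => c + primorial (wf z) * m with hndef
    -- second moment
    have hQa := hQ1 ι b c M ∅ (y5 (PP z (z ^ k1)) z q0 k1) hb hbz2 (by simp) (by simp) hcard
      (fun β => y5_abs_le _ _ _ _ hPp hz2 hq1 hDpos hD1 β)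
      (fun β h => y5_supp _ _ _ _ hPp hz2 hq1 hKq β h) hMpow1
    have hQa' : |avg M (fun m => PHI z q0 k1 b (n m) ^ 2) - DG z q0 k1 b| ≤
        r * DG z q0 k1 b + (E + r) := by
      have h0 := hQa
      simp only [Finset.card_empty, pow_zero, one_mul] at h0
      refine le_trans h0 ?_
      have : errQF C K k1 b0 Λ + r ≤ E + r := by linarith
      unfold DG
      linarith
    have hP2 := abs_le.1 hQa'
    -- each position
    have hQb : ∀ i, avg M (fun m => PhiR (PP z (z ^ k1)) (wf z) z b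
        (ys5 (PP z (z ^ k1)) z q0 k1 i) {b i} (n m) ^ 2) ≤
        (1 + r) * dg (PP z (z ^ k1)) (wf z) z b {b i} (ys5 (PP z (z ^ k1)) z q0 k1 i) +
          V1 (wf z) z * (E + r) := by
      intro i
      have h0 := hQ2 ι b c M {b i} (ys5 (PP z (z ^ k1)) z q0 k1 i) hb hbz2
        (by simpa using hbz2 i) (by simp) hcard
        (fun β => ys5_abs_le _ _ _ _ hPp hz2 hq1 hDpos hD1 i β)
        (fun β h => ys5_supp _ _ _ _ hPp hz2 hq1 hKq i β h) hMpow2
      simp only [Finset.card_singleton, pow_one] at h0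
      have h1 := (abs_le.1 h0).2
      have : V1 (wf z) z * (errQF C (K + 1) k1 b0 Λ + r) ≤
          V1 (wf z) z * (E + r) := by
        apply mul_le_mul_of_nonneg_left _ hV1n
        linarith
      linarith
    have hQc : ∀ i, avg M (fun m => PhiR (PP z (z ^ k1)) (wf z) z b
        (y5 (PP z (z ^ k1)) z q0 k1) {b i} (n m) ^ 2) ≤
        (1 + r) * dg (PP z (z ^ k1)) (wf z) z b {b i} (y5 (PP z (z ^ k1)) z q0 k1) +
          V1 (wf z) z * (E + r) := by
      intro i
      have h0 := hQ1 ι b c M {b i} (y5 (PP z (z ^ k1)) z q0 k1) hb hbz2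
        (by simpa using hbz2 i) (by simp) hcard
        (fun β => y5_abs_le _ _ _ _ hPp hz2 hq1 hDpos hD1 β)
        (fun β h => y5_supp _ _ _ _ hPp hz2 hq1 hKq β h) hMpow1
      simp only [Finset.card_singleton, pow_one] at h0
      have h1 := (abs_le.1 h0).2
      have : V1 (wf z) z * (errQF C K k1 b0 Λ + r) ≤
          V1 (wf z) z * (E + r) := by
        apply mul_le_mul_of_nonneg_left _ hV1n
        linarith
      linarith
    -- sums
    have hcV : (Fintype.card ι : ℝ) * (V1 (wf z) z * (E + r)) ≤ Λ * (E + r) := by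
      rw [← mul_assoc]
      apply mul_le_mul_of_nonneg_right hcard
      linarith
    have hNb : avg M (fun m => PHI z q0 k1 b (n m) ^ 2 * Nb (wf z) z (z ^ k1) b (n m)) ≤
        (1 + r) * (∑ i, dg (PP z (z ^ k1)) (wf z) z b {b i} (ys5 (PP z (z ^ k1)) z q0 k1 i)) +
          Λ * (E + r) := by
      refine le_trans (M12_avg_mono (fun m => PHI_sq_mul_Nb z q0 k1 hz2 b (n m))) ?_
      rw [M12_avg_sum]
      refine le_trans (Finset.sum_le_sum (fun i _ => hQb i)) ?_
      rw [Finset.sum_add_distrib, ← Finset.mul_sum, Finset.sum_const, Finset.card_univ, nsmul_eq_mul]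
      linarith
    have hNr : avg M (fun m => PHI z q0 k1 b (n m) ^ 2 * Nr (wf z) z b (n m)) ≤
        (1 + r) * (∑ i, dg (PP z (z ^ k1)) (wf z) z b {b i} (y5 (PP z (z ^ k1)) z q0 k1)) +
          Λ * (E + r) := by
      refine le_trans (M12_avg_mono (fun m => le_of_eq (PHI_sq_mul_Nr z q0 k1 b (n m)))) ?_
      rw [M12_avg_sum]
      refine le_trans (Finset.sum_le_sum (fun i _ => hQc i)) ?_
      rw [Finset.sum_add_distrib, ← Finset.mul_sum, Finset.sum_const, Finset.card_univ, nsmul_eq_mul]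
      linarith
    -- diagonals
    have hk1R : (0 : ℝ) < k1 := by linarith
    have hcardN : (Fintype.card ι : ℝ) * V1 (wf z) z ≤ Λ := hcard
    have hcard0 : 0 ≤ (Fintype.card ι : ℝ) * V1 (wf z) z := by positivity
    set ε : ℝ := (2 * k1 : ℝ) * (CS * k1) / z with hε
    have hε0 : 0 ≤ ε := by positivity
    have hcc : ∀ β : PP z (z ^ k1) → Option ι, rr (sp (PP z (z ^ k1)) β) ≤ (z : ℝ) ^ k1 →
        cc5 (PP z (z ^ k1)) z q0 k1 β ≤ ε := by
      intro β hβ
      refine le_trans (cc5_small _ _ _ _ hPp hPz hz2 hq1 hDpos hD1 β hβ) ?_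
      rw [hε]
      apply div_le_div_of_nonneg_right _ (Nat.cast_nonneg _)
      have h1 : ((sp (PP z (z ^ k1)) β).card : ℝ) ≤ 2 * k1 := by
        have h2 := card_sp_le hz2 β hβ
        have h3 : ((sp (PP z (z ^ k1)) β).card : ℝ) ≤ k1 := by exact_mod_cast h2
        linarith
      have h4 : 0 ≤ ∏ p ∈ PP z (z ^ k1), (1 + 1 / ((p : ℝ) - 1)) := by
        apply Finset.prod_nonneg
        intro p hp
        have : (1 : ℝ) < p := by exact_mod_cast (hPp p hp).one_lt
        have : 0 < (p : ℝ) - 1 := by linarith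
        positivity
      exact mul_le_mul h1 hSz h4 (by positivity)
    have hA6 := sum_dg_ys5 z q0 k1 K hz2 hq1 hk1' hKq hDpos hD1 (δ := 1) (G0 := cG * k1) (ε := ε)
      zero_le_one (by positivity) hε0 hVz hGz hcc b hb hbz2
    have hA7 := Tbig_le z q0 k1 K hz2 hq1 hk1' hKq hDpos hD1 (δ := 1) zero_le_one hVz b hb hbz2
    have hA8 := sum_dg_y5 z q0 k1 K hz2 hq1 hKq (δ := 1) zero_le_one hVz b hb hbz2
    have hTb : Tbig z q0 k1 b ≤ (2 * (64 * l) / (cD * I)) * DG z q0 k1 b := by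
      refine le_trans hA7 ?_
      apply mul_le_mul_of_nonneg_right _ hDG0
      have h1 : cD * I / Real.log z * (k1 * Real.log z) ≤
          Dn (PP z (z ^ k1)) z q0 k1 * (k1 * Real.log z) := by
        apply mul_le_mul_of_nonneg_right hDz; positivity
      have h2 : cD * I / Real.log z * (k1 * Real.log z) = cD * I * k1 := by field_simp
      rw [h2] at h1
      calc (1 + 1) * ((Fintype.card ι : ℝ) * V1 (wf z) z) /
            (Dn (PP z (z ^ k1)) z q0 k1 * (k1 * Real.log z))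
          ≤ (1 + 1) * Λ / (cD * I * k1) := by
            apply div_le_div₀ (by positivity) (by linarith) (by positivity) h1
        _ = 2 * (64 * l) / (cD * I) := by
            rw [hΛ]; field_simp; ring
    have hcoef : (1 + 1) * ((Fintype.card ι : ℝ) * V1 (wf z) z) / (cG * k1) ≤ 2 * (64 * l) / cG := by
      calc (1 + 1) * ((Fintype.card ι : ℝ) * V1 (wf z) z) / (cG * k1)
          ≤ (1 + 1) * Λ / (cG * k1) := by
            apply div_le_div_of_nonneg_right _ (by positivity); linarith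
        _ = 2 * (64 * l) / cG := by rw [hΛ]; field_simp; ring
    have hTb0 : 0 ≤ Tbig z q0 k1 b := by
      unfold Tbig
      apply Finset.sum_nonneg
      intro β _
      split_ifs
      · apply div_nonneg
        · exact mul_nonneg (sq_nonneg _) (VV_nonneg _ _ _)
        · exact (ph_pos (PP z (z ^ k1)) hPp (sp_subset _ β)).le
      · exact le_rfl
    have hε1 : ε ≤ 1 := (hepsz.trans_le (min_le_left _ _)).le
    have hε2 : ε ^ 2 * (2 * (64 * l) / cG) ≤ e / 32 := by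
      have h1 : ε < e / (32 * (2 * (64 * l) / cG)) := hepsz.trans_le (min_le_right _ _)
      rw [lt_div_iff₀ (by positivity)] at h1
      have h2 : ε ^ 2 ≤ ε := by nlinarith
      have h3 : ε ^ 2 * (2 * (64 * l) / cG) ≤ ε * (2 * (64 * l) / cG) :=
        mul_le_mul_of_nonneg_right h2 (by positivity)
      linarith
    have hSg : (∑ i, dg (PP z (z ^ k1)) (wf z) z b {b i} (ys5 (PP z (z ^ k1)) z q0 k1 i)) ≤
        (e / 16) * DG z q0 k1 b := by
      refine le_trans hA6 ?_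
      have h1 : Tbig z q0 k1 b + ε ^ 2 * DG z q0 k1 b ≤
          (2 * (64 * l) / (cD * I) + ε ^ 2) * DG z q0 k1 b := by linarith
      calc _ ≤ (2 * (64 * l) / cG) * ((2 * (64 * l) / (cD * I) + ε ^ 2) * DG z q0 k1 b) := by
            apply mul_le_mul hcoef h1 (by positivity) (by positivity)
        _ = ((2 * (64 * l) / cG) * (2 * (64 * l) / (cD * I)) + ε ^ 2 * (2 * (64 * l) / cG)) *
              DG z q0 k1 b := by ring
        _ ≤ (e / 32 + e / 32) * DG z q0 k1 b := by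
            apply mul_le_mul_of_nonneg_right _ hDG0
            linarith
        _ = (e / 16) * DG z q0 k1 b := by ring
    have hSn : (∑ i, dg (PP z (z ^ k1)) (wf z) z b {b i} (y5 (PP z (z ^ k1)) z q0 k1)) ≤
        ((K : ℝ) + 2 * Λ) * DG z q0 k1 b := by
      refine le_trans hA8 ?_
      apply mul_le_mul_of_nonneg_right _ hDG0
      linarith
    have hdg0 : ∀ (E' : Finset ℕ) (y : (PP z (z ^ k1) → Option ι) → ℝ),
        0 ≤ dg (PP z (z ^ k1)) (wf z) z b E' y := by
      intro E' y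
      unfold dg
      apply Finset.sum_nonneg
      intro β _
      apply div_nonneg
      · exact mul_nonneg (sq_nonneg _) (VV_nonneg _ _ _)
      · exact (ph_pos (PP z (z ^ k1)) hPp (sp_subset _ β)).le
    have hlow := M12_final hDG1 hr0 hr1 hE0 hΛ1 he he1 hΛE hrs hSg hSn (by positivity) hTpos hTn
      (P2 := avg M (fun m => PHI z q0 k1 b (n m) ^ 2)) (by linarith [hP2.1]) hNb hNr
      (Finset.sum_nonneg fun i _ => hdg0 _ _) (Finset.sum_nonneg fun i _ => hdg0 _ _)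
    refine ⟨?_, ?_, ?_⟩
    · refine le_trans hlow ?_
      have h1 := M12_avg_mono (M := M) (fun m => X5_ge z q0 k1 T hT1 b (n m))
      rw [M12_avg_sub, M12_avg_sub, M12_avg_div] at h1
      exact h1
    · have h1 := M12_avg_mono (M := M) (fun m => X5_le z q0 k1 T b (n m))
      refine le_trans h1 ?_
      have h2 := hP2.2
      have hrr : r ≤ e / 64 := by
        have h68 : 0 ≤ Λ * r := mul_nonneg (by linarith) hr0
        have h69 : (2 + Λ) * r = 2 * r + Λ * r := by ring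
        linarith
      have h3 : r * DG z q0 k1 b ≤ e / 64 * DG z q0 k1 b := mul_le_mul_of_nonneg_right hrr hDG0
      have h4 : e / 32 * 1 ≤ e / 32 * DG z q0 k1 b := mul_le_mul_of_nonneg_left hDG1 (by linarith)
      have h5 : 0 ≤ e * DG z q0 k1 b := mul_nonneg he.le hDG0
      linarith
    · intro m hm
      unfold X5
      split_ifs with h
      · have hnm := hn m hm
        have hnb : ∀ i, 0 < n m + b i ∧ n m + b i ≤ z ^ (16 * k1 + 1) := by
          intro i
          refine ⟨by have := (hbz i).1; omega, ?_⟩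
          have h1 : (b i : ℝ) ≤ z := by
            have := (hbz i).2
            simp only [one_mul, pow_one] at hlog
            linarith
          have h2 : b i ≤ z := by exact_mod_cast h1
          have h3 : z ≤ z ^ (16 * k1) := Nat.le_self_pow (by omega) z
          calc n m + b i ≤ z ^ (16 * k1) + z ^ (16 * k1) := by
                have : n m ≤ z ^ (16 * k1) := hnm
                omega
            _ = z ^ (16 * k1) * 2 := by ring
            _ ≤ z ^ (16 * k1) * z := Nat.mul_le_mul_left _ hz2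
            _ = z ^ (16 * k1 + 1) := by rw [pow_succ]
        have h1 := PHI_abs_le z q0 k1 K (16 * k1 + 1) hz2 hq1 hKq hDpos hD1 b (n m) hnb
        rw [← sq_abs, hBd]
        apply pow_le_pow_left₀ (abs_nonneg _)
        refine le_trans h1 ?_
        apply pow_le_pow_left₀
        · apply mul_nonneg (by positivity)
          apply mul_nonneg (by positivity)
          apply Finset.prod_nonneg
          intro p hp
          have : (1 : ℝ) < p := by exact_mod_cast (hPp p hp).one_lt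
          have : 0 < (p : ℝ) - 1 := by linarith
          positivity
        · have hNT : (Nr (wf z) z b (n m) : ℝ) ≤ T := by exact_mod_cast h.2
          apply mul_le_mul (by linarith) _ _ (by positivity)
          · apply mul_le_mul_of_nonneg_left hSz (by positivity)
          · apply mul_nonneg (by positivity)
            apply Finset.prod_nonneg
            intro p hp
            have : (1 : ℝ) < p := by exact_mod_cast (hPp p hp).one_lt
            have : 0 < (p : ℝ) - 1 := by linarith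
            positivity
      · linarith

end Pool.Agent.LibLG5
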