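import Pool.Agent.LibLG5.M2
import Pool.Agent.LibLG5.M0
import Pool.Agent.LibLG5.M10

/-!
Row P1: two blocks. Configurations `γ : P → Option (ι ⊕ ι')` correspond to the pairs `(β, β')` with disjoint supports:
`γ ↦ (lft γ, rgt γ)`. `ee (Sum.elim b b') γ = ee b (lft γ) * ee b' (rgt γ)`, `sp γ = sp (lft γ) ∪ sp (rgt γ)` (disjoint),
`su γ = su (lft γ) ∪ su (rgt γ)`. `Psi2` collects the pairs sharing a prime.
-/

open Finset

namespace Pool.Agent.LibLG5

open Pool.Agent.LibRG87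

variable {ι ι' : Type} [Fintype ι] [DecidableEq ι] [Fintype ι'] [DecidableEq ι'] (P : Finset ℕ)

/-- left part -/
def lft (γ : P → Option (ι ⊕ ι')) : P → Option ι := fun p => (γ p).bind (Sum.elim some (fun _ => none))

/-- right part -/
def rgt (γ : P → Option (ι ⊕ ι')) : P → Option ι' := fun p => (γ p).bind (Sum.elim (fun _ => none) some)

/-- the coefficients of the product, pairs with disjoint supports -/
noncomputable def y2 (z q0 k1 : ℕ) (γ : P → Option (ι ⊕ ι')) : ℝ :=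
  y5 P z q0 k1 (lft P γ) * y5 P z q0 k1 (rgt P γ)

open scoped Classical in
/-- the pairs sharing a prime -/
noncomputable def Psi2 (w z q0 k1 : ℕ) (b : ι → ℕ) (b' : ι' → ℕ) (n : ℕ) : ℝ :=
  ∑ β : P → Option ι, ∑ β' : P → Option ι', if Disjoint (sp P β) (sp P β') then 0 else
    (y5 P z q0 k1 β * rho w z (su P b β) n * ee P b β n) *
      (y5 P z q0 k1 β' * rho w z (su P b' β') n * ee P b' β' n)

omit [Fintype ι] [DecidableEq ι] [Fintype ι'] [DecidableEq ι'] in
theorem P1_lft_some {γ : P → Option (ι ⊕ ι')} {p : P} {i : ι} :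
    lft P γ p = some i ↔ γ p = some (Sum.inl i) := by
  unfold lft
  rcases h : γ p with _ | (j | j) <;> simp

omit [Fintype ι] [DecidableEq ι] [Fintype ι'] [DecidableEq ι'] in
theorem P1_rgt_some {γ : P → Option (ι ⊕ ι')} {p : P} {i : ι'} :
    rgt P γ p = some i ↔ γ p = some (Sum.inr i) := by
  unfold rgt
  rcases h : γ p with _ | (j | j) <;> simp

/-- the configuration of a pair -/
def P1mk (β : P → Option ι) (β' : P → Option ι') : P → Option (ι ⊕ ι') := fun p =>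
  match β p with
  | some i => some (Sum.inl i)
  | none => (β' p).map Sum.inr

omit [Fintype ι] [DecidableEq ι] [Fintype ι'] [DecidableEq ι'] in
theorem P1mk_some {β : P → Option ι} {β' : P → Option ι'} {p : P} {j : ι} (h : β p = some j) :
    P1mk P β β' p = some (Sum.inl j) := by
  unfold P1mk
  rw [h]

omit [Fintype ι] [DecidableEq ι] [Fintype ι'] [DecidableEq ι'] in
theorem P1mk_none {β : P → Option ι} {β' : P → Option ι'} {p : P} (h : β p = none) :
    P1mk P β β' p = (β' p).map Sum.inr := by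
  unfold P1mk
  rw [h]

omit [Fintype ι] [DecidableEq ι] [Fintype ι'] [DecidableEq ι'] in
theorem P1mk_lft_rgt (γ : P → Option (ι ⊕ ι')) : P1mk P (lft P γ) (rgt P γ) = γ := by
  funext p
  unfold P1mk lft rgt
  rcases h : γ p with _ | (j | j) <;> simp

omit [Fintype ι] [DecidableEq ι] [Fintype ι'] [DecidableEq ι'] in
theorem P1_lft_mk (β : P → Option ι) (β' : P → Option ι') : lft P (P1mk P β β') = β := by
  funext p
  unfold lft
  rcases h : β p with _ | j
  · rw [P1mk_none P h]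
    rcases h' : β' p with _ | j' <;> simp
  · rw [P1mk_some P h]
    simp


theorem P1_rgt_mk (β : P → Option ι) (β' : P → Option ι') (hd : Disjoint (sp P β) (sp P β')) :
    rgt P (P1mk P β β') = β' := by
  funext p
  unfold rgt
  rcases h : β p with _ | j
  · rw [P1mk_none P h]
    rcases h' : β' p with _ | j' <;> simp
  · rw [P1mk_some P h]
    have h1 : (p : ℕ) ∈ sp P β := (mem_sp P).2 ⟨p.2, by rw [h]; simp⟩
    have h2 : (p : ℕ) ∉ sp P β' := Finset.disjoint_left.1 hd h1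
    rcases h' : β' p with _ | j'
    · simp
    · exact absurd ((mem_sp P).2 ⟨p.2, by rw [h']; simp⟩) h2


theorem P1_disj (γ : P → Option (ι ⊕ ι')) : Disjoint (sp P (lft P γ)) (sp P (rgt P γ)) := by
  rw [Finset.disjoint_left]
  intro p h1 h2
  obtain ⟨hp, h1⟩ := (mem_sp P).1 h1
  obtain ⟨_, h2⟩ := (mem_sp P).1 h2
  unfold lft at h1
  unfold rgt at h2
  rcases h : γ ⟨p, hp⟩ with _ | (j | j) <;> rw [h] at h1 h2 <;> simp at h1 h2


theorem P1_sp (γ : P → Option (ι ⊕ ι')) : sp P γ = sp P (lft P γ) ∪ sp P (rgt P γ) := by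
  ext p
  rw [Finset.mem_union, mem_sp, mem_sp, mem_sp]
  constructor
  · rintro ⟨hp, h⟩
    rcases h' : γ ⟨p, hp⟩ with _ | (j | j)
    · exact absurd h' h
    · exact Or.inl ⟨hp, by unfold lft; rw [h']; simp⟩
    · exact Or.inr ⟨hp, by unfold rgt; rw [h']; simp⟩
  · rintro (⟨hp, h⟩ | ⟨hp, h⟩)
    · exact ⟨hp, fun h' => h (by unfold lft; rw [h']; rfl)⟩
    · exact ⟨hp, fun h' => h (by unfold rgt; rw [h']; rfl)⟩

theorem P1_sui (γ : P → Option (ι ⊕ ι')) :
    sui P γ = (sui P (lft P γ)).image Sum.inl ∪ (sui P (rgt P γ)).image Sum.inr := by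
  ext x
  unfold sui
  simp only [Finset.mem_filter, Finset.mem_univ, true_and, Finset.mem_union, Finset.mem_image,
    P1_lft_some, P1_rgt_some]
  constructor
  · rintro ⟨p, hp⟩
    rcases x with i | i
    · exact Or.inl ⟨i, ⟨p, hp⟩, rfl⟩
    · exact Or.inr ⟨i, ⟨p, hp⟩, rfl⟩
  · rintro (⟨i, ⟨p, hp⟩, rfl⟩ | ⟨i, ⟨p, hp⟩, rfl⟩)
    · exact ⟨p, hp⟩
    · exact ⟨p, hp⟩

theorem P1_su (b : ι → ℕ) (b' : ι' → ℕ) (γ : P → Option (ι ⊕ ι')) :
    su P (Sum.elim b b') γ = su P b (lft P γ) ∪ su P b' (rgt P γ) := by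
  unfold su
  rw [P1_sui, Finset.image_union, Finset.image_image, Finset.image_image]
  rfl

omit [Fintype ι] [DecidableEq ι] [Fintype ι'] [DecidableEq ι'] in
theorem P1_ee (b : ι → ℕ) (b' : ι' → ℕ) (γ : P → Option (ι ⊕ ι')) (n : ℕ) :
    ee P (Sum.elim b b') γ n = ee P b (lft P γ) n * ee P b' (rgt P γ) n := by
  unfold ee
  rw [← Finset.prod_mul_distrib]
  refine Finset.prod_congr rfl fun p _ => ?_
  unfold lft rgt
  rcases h : γ p with _ | (j | j) <;> simp [loc]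

theorem PhiR_mul (w z q0 k1 : ℕ) (b : ι → ℕ) (b' : ι' → ℕ) (n : ℕ) :
    PhiR P w z b (y5 P z q0 k1) ∅ n * PhiR P w z b' (y5 P z q0 k1) ∅ n =
      PhiR P w z (Sum.elim b b') (y2 P z q0 k1) ∅ n + Psi2 P w z q0 k1 b b' n := by
  classical
  set g : (P → Option ι) → (P → Option ι') → ℝ := fun β β' =>
    (y5 P z q0 k1 β * rho w z (su P b β) n * ee P b β n) *
      (y5 P z q0 k1 β' * rho w z (su P b' β') n * ee P b' β' n) with hg
  have h1 : PhiR P w z b (y5 P z q0 k1) ∅ n * PhiR P w z b' (y5 P z q0 k1) ∅ n =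
      ∑ β : P → Option ι, ∑ β' : P → Option ι', g β β' := by
    unfold PhiR
    rw [Finset.sum_mul_sum]
    refine Finset.sum_congr rfl fun β _ => Finset.sum_congr rfl fun β' _ => ?_
    rw [Finset.empty_union, Finset.empty_union]
  have h2 : Psi2 P w z q0 k1 b b' n =
      ∑ x : (P → Option ι) × (P → Option ι'), if Disjoint (sp P x.1) (sp P x.2) then 0
        else g x.1 x.2 := by
    unfold Psi2
    rw [Fintype.sum_prod_type]
  have h3 : PhiR P w z (Sum.elim b b') (y2 P z q0 k1) ∅ n =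
      ∑ x : (P → Option ι) × (P → Option ι'), if Disjoint (sp P x.1) (sp P x.2) then g x.1 x.2
        else 0 := by
    rw [← Finset.sum_filter]
    unfold PhiR
    refine Finset.sum_nbij' (fun γ => (lft P γ, rgt P γ)) (fun x => P1mk P x.1 x.2) ?_ ?_ ?_ ?_ ?_
    · intro γ _
      rw [Finset.mem_filter]
      exact ⟨Finset.mem_univ _, P1_disj P γ⟩
    · intro x _
      exact Finset.mem_univ _
    · intro γ _
      exact P1mk_lft_rgt P γ
    · rintro ⟨β, β'⟩ hx
      rw [Finset.mem_filter] at hx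
      exact Prod.ext (P1_lft_mk P β β') (P1_rgt_mk P β β' hx.2)
    · intro γ _
      simp only [hg]
      rw [Finset.empty_union, P1_su, P1_ee, ← rho_mul]
      unfold y2
      ring
  rw [h1, h2, h3, ← Finset.sum_add_distrib, ← Fintype.sum_prod_type']
  refine Finset.sum_congr rfl fun x _ => ?_
  split_ifs <;> simp

theorem y2_abs_le (z q0 k1 : ℕ) (hP : ∀ p ∈ P, Nat.Prime p) (hz : 2 ≤ z) (hq : 1 ≤ q0)
    (hD : 0 < Dn P z q0 k1) (hD1 : 1 ≤ Dn P z q0 k1 * (q0 * Real.log z))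
    (γ : P → Option (ι ⊕ ι')) : |y2 P z q0 k1 γ| ≤ 1 := by
  unfold y2
  rw [abs_mul]
  exact mul_le_one₀ (y5_abs_le P z q0 k1 hP hz hq hD hD1 _) (abs_nonneg _)
    (y5_abs_le P z q0 k1 hP hz hq hD hD1 _)

theorem y2_supp (z q0 k1 : ℕ) (hP : ∀ p ∈ P, Nat.Prime p) (hz : 2 ≤ z) (hq : 1 ≤ q0) {K : ℕ}
    (hK : 2 * k1 ≤ K * q0) (γ : P → Option (ι ⊕ ι')) (h : y2 P z q0 k1 γ ≠ 0) :
    rr (sp P γ) ≤ (z : ℝ) ^ (4 * k1) ∧ (sui P γ).card ≤ 2 * K := by
  unfold y2 at h
  obtain ⟨h1, h2⟩ := mul_ne_zero_iff.1 h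
  obtain ⟨a1, a2⟩ := y5_supp P z q0 k1 hP hz hq hK _ h1
  obtain ⟨b1, b2⟩ := y5_supp P z q0 k1 hP hz hq hK _ h2
  refine ⟨?_, ?_⟩
  · have h3 : rr (sp P γ) = rr (sp P (lft P γ)) * rr (sp P (rgt P γ)) := by
      rw [P1_sp]
      unfold rr
      exact Finset.prod_union (P1_disj P γ)
    have h4 : (z : ℝ) ^ (4 * k1) = (z : ℝ) ^ (2 * k1) * (z : ℝ) ^ (2 * k1) := by
      rw [← pow_add]
      congr 1
      ring
    rw [h3, h4]
    exact mul_le_mul a1 b1 (rr_pos P hP (sp_subset P _)).le (by positivity)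
  · rw [P1_sui]
    refine (Finset.card_union_le _ _).trans ?_
    have h5 := Finset.card_image_le (s := sui P (lft P γ)) (f := (Sum.inl : ι → ι ⊕ ι'))
    have h6 := Finset.card_image_le (s := sui P (rgt P γ)) (f := (Sum.inr : ι' → ι ⊕ ι'))
    omega

end Pool.Agent.LibLG5
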