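import Pool.Agent.LibLG5.P1

/-!
Row P2: the diagonal of the product: `dg (Sum.elim b b') ∅ y2 = ∑_γ y5 (lft γ)² y5 (rgt γ)² VV (su (lft γ) ∪ su (rgt γ))/(ph ph)`; for
`y2 γ ≠ 0` both supports have at most `K` positions and are disjoint (`Sum.elim b b'` injective), so `hV` applies; then enlarge the sum
over `γ` to all pairs `(β, β')` (injection `γ ↦ (lft γ, rgt γ)`, nonnegative terms; `Finset.sum_mul_sum`).
-/

open Finset

namespace Pool.Agent.LibLG5

open Pool.Agent.LibRG87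

variable {ι ι' : Type} [Fintype ι] [DecidableEq ι] [Fintype ι'] [DecidableEq ι']

theorem P2_lft_some (P : Finset ℕ) (γ : P → Option (ι ⊕ ι')) (p : P) (i : ι) :
    lft P γ p = some i ↔ γ p = some (Sum.inl i) := by
  unfold lft
  rcases h : γ p with _ | (j | j) <;> simp

theorem P2_rgt_some (P : Finset ℕ) (γ : P → Option (ι ⊕ ι')) (p : P) (i : ι') :
    rgt P γ p = some i ↔ γ p = some (Sum.inr i) := by
  unfold rgt
  rcases h : γ p with _ | (j | j) <;> simp

theorem P2_inj (P : Finset ℕ) : Function.Injective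
    (fun γ : P → Option (ι ⊕ ι') => (lft P γ, rgt P γ)) := by
  intro γ γ' h
  funext p
  have h1 : lft P γ p = lft P γ' p := congrFun (congrArg Prod.fst h) p
  have h2 : rgt P γ p = rgt P γ' p := congrFun (congrArg Prod.snd h) p
  rcases hg : γ p with _ | (j | j)
  · rcases hg' : γ' p with _ | (j | j)
    · rfl
    · exfalso
      have := (P2_lft_some P γ' p j).2 hg'
      rw [← h1, P2_lft_some, hg] at this
      exact absurd this (by simp)
    · exfalso
      have := (P2_rgt_some P γ' p j).2 hg'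
      rw [← h2, P2_rgt_some, hg] at this
      exact absurd this (by simp)
  · have := (P2_lft_some P γ p j).2 hg
    rw [h1, P2_lft_some] at this
    exact this.symm
  · have := (P2_rgt_some P γ p j).2 hg
    rw [h2, P2_rgt_some] at this
    exact this.symm

theorem P2_su (P : Finset ℕ) (b : ι → ℕ) (b' : ι' → ℕ) (γ : P → Option (ι ⊕ ι')) :
    su P (Sum.elim b b') γ = su P b (lft P γ) ∪ su P b' (rgt P γ) := by
  ext a
  simp only [su, sui, Finset.mem_image, Finset.mem_union, Finset.mem_filter, Finset.mem_univ,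
    true_and]
  constructor
  · rintro ⟨x, ⟨p, hp⟩, hx⟩
    rcases x with i | i
    · exact Or.inl ⟨i, ⟨p, (P2_lft_some P γ p i).2 hp⟩, hx⟩
    · exact Or.inr ⟨i, ⟨p, (P2_rgt_some P γ p i).2 hp⟩, hx⟩
  · rintro (⟨i, ⟨p, hp⟩, hx⟩ | ⟨i, ⟨p, hp⟩, hx⟩)
    · exact ⟨Sum.inl i, ⟨p, (P2_lft_some P γ p i).1 hp⟩, hx⟩
    · exact ⟨Sum.inr i, ⟨p, (P2_rgt_some P γ p i).1 hp⟩, hx⟩

theorem P2_sp (P : Finset ℕ) (γ : P → Option (ι ⊕ ι')) :
    sp P γ = sp P (lft P γ) ∪ sp P (rgt P γ) := by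
  ext a
  rw [Finset.mem_union, mem_sp, mem_sp, mem_sp]
  constructor
  · rintro ⟨h, h1⟩
    obtain ⟨x, hx⟩ := Option.ne_none_iff_exists'.1 h1
    rcases x with i | i
    · refine Or.inl ⟨h, ?_⟩
      rw [(P2_lft_some P γ _ i).2 hx]; simp
    · refine Or.inr ⟨h, ?_⟩
      rw [(P2_rgt_some P γ _ i).2 hx]; simp
  · rintro (⟨h, h1⟩ | ⟨h, h1⟩)
    · obtain ⟨x, hx⟩ := Option.ne_none_iff_exists'.1 h1
      refine ⟨h, ?_⟩
      rw [(P2_lft_some P γ _ x).1 hx]; simp
    · obtain ⟨x, hx⟩ := Option.ne_none_iff_exists'.1 h1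
      refine ⟨h, ?_⟩
      rw [(P2_rgt_some P γ _ x).1 hx]; simp

theorem P2_sp_disj (P : Finset ℕ) (γ : P → Option (ι ⊕ ι')) :
    Disjoint (sp P (lft P γ)) (sp P (rgt P γ)) := by
  rw [Finset.disjoint_left]
  intro a ha ha'
  obtain ⟨h, h1⟩ := (mem_sp P).1 ha
  obtain ⟨_, h2⟩ := (mem_sp P).1 ha'
  obtain ⟨x, hx⟩ := Option.ne_none_iff_exists'.1 h1
  obtain ⟨x', hx'⟩ := Option.ne_none_iff_exists'.1 h2
  have e1 := (P2_lft_some P γ _ x).1 hx
  have e2 := (P2_rgt_some P γ _ x').1 hx'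
  rw [e1] at e2
  exact absurd e2 (by simp)

theorem P2_su_disj (P : Finset ℕ) (b : ι → ℕ) (b' : ι' → ℕ)
    (hb : Function.Injective (Sum.elim b b')) (β : P → Option ι) (β' : P → Option ι') :
    Disjoint (su P b β) (su P b' β') := by
  rw [Finset.disjoint_left]
  intro a ha ha'
  simp only [su, Finset.mem_image] at ha ha'
  obtain ⟨i, _, hi⟩ := ha
  obtain ⟨j, _, hj⟩ := ha'
  have : (Sum.inl i : ι ⊕ ι') = Sum.inr j := hb (by simp [hi, hj])
  exact absurd this (by simp)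

theorem dg_pair (z q0 k1 K : ℕ) (hz : 2 ≤ z) (hq : 1 ≤ q0) (hK : 2 * k1 ≤ K * q0) {δ : ℝ} (hδ : 0 ≤ δ)
    (hV : ∀ A A' : Finset ℕ, A.card ≤ K → A'.card ≤ K → Disjoint A A' →
      (∀ a ∈ A ∪ A', (a : ℝ) ≤ Real.log z ^ 2) →
        VV (wf z) z (A ∪ A') ≤ (1 + δ) * VV (wf z) z A * VV (wf z) z A')
    (b : ι → ℕ) (b' : ι' → ℕ) (hb : Function.Injective (Sum.elim b b'))
    (hbz : ∀ i, (b i : ℝ) ≤ Real.log z ^ 2) (hbz' : ∀ i, (b' i : ℝ) ≤ Real.log z ^ 2) :
    dg (PP z (z ^ k1)) (wf z) z (Sum.elim b b') ∅ (y2 (PP z (z ^ k1)) z q0 k1) ≤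
      (1 + δ) * (DG z q0 k1 b * DG z q0 k1 b') := by
  have hP : ∀ p ∈ PP z (z ^ k1), Nat.Prime p := fun p hp => (Finset.mem_filter.1 hp).2
  set P := PP z (z ^ k1) with hPdef
  have hph : ∀ {κ : Type} [Fintype κ] [DecidableEq κ] (β : P → Option κ), 0 < ph (sp P β) :=
    fun β => ph_pos P hP (sp_subset P β)
  let g : (P → Option ι) → ℝ := fun β =>
    y5 P z q0 k1 β ^ 2 * VV (wf z) z (∅ ∪ su P b β) / ph (sp P β)
  let g' : (P → Option ι') → ℝ := fun β =>
    y5 P z q0 k1 β ^ 2 * VV (wf z) z (∅ ∪ su P b' β) / ph (sp P β)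
  have hg0 : ∀ β, 0 ≤ g β := fun β =>
    div_nonneg (mul_nonneg (sq_nonneg _) (VV_nonneg _ _ _)) (hph β).le
  have hg0' : ∀ β, 0 ≤ g' β := fun β =>
    div_nonneg (mul_nonneg (sq_nonneg _) (VV_nonneg _ _ _)) (hph β).le
  have key : ∀ γ : P → Option (ι ⊕ ι'),
      y2 P z q0 k1 γ ^ 2 * VV (wf z) z (∅ ∪ su P (Sum.elim b b') γ) / ph (sp P γ) ≤
        (1 + δ) * (g (lft P γ) * g' (rgt P γ)) := by
    intro γ
    by_cases h0 : y2 P z q0 k1 γ = 0
    · rw [h0]
      have : 0 ≤ (1 + δ) * (g (lft P γ) * g' (rgt P γ)) :=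
        mul_nonneg (by linarith) (mul_nonneg (hg0 _) (hg0' _))
      simpa using this
    have h1 : y5 P z q0 k1 (lft P γ) ≠ 0 := fun h => h0 (by unfold y2; rw [h, zero_mul])
    have h2 : y5 P z q0 k1 (rgt P γ) ≠ 0 := fun h => h0 (by unfold y2; rw [h, mul_zero])
    have c1 : (su P b (lft P γ)).card ≤ K :=
      Finset.card_image_le.trans (y5_supp P z q0 k1 hP hz hq hK _ h1).2
    have c2 : (su P b' (rgt P γ)).card ≤ K :=
      Finset.card_image_le.trans (y5_supp P z q0 k1 hP hz hq hK _ h2).2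
    have hle : ∀ a ∈ su P b (lft P γ) ∪ su P b' (rgt P γ), (a : ℝ) ≤ Real.log z ^ 2 := by
      intro a ha
      rcases Finset.mem_union.1 ha with ha | ha
      · simp only [su, Finset.mem_image] at ha
        obtain ⟨i, _, rfl⟩ := ha
        exact hbz i
      · simp only [su, Finset.mem_image] at ha
        obtain ⟨i, _, rfl⟩ := ha
        exact hbz' i
    have hv := hV _ _ c1 c2 (P2_su_disj P b b' hb (lft P γ) (rgt P γ)) hle
    have hphu : ph (sp P γ) = ph (sp P (lft P γ)) * ph (sp P (rgt P γ)) := by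
      rw [P2_sp P γ]
      exact Finset.prod_union (P2_sp_disj P γ)
    have e1 : (1 + δ) * (g (lft P γ) * g' (rgt P γ)) =
        (y5 P z q0 k1 (lft P γ) * y5 P z q0 k1 (rgt P γ)) ^ 2 *
          ((1 + δ) * VV (wf z) z (su P b (lft P γ)) * VV (wf z) z (su P b' (rgt P γ))) /
            (ph (sp P (lft P γ)) * ph (sp P (rgt P γ))) := by
      simp only [g, g', Finset.empty_union]
      ring
    rw [e1, hphu, Finset.empty_union, P2_su]
    unfold y2
    exact div_le_div_of_nonneg_right (mul_le_mul_of_nonneg_left hv (sq_nonneg _))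
      (mul_pos (hph _) (hph _)).le
  calc dg P (wf z) z (Sum.elim b b') ∅ (y2 P z q0 k1)
      = ∑ γ : P → Option (ι ⊕ ι'),
          y2 P z q0 k1 γ ^ 2 * VV (wf z) z (∅ ∪ su P (Sum.elim b b') γ) / ph (sp P γ) := rfl
    _ ≤ ∑ γ : P → Option (ι ⊕ ι'), (1 + δ) * (g (lft P γ) * g' (rgt P γ)) :=
        Finset.sum_le_sum fun γ _ => key γ
    _ = (1 + δ) * ∑ γ : P → Option (ι ⊕ ι'), g (lft P γ) * g' (rgt P γ) := by
        rw [Finset.mul_sum]
    _ ≤ (1 + δ) * ∑ x : (P → Option ι) × (P → Option ι'), g x.1 * g' x.2 := by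
        refine mul_le_mul_of_nonneg_left ?_ (by linarith)
        have e2 : ∑ γ : P → Option (ι ⊕ ι'), g (lft P γ) * g' (rgt P γ) =
            ∑ x ∈ (Finset.univ : Finset (P → Option (ι ⊕ ι'))).image
              (fun γ => (lft P γ, rgt P γ)), g x.1 * g' x.2 := by
          rw [Finset.sum_image fun γ _ γ' _ h => P2_inj P h]
        rw [e2]
        exact Finset.sum_le_sum_of_subset_of_nonneg (Finset.subset_univ _)
          fun x _ _ => mul_nonneg (hg0 _) (hg0' _)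
    _ = (1 + δ) * (DG z q0 k1 b * DG z q0 k1 b') := by
        congr 1
        rw [Fintype.sum_prod_type]
        unfold DG dg
        rw [Finset.sum_mul_sum]

end Pool.Agent.LibLG5
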