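import Pool.Agent.LibLG5.P1
import Pool.Agent.LibLG5.M9

/-!
Row P3: the pairs sharing a prime are pointwise tiny. If `p ∈ sp β ∩ sp β'`, `β p = some i`, `β' p = some i'`, then `p` divides at most
one of `n + b i`, `n + b' i'` (distinct positions `< z < p`), so `|psi p (n+b i) psi p (n+b' i')| ≤ 1/(p-1)`, and `≤ 1/(p-1)^2` if it divides
neither. `|Psi2| ≤ ∑_{p,i,i'} |psi p (n+b i)| |psi p (n+b' i')| * (∑_{β0} |ee b β0|) (∑_{β0'} |ee b' β0'|)` where `β0, β0'` run over the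
configurations with at most `K` positions (remove `p`), and `∑_{β0} |ee b β0 n| ≤ ((1+card ι) 2^t S)^K` as in M9 (`S = ∏(1+1/(p-1))`);
`∑_p |psi||psi| ≤ ∑_{p>z} 1/(p-1)^2 + (2 t) / z ≤ (2 t + 2)/z` (at most `t` primes `> z` divide a number `≤ z^t`).
-/

open Finset

namespace Pool.Agent.LibLG5

open Pool.Agent.LibRG87

section

variable {ι : Type} [Fintype ι] [DecidableEq ι]

theorem P3_count (ι : Type) [Fintype ι] [DecidableEq ι] (K : ℕ) :
    ((univ : Finset (Finset ι)).filter fun B => B.card ≤ K).card ≤ (1 + Fintype.card ι) ^ K := by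
  have h1 : ((univ : Finset (Finset ι)).filter fun B => B.card ≤ K) ⊆
      (range (K + 1)).biUnion fun j => powersetCard j (univ : Finset ι) := by
    intro B hB
    rw [mem_filter] at hB
    rw [mem_biUnion]
    exact ⟨B.card, mem_range.2 (Nat.lt_succ_of_le hB.2),
      mem_powersetCard.2 ⟨subset_univ _, rfl⟩⟩
  refine (card_le_card h1).trans (card_biUnion_le.trans ?_)
  rw [add_comm 1, add_pow]
  refine sum_le_sum fun j hj => ?_
  have hj' : j ≤ K := Nat.lt_succ_iff.1 (mem_range.1 hj)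
  rw [card_powersetCard, card_univ, one_pow, mul_one]
  calc (Fintype.card ι).choose j ≤ Fintype.card ι ^ j := Nat.choose_le_pow _ _
    _ = Fintype.card ι ^ j * 1 := (mul_one _).symm
    _ ≤ Fintype.card ι ^ j * K.choose j := Nat.mul_le_mul_left _ (Nat.choose_pos hj')

omit [Fintype ι] in
theorem P3_one_add (B : Finset ι) (a : ι → ℝ) (ha : ∀ i, 0 ≤ a i) :
    1 + ∑ i ∈ B, a i ≤ ∏ i ∈ B, (1 + a i) := by
  induction B using Finset.induction_on with
  | empty => simp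
  | insert i B hi ih =>
    rw [sum_insert hi, prod_insert hi]
    have h1 : 0 ≤ ∑ i ∈ B, a i := sum_nonneg fun j _ => ha j
    have h2 := ha i
    nlinarith [mul_nonneg h2 h1, mul_le_mul_of_nonneg_left ih (by linarith : 0 ≤ 1 + a i)]

theorem P3_card (P : Finset ℕ) {z t N : ℕ} (hz : 2 ≤ z) (hP : ∀ p ∈ P, p.Prime ∧ z < p)
    (hN : 0 < N) (hNt : N ≤ z ^ t) : (P.filter fun p => p ∣ N).card ≤ t := by
  have h1 : ∏ p ∈ P.filter (fun p => p ∣ N), p ∣ N := by
    refine prod_primes_dvd N (fun p hp => (hP p (mem_filter.1 hp).1).1.prime)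
      fun p hp => (mem_filter.1 hp).2
  have h2 : z ^ (P.filter fun p => p ∣ N).card ≤ ∏ p ∈ P.filter (fun p => p ∣ N), p := by
    rw [← prod_const]
    exact prod_le_prod' fun p hp => (hP p (mem_filter.1 hp).1).2.le
  have h3 : z ^ (P.filter fun p => p ∣ N).card ≤ z ^ t :=
    h2.trans ((Nat.le_of_dvd hN h1).trans hNt)
  exact (Nat.pow_le_pow_iff_right (by omega)).1 h3

theorem P3_psi_abs {p n : ℕ} (hp : 2 ≤ p) :
    |psi p n| = if p ∣ n then 1 else 1 / ((p : ℝ) - 1) := by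
  have h1 : (2 : ℝ) ≤ p := by exact_mod_cast hp
  unfold psi
  split_ifs
  · simp
  · rw [abs_of_nonneg]
    exact div_nonneg zero_le_one (by linarith)

theorem P3_prod (P : Finset ℕ) {z t N : ℕ} (hz : 2 ≤ z) (hP : ∀ p ∈ P, p.Prime ∧ z < p)
    (hN : 0 < N) (hNt : N ≤ z ^ t) :
    ∏ p ∈ P, (1 + |psi p N|) ≤ 2 ^ t * ∏ p ∈ P, (1 + 1 / ((p : ℝ) - 1)) := by
  have h1 : ∀ p ∈ P, (2 : ℝ) ≤ p := by
    intro p hp
    exact_mod_cast (hP p hp).1.two_le
  have h2 : ∏ p ∈ P, (1 + |psi p N|) ≤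
      ∏ p ∈ P, ((if p ∣ N then (2 : ℝ) else 1) * (1 + 1 / ((p : ℝ) - 1))) := by
    refine prod_le_prod (fun p _ => by positivity) fun p hp => ?_
    have h3 := h1 p hp
    have h4 : 0 ≤ 1 / ((p : ℝ) - 1) := div_nonneg zero_le_one (by linarith)
    rw [P3_psi_abs (hP p hp).1.two_le]
    split_ifs
    · linarith
    · linarith
  refine h2.trans ?_
  rw [prod_mul_distrib]
  refine mul_le_mul_of_nonneg_right ?_ (prod_nonneg fun p hp => ?_)
  · rw [prod_ite, prod_const, prod_const, one_pow, mul_one]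
    exact pow_le_pow_right₀ one_le_two (P3_card P hz hP hN hNt)
  · have h3 := h1 p hp
    have h4 : 0 ≤ 1 / ((p : ℝ) - 1) := div_nonneg zero_le_one (by linarith)
    linarith

theorem P3_X_ge (P : Finset ℕ) {z t : ℕ} (hP : ∀ p ∈ P, p.Prime ∧ z < p) :
    1 ≤ (2 : ℝ) ^ t * ∏ p ∈ P, (1 + 1 / ((p : ℝ) - 1)) := by
  refine one_le_mul_of_one_le_of_one_le (one_le_pow₀ one_le_two) ?_
  refine one_le_prod_of_one_le' P hP
where
  one_le_prod_of_one_le' (P : Finset ℕ) (hP : ∀ p ∈ P, p.Prime ∧ z < p) :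
      1 ≤ ∏ p ∈ P, (1 + 1 / ((p : ℝ) - 1)) := by
    have h : ∏ p ∈ P, (1 : ℝ) ≤ ∏ p ∈ P, (1 + 1 / ((p : ℝ) - 1)) := by
      refine prod_le_prod (fun p _ => zero_le_one) fun p hp => ?_
      have h1 : (2 : ℝ) ≤ p := by exact_mod_cast (hP p hp).1.two_le
      have h4 : 0 ≤ 1 / ((p : ℝ) - 1) := div_nonneg zero_le_one (by linarith)
      linarith
    rwa [prod_const_one] at h

/-- the local factors -/
noncomputable def P3_F (P : Finset ℕ) (b : ι → ℕ) (n : ℕ) (p : P) (B : Finset ι) (q : P)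
    (o : Option ι) : ℝ :=
  match o with
  | none => if q = p then 0 else 1
  | some i => if i ∈ B then |psi q (n + b i)| else 0

omit [Fintype ι] in
theorem P3_F_nonneg (P : Finset ℕ) (b : ι → ℕ) (n : ℕ) (p : P) (B : Finset ι) (q : P)
    (o : Option ι) : 0 ≤ P3_F P b n p B q o := by
  cases o with
  | none =>
    simp only [P3_F]
    split_ifs <;> norm_num
  | some i =>
    simp only [P3_F]
    split_ifs
    · exact abs_nonneg _
    · exact le_rfl

theorem P3_ee_le (P : Finset ℕ) (b : ι → ℕ) (n : ℕ) (p : P) (β : P → Option ι)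
    (hp : β p ≠ none) : |ee P b β n| ≤ ∏ q : P, P3_F P b n p (sui P β) q (β q) := by
  unfold ee
  rw [abs_prod]
  refine prod_le_prod (fun q _ => abs_nonneg _) fun q _ => ?_
  cases hq : β q with
  | none =>
    have h1 : q ≠ p := by
      rintro rfl
      exact hp hq
    simp [loc, P3_F, h1]
  | some i =>
    have h1 : i ∈ sui P β := by
      unfold sui
      rw [mem_filter]
      exact ⟨mem_univ _, q, hq⟩
    simp [loc, P3_F, h1]

theorem P3_sum_F (P : Finset ℕ) {z t : ℕ} (hz : 2 ≤ z) (hP : ∀ p ∈ P, p.Prime ∧ z < p)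
    (b : ι → ℕ) (n : ℕ) (hn : ∀ i, 0 < n + b i ∧ n + b i ≤ z ^ t) (p : P) (B : Finset ι) :
    ∑ β : P → Option ι, ∏ q : P, P3_F P b n p B q (β q) ≤
      (∑ i, |psi p (n + b i)|) * (2 ^ t * ∏ q ∈ P, (1 + 1 / ((q : ℝ) - 1))) ^ B.card := by
  have h1 : ∑ β : P → Option ι, ∏ q : P, P3_F P b n p B q (β q) =
      ∏ q : P, ∑ o : Option ι, P3_F P b n p B q o := by
    rw [prod_univ_sum, Fintype.piFinset_univ]
  have h2 : ∀ q : P, ∑ o : Option ι, P3_F P b n p B q o ≤
      (if q = p then ∑ i, |psi p (n + b i)| else 1) * ∏ i ∈ B, (1 + |psi q (n + b i)|) := by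
    intro q
    have h3 : ∑ o : Option ι, P3_F P b n p B q o =
        (if q = p then 0 else 1) + ∑ i ∈ B, |psi q (n + b i)| := by
      rw [Fintype.sum_option]
      simp only [P3_F]
      rw [← sum_filter]
      congr 2
      ext i
      simp
    rw [h3]
    have h4 := P3_one_add B (fun i => |psi q (n + b i)|) fun i => abs_nonneg _
    have h5 : 0 ≤ ∑ i ∈ B, |psi q (n + b i)| := sum_nonneg fun i _ => abs_nonneg _
    by_cases hq : q = p
    · rw [if_pos hq, if_pos hq, zero_add]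
      have h6 : ∑ i ∈ B, |psi q (n + b i)| ≤ ∑ i, |psi p (n + b i)| := by
        rw [hq]
        exact sum_le_sum_of_subset_of_nonneg (subset_univ _) fun i _ _ => abs_nonneg _
      have h7 : 1 ≤ ∏ i ∈ B, (1 + |psi q (n + b i)|) := by linarith
      calc ∑ i ∈ B, |psi q (n + b i)| ≤ ∑ i, |psi p (n + b i)| := h6
        _ = (∑ i, |psi p (n + b i)|) * 1 := (mul_one _).symm
        _ ≤ _ := mul_le_mul_of_nonneg_left h7 (sum_nonneg fun i _ => abs_nonneg _)
    · rw [if_neg hq, if_neg hq, one_mul]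
      exact h4
  rw [h1]
  refine (prod_le_prod (fun q _ => sum_nonneg fun o _ => P3_F_nonneg P b n p B q o)
    fun q _ => h2 q).trans ?_
  rw [prod_mul_distrib, prod_ite_eq' univ p (fun _ => ∑ i, |psi p (n + b i)|),
    if_pos (mem_univ _)]
  refine mul_le_mul_of_nonneg_left ?_ (sum_nonneg fun i _ => abs_nonneg _)
  rw [prod_comm, ← prod_const]
  refine prod_le_prod (fun i _ => prod_nonneg fun q _ => by positivity) fun i _ => ?_
  have h3 := P3_prod P hz hP (hn i).1 (hn i).2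
  rwa [← prod_coe_sort] at h3

theorem P3_one (P : Finset ℕ) {z t : ℕ} (hz : 2 ≤ z) (hP : ∀ p ∈ P, p.Prime ∧ z < p)
    (b : ι → ℕ) (n : ℕ) (hn : ∀ i, 0 < n + b i ∧ n + b i ≤ z ^ t) (p : P) (K : ℕ) :
    ∑ β : P → Option ι, (if β p ≠ none ∧ (sui P β).card ≤ K then |ee P b β n| else 0) ≤
      (∑ i, |psi p (n + b i)|) *
        ((1 + Fintype.card ι : ℝ) * (2 ^ t * ∏ q ∈ P, (1 + 1 / ((q : ℝ) - 1)))) ^ K := by
  have h1 : ∀ β : P → Option ι, (if β p ≠ none ∧ (sui P β).card ≤ K then |ee P b β n| else 0) ≤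
      ∑ B ∈ univ.filter (fun B : Finset ι => B.card ≤ K), ∏ q : P, P3_F P b n p B q (β q) := by
    intro β
    have hnn : ∀ B ∈ univ.filter (fun B : Finset ι => B.card ≤ K),
        0 ≤ ∏ q : P, P3_F P b n p B q (β q) := fun B _ =>
      prod_nonneg fun q _ => P3_F_nonneg P b n p B q _
    split_ifs with h
    · refine (P3_ee_le P b n p β h.1).trans ?_
      exact single_le_sum hnn (mem_filter.2 ⟨mem_univ _, h.2⟩)
    · exact sum_nonneg hnn
  refine (sum_le_sum fun β _ => h1 β).trans ?_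
  rw [sum_comm]
  have hX := P3_X_ge P (t := t) hP
  have ha : 0 ≤ ∑ i, |psi p (n + b i)| := sum_nonneg fun i _ => abs_nonneg _
  have h2 : ∀ B ∈ univ.filter (fun B : Finset ι => B.card ≤ K),
      ∑ β : P → Option ι, ∏ q : P, P3_F P b n p B q (β q) ≤
        (∑ i, |psi p (n + b i)|) * (2 ^ t * ∏ q ∈ P, (1 + 1 / ((q : ℝ) - 1))) ^ K := by
    intro B hB
    refine (P3_sum_F P hz hP b n hn p B).trans ?_
    exact mul_le_mul_of_nonneg_left (pow_le_pow_right₀ hX (mem_filter.1 hB).2) ha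
  refine (sum_le_sum h2).trans ?_
  rw [sum_const, nsmul_eq_mul, mul_pow (1 + Fintype.card ι : ℝ)]
  have h3 : (((univ : Finset (Finset ι)).filter fun B => B.card ≤ K).card : ℝ) ≤
      (1 + Fintype.card ι : ℝ) ^ K := by
    exact_mod_cast P3_count ι K
  have h4 : 0 ≤ (∑ i, |psi p (n + b i)|) *
      (2 ^ t * ∏ q ∈ P, (1 + 1 / ((q : ℝ) - 1))) ^ K :=
    mul_nonneg ha (pow_nonneg (zero_le_one.trans hX) _)
  calc _ ≤ (1 + Fintype.card ι : ℝ) ^ K * ((∑ i, |psi p (n + b i)|) *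
      (2 ^ t * ∏ q ∈ P, (1 + 1 / ((q : ℝ) - 1))) ^ K) := mul_le_mul_of_nonneg_right h3 h4
    _ = _ := by ring

theorem P3_two {z k1 t n x y : ℕ} (hz : 2 ≤ z) (hxy : x ≠ y) (hx : x < z) (hy : y < z)
    (hnx : 0 < n + x ∧ n + x ≤ z ^ t) (hny : 0 < n + y ∧ n + y ≤ z ^ t) :
    ∑ p ∈ PP z (z ^ k1), |psi p (n + x)| * |psi p (n + y)| ≤ (2 * t + 2) / z := by
  have hP : ∀ p ∈ PP z (z ^ k1), p.Prime ∧ z < p := by
    intro p hp
    unfold PP at hp
    rw [mem_filter, mem_Ioc] at hp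
    exact ⟨hp.2, hp.1.1⟩
  have hz0 : (0 : ℝ) < z := by
    have : 0 < z := by omega
    exact_mod_cast this
  have h1 : ∀ p ∈ PP z (z ^ k1), |psi p (n + x)| * |psi p (n + y)| ≤
      ((if p ∣ n + x then 1 / (z : ℝ) else 0) + (if p ∣ n + y then 1 / (z : ℝ) else 0)) +
        (((p - 1 : ℕ) : ℝ) ^ 2)⁻¹ := by
    intro p hp
    obtain ⟨hpp, hzp⟩ := hP p hp
    have hpr : (z : ℝ) ≤ (p : ℝ) - 1 := by
      have h2 : z + 1 ≤ p := hzp
      have h3 : ((z + 1 : ℕ) : ℝ) ≤ p := by exact_mod_cast h2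
      push_cast at h3
      linarith
    have hcast : ((p - 1 : ℕ) : ℝ) = (p : ℝ) - 1 := by
      rw [Nat.cast_sub hpp.one_lt.le, Nat.cast_one]
    have hp0 : (0 : ℝ) < (p : ℝ) - 1 := lt_of_lt_of_le hz0 hpr
    have hle : 1 / ((p : ℝ) - 1) ≤ 1 / z := one_div_le_one_div_of_le hz0 hpr
    have hnn : 0 ≤ 1 / (z : ℝ) := by positivity
    have hsq : 0 ≤ (((p : ℝ) - 1) ^ 2)⁻¹ := by positivity
    rw [hcast, P3_psi_abs hpp.two_le, P3_psi_abs hpp.two_le]
    by_cases h2 : p ∣ n + x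
    · by_cases h3 : p ∣ n + y
      · exfalso
        rcases lt_or_gt_of_ne hxy with h | h
        · have h4 : p ∣ (n + y) - (n + x) := Nat.dvd_sub h3 h2
          have h5 : (n + y) - (n + x) = y - x := by omega
          rw [h5] at h4
          have h6 := Nat.le_of_dvd (by omega) h4
          omega
        · have h4 : p ∣ (n + x) - (n + y) := Nat.dvd_sub h2 h3
          have h5 : (n + x) - (n + y) = x - y := by omega
          rw [h5] at h4
          have h6 := Nat.le_of_dvd (by omega) h4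
          omega
      · rw [if_pos h2, if_neg h3, if_pos h2, if_neg h3]
        linarith
    · by_cases h3 : p ∣ n + y
      · rw [if_neg h2, if_pos h3, if_neg h2, if_pos h3]
        linarith
      · rw [if_neg h2, if_neg h3, if_neg h2, if_neg h3]
        have h4 : 1 / ((p : ℝ) - 1) * (1 / ((p : ℝ) - 1)) = (((p : ℝ) - 1) ^ 2)⁻¹ := by
          rw [sq, mul_inv, one_div]
        rw [h4]
        linarith
  refine (sum_le_sum h1).trans ?_
  rw [sum_add_distrib, sum_add_distrib, ← sum_filter, ← sum_filter, sum_const, sum_const,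
    nsmul_eq_mul, nsmul_eq_mul]
  have h2 : (((PP z (z ^ k1)).filter fun p => p ∣ n + x).card : ℝ) ≤ t := by
    exact_mod_cast P3_card _ hz hP hnx.1 hnx.2
  have h3 : (((PP z (z ^ k1)).filter fun p => p ∣ n + y).card : ℝ) ≤ t := by
    exact_mod_cast P3_card _ hz hP hny.1 hny.2
  have h4 : ∑ p ∈ PP z (z ^ k1), (((p - 1 : ℕ) : ℝ) ^ 2)⁻¹ ≤ 2 / z := by
    have h5 : ∑ p ∈ PP z (z ^ k1), (((p - 1 : ℕ) : ℝ) ^ 2)⁻¹ =
        ∑ i ∈ (PP z (z ^ k1)).image (fun p : ℕ => (p - 1 : ℕ)), (((i : ℕ) : ℝ) ^ 2)⁻¹ := by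
      rw [sum_image]
      intro p hp q hq h
      have h6 := (hP p hp).1.pos
      have h7 := (hP q hq).1.pos
      have h8 : p - 1 = q - 1 := h
      omega
    have h6 : (PP z (z ^ k1)).image (fun p : ℕ => (p - 1 : ℕ)) ⊆ Ioo (z - 1) (z ^ k1) := by
      intro i hi
      rw [mem_image] at hi
      obtain ⟨p, hp, rfl⟩ := hi
      have h7 := (hP p hp).1.pos
      unfold PP at hp
      rw [mem_filter, mem_Ioc] at hp
      rw [mem_Ioo]
      omega
    have h7 := sum_Ioo_inv_sq_le (α := ℝ) (z - 1) (z ^ k1)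
    rw [h5]
    refine (sum_le_sum_of_subset_of_nonneg h6 fun i _ _ => by positivity).trans (h7.trans ?_)
    have h8 : ((z - 1 : ℕ) : ℝ) + 1 = z := by
      rw [Nat.cast_sub (by omega), Nat.cast_one]
      ring
    rw [h8]
  have hnn : 0 ≤ 1 / (z : ℝ) := by positivity
  have h5 := mul_le_mul_of_nonneg_right h2 hnn
  have h6 := mul_le_mul_of_nonneg_right h3 hnn
  have h7 : (2 * (t : ℝ) + 2) / z = (t * (1 / (z : ℝ)) + t * (1 / (z : ℝ))) + 2 / z := by
    field_simp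
    ring
  rw [h7]
  linarith

theorem P3_rho_abs (w z : ℕ) (B : Finset ℕ) (n : ℕ) : |rho w z B n| ≤ 1 := by
  unfold rho
  split_ifs <;> simp

theorem P3_term (z q0 k1 K : ℕ) (hz : 2 ≤ z) (hq : 1 ≤ q0) (hK : 2 * k1 ≤ K * q0)
    (hD : 0 < Dn (PP z (z ^ k1)) z q0 k1)
    (hD1 : 1 ≤ Dn (PP z (z ^ k1)) z q0 k1 * (q0 * Real.log z)) (w : ℕ)
    (b : ι → ℕ) (n : ℕ) (p : PP z (z ^ k1)) (β : PP z (z ^ k1) → Option ι) (hp : β p ≠ none) :
    |y5 (PP z (z ^ k1)) z q0 k1 β * rho w z (su (PP z (z ^ k1)) b β) n *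
      ee (PP z (z ^ k1)) b β n| ≤
      if β p ≠ none ∧ (sui (PP z (z ^ k1)) β).card ≤ K then |ee (PP z (z ^ k1)) b β n| else 0 := by
  have hP : ∀ p ∈ PP z (z ^ k1), p.Prime := by
    intro p hp
    unfold PP at hp
    rw [mem_filter] at hp
    exact hp.2
  by_cases hy : y5 (PP z (z ^ k1)) z q0 k1 β = 0
  · rw [hy, zero_mul, zero_mul, abs_zero]
    split_ifs
    · exact abs_nonneg _
    · exact le_rfl
  · have h1 := (y5_supp (PP z (z ^ k1)) z q0 k1 hP hz hq hK β hy).2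
    rw [if_pos ⟨hp, h1⟩, abs_mul, abs_mul]
    have h2 := y5_abs_le (PP z (z ^ k1)) z q0 k1 hP hz hq hD hD1 β
    have h3 := P3_rho_abs w z (su (PP z (z ^ k1)) b β) n
    have h4 : |y5 (PP z (z ^ k1)) z q0 k1 β| * |rho w z (su (PP z (z ^ k1)) b β) n| ≤ 1 :=
      mul_le_one₀ h2 (abs_nonneg _) h3
    calc _ ≤ 1 * |ee (PP z (z ^ k1)) b β n| := mul_le_mul_of_nonneg_right h4 (abs_nonneg _)
      _ = _ := one_mul _

end

variable {ι ι' : Type} [Fintype ι] [DecidableEq ι] [Fintype ι'] [DecidableEq ι']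

theorem Psi2_le (z q0 k1 K t : ℕ) (hz : 2 ≤ z) (hq : 1 ≤ q0) (hK : 2 * k1 ≤ K * q0)
    (hD : 0 < Dn (PP z (z ^ k1)) z q0 k1)
    (hD1 : 1 ≤ Dn (PP z (z ^ k1)) z q0 k1 * (q0 * Real.log z))
    (b : ι → ℕ) (b' : ι' → ℕ) (hb : Function.Injective (Sum.elim b b'))
    (hbz : ∀ i, b i < z) (hbz' : ∀ i, b' i < z) (n : ℕ)
    (hn : ∀ i, 0 < n + b i ∧ n + b i ≤ z ^ t) (hn' : ∀ i, 0 < n + b' i ∧ n + b' i ≤ z ^ t) :
    |Psi2 (PP z (z ^ k1)) (wf z) z q0 k1 b b' n| ≤
      ((1 + Fintype.card ι : ℝ) * (1 + Fintype.card ι') * ((2 * t + 2) / z)) *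
        ((1 + Fintype.card ι : ℝ) * (1 + Fintype.card ι') *
          (2 ^ t * ∏ p ∈ PP z (z ^ k1), (1 + 1 / ((p : ℝ) - 1))) ^ 2) ^ K := by
  classical
  set P := PP z (z ^ k1) with hPdef
  have hP : ∀ p ∈ P, p.Prime ∧ z < p := by
    intro p hp
    rw [hPdef] at hp
    unfold PP at hp
    rw [mem_filter, mem_Ioc] at hp
    exact ⟨hp.2, hp.1.1⟩
  set X : ℝ := 2 ^ t * ∏ p ∈ P, (1 + 1 / ((p : ℝ) - 1)) with hX
  have hX1 : 1 ≤ X := P3_X_ge P hP
  let G : P → (P → Option ι) → ℝ := fun p β =>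
    if β p ≠ none ∧ (sui P β).card ≤ K then |ee P b β n| else 0
  let G' : P → (P → Option ι') → ℝ := fun p β =>
    if β p ≠ none ∧ (sui P β).card ≤ K then |ee P b' β n| else 0
  have hG : ∀ p β, 0 ≤ G p β := by
    intro p β
    simp only [G]
    split_ifs
    · exact abs_nonneg _
    · exact le_rfl
  have hG' : ∀ p β, 0 ≤ G' p β := by
    intro p β
    simp only [G']
    split_ifs
    · exact abs_nonneg _
    · exact le_rfl
  have h1 : |Psi2 P (wf z) z q0 k1 b b' n| ≤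
      ∑ β : P → Option ι, ∑ β' : P → Option ι', ∑ p : P, G p β * G' p β' := by
    unfold Psi2
    refine (abs_sum_le_sum_abs _ _).trans (sum_le_sum fun β _ =>
      (abs_sum_le_sum_abs _ _).trans (sum_le_sum fun β' _ => ?_))
    split_ifs with hdis
    · rw [abs_zero]
      exact sum_nonneg fun p _ => mul_nonneg (hG p β) (hG' p β')
    · rw [not_disjoint_iff] at hdis
      obtain ⟨q, hq1, hq2⟩ := hdis
      unfold sp at hq1 hq2
      rw [mem_image] at hq1 hq2
      obtain ⟨p, hp, hpq⟩ := hq1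
      obtain ⟨p', hp', hpq'⟩ := hq2
      have hpp : p' = p := Subtype.ext (hpq'.trans hpq.symm)
      subst hpp
      have hp1 := (mem_filter.1 hp).2
      have hp2 := (mem_filter.1 hp').2
      rw [abs_mul]
      refine le_trans (mul_le_mul (P3_term z q0 k1 K hz hq hK hD hD1 (wf z) b n p' β hp1)
        (P3_term z q0 k1 K hz hq hK hD hD1 (wf z) b' n p' β' hp2) (abs_nonneg _) (hG p' β)) ?_
      exact single_le_sum (f := fun p => G p β * G' p β')
        (fun p _ => mul_nonneg (hG p β) (hG' p β')) (mem_univ p')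
  have h2 : ∑ β : P → Option ι, ∑ β' : P → Option ι', ∑ p : P, G p β * G' p β' =
      ∑ p : P, (∑ β, G p β) * ∑ β', G' p β' := by
    rw [sum_comm' (s' := fun _ => univ) (t' := univ) (by simp)]
    have h3 : ∀ β' : P → Option ι', ∑ β : P → Option ι, ∑ p : P, G p β * G' p β' =
        ∑ p : P, (∑ β, G p β) * G' p β' := by
      intro β'
      rw [sum_comm]
      exact sum_congr rfl fun p _ => (sum_mul _ _ _).symm
    rw [sum_congr rfl fun β' _ => h3 β', sum_comm]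
    exact sum_congr rfl fun p _ => (mul_sum _ _ _).symm
  have hc1 : (0 : ℝ) ≤ ((1 + Fintype.card ι : ℝ) * X) ^ K := by positivity
  have hc2 : (0 : ℝ) ≤ ((1 + Fintype.card ι' : ℝ) * X) ^ K := by positivity
  have h4 : ∀ p : P, (∑ β, G p β) * ∑ β', G' p β' ≤
      ((∑ i, |psi p (n + b i)|) * ∑ i', |psi p (n + b' i')|) *
        (((1 + Fintype.card ι : ℝ) * X) ^ K * ((1 + Fintype.card ι' : ℝ) * X) ^ K) := by
    intro p
    have h5 := P3_one P hz hP b n hn p K
    have h6 := P3_one P hz hP b' n hn' p K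
    calc _ ≤ ((∑ i, |psi p (n + b i)|) * ((1 + Fintype.card ι : ℝ) * X) ^ K) *
        ((∑ i', |psi p (n + b' i')|) * ((1 + Fintype.card ι' : ℝ) * X) ^ K) :=
          mul_le_mul h5 h6 (sum_nonneg fun β' _ => hG' p β')
            (mul_nonneg (sum_nonneg fun i _ => abs_nonneg _) hc1)
      _ = _ := by ring
  have h7 : ∑ p : P, ((∑ i, |psi p (n + b i)|) * ∑ i', |psi p (n + b' i')|) ≤
      (1 + Fintype.card ι : ℝ) * (1 + Fintype.card ι') * ((2 * t + 2) / z) := by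
    have h8 : ∑ p : P, ((∑ i, |psi p (n + b i)|) * ∑ i', |psi p (n + b' i')|) =
        ∑ i, ∑ i', ∑ p ∈ P, |psi p (n + b i)| * |psi p (n + b' i')| := by
      have h9 : ∀ p : P, ((∑ i, |psi p (n + b i)|) * ∑ i', |psi p (n + b' i')|) =
          ∑ i, ∑ i', |psi p (n + b i)| * |psi p (n + b' i')| := fun p => sum_mul_sum _ _ _ _
      rw [sum_congr rfl fun p _ => h9 p, sum_comm]
      refine sum_congr rfl fun i _ => ?_
      rw [sum_comm]
      refine sum_congr rfl fun i' _ => ?_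
      rw [← prod_coe_sort_sum P fun p => |psi p (n + b i)| * |psi p (n + b' i')|]
    have hz0 : (0 : ℝ) < z := by
      have : 0 < z := by omega
      exact_mod_cast this
    have hT : (0 : ℝ) ≤ (2 * t + 2) / z := by positivity
    rw [h8]
    calc _ ≤ ∑ _i : ι, ∑ _i' : ι', ((2 * t + 2) / z : ℝ) := by
          refine sum_le_sum fun i _ => sum_le_sum fun i' _ => ?_
          refine P3_two hz (fun h => ?_) (hbz i) (hbz' i') (hn i) (hn' i')
          have h10 : (Sum.inl i : ι ⊕ ι') = Sum.inr i' := hb h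
          exact Sum.inl_ne_inr h10
      _ = (Fintype.card ι : ℝ) * (Fintype.card ι') * ((2 * t + 2) / z) := by
          simp only [sum_const, card_univ, nsmul_eq_mul]
          ring
      _ ≤ _ := by
          refine mul_le_mul_of_nonneg_right ?_ hT
          have ha : (0 : ℝ) ≤ Fintype.card ι := Nat.cast_nonneg _
          have hb : (0 : ℝ) ≤ Fintype.card ι' := Nat.cast_nonneg _
          nlinarith
  calc |Psi2 P (wf z) z q0 k1 b b' n| ≤ ∑ p : P, (∑ β, G p β) * ∑ β', G' p β' := h1.trans h2.le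
    _ ≤ ∑ p : P, ((∑ i, |psi p (n + b i)|) * ∑ i', |psi p (n + b' i')|) *
        (((1 + Fintype.card ι : ℝ) * X) ^ K * ((1 + Fintype.card ι' : ℝ) * X) ^ K) :=
          sum_le_sum fun p _ => h4 p
    _ = (∑ p : P, ((∑ i, |psi p (n + b i)|) * ∑ i', |psi p (n + b' i')|)) *
        (((1 + Fintype.card ι : ℝ) * X) ^ K * ((1 + Fintype.card ι' : ℝ) * X) ^ K) :=
          (sum_mul _ _ _).symm
    _ ≤ ((1 + Fintype.card ι : ℝ) * (1 + Fintype.card ι') * ((2 * t + 2) / z)) *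
        (((1 + Fintype.card ι : ℝ) * X) ^ K * ((1 + Fintype.card ι' : ℝ) * X) ^ K) :=
          mul_le_mul_of_nonneg_right h7 (mul_nonneg hc1 hc2)
    _ = _ := by
          rw [← mul_pow]
          congr 2
          ring
where
  prod_coe_sort_sum (P : Finset ℕ) (f : ℕ → ℝ) : ∑ p : P, f p = ∑ p ∈ P, f p :=
    sum_coe_sort P f

end Pool.Agent.LibLG5
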