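import Pool.Agent.LibLG5.P2
import Pool.Agent.LibLG5.P3
import Pool.Agent.LibLG5.M12

/-!
Row P4: two blocks are uncorrelated from above. `X5 b * X5 b' ≤ (PHI b PHI b')²`, `PHI b PHI b' = F + Psi2` with
`F = PhiR (Sum.elim b b') y2 ∅` (`PhiR_mul`), `(F + Psi2)² ≤ (1 + e/8) F² + (1 + 8/e) Psi2²`, `avg F² ≤ (1 + 1/√z) dg + errQF C (2K) k1 b0 (128 l k1) + 1/√z`
(QF on `ι ⊕ ι'`: kk = 4 k1, 2K, Λ = 128 l k1, `b0 = 2 (k1/2)`, `8 k1 + 2 b0 + 12 ≤ 16 k1 - 1` as `k1 ≥ 3`… check: `8k1 + k1·2 + 12 ≤ 16 k1 - 1` needs `k1 ≥ 3`),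
`dg ≤ (1+δ) DG DG'` (`dg_pair`, `VV_union`), `Psi2² ≤ small` uniformly (`Psi2_le`, `card ι ≤ log² z + 1` by injectivity, `NT_S_upper`, `log_pow_le`), `DG, DG' ≥ 1`.
-/

open Finset Filter

namespace Pool.Agent.LibLG5

open Pool.Agent.LibRG87

theorem P4_avg {M : ℕ} (hM : 0 < M) (f g : ℕ → ℝ) (a c : ℝ)
    (h : ∀ m < M, f m ≤ a * g m + c) : avg M f ≤ a * avg M g + c := by
  have hM' : (0 : ℝ) < M := by exact_mod_cast hM
  unfold avg
  rw [div_le_iff₀ hM']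
  have h1 : ∑ m ∈ range M, f m ≤ ∑ m ∈ range M, (a * g m + c) :=
    sum_le_sum fun m hm => h m (mem_range.1 hm)
  rw [sum_add_distrib, ← mul_sum, sum_const, card_range, nsmul_eq_mul] at h1
  have h2 : (a * ((∑ m ∈ range M, g m) / M) + c) * M = a * (∑ m ∈ range M, g m) + M * c := by
    field_simp
  rw [h2]
  exact h1

theorem P4_card {ι : Type} [Fintype ι] (b : ι → ℕ) (hb : Function.Injective b) {x : ℝ} (hx : 0 ≤ x)
    (h : ∀ i, 1 ≤ b i ∧ (b i : ℝ) ≤ x) : (Fintype.card ι : ℝ) ≤ x := by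
  classical
  have h1 : Fintype.card ι ≤ ⌊x⌋₊ := by
    have h2 : (univ : Finset ι).image b ⊆ Icc 1 ⌊x⌋₊ := by
      intro n hn
      rw [mem_image] at hn
      obtain ⟨i, -, rfl⟩ := hn
      rw [mem_Icc]
      exact ⟨(h i).1, Nat.le_floor (h i).2⟩
    have h3 := card_le_card h2
    rw [card_image_of_injective _ hb, card_univ, Nat.card_Icc] at h3
    omega
  have h2 : ((Fintype.card ι : ℕ) : ℝ) ≤ (⌊x⌋₊ : ℝ) := by exact_mod_cast h1
  exact h2.trans (Nat.floor_le hx)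

theorem P4_final {e r D D2 AF Err : ℝ} (he : 0 < e) (he1 : e < 1) (hr0 : 0 ≤ r) (hr : r ≤ e / 64)
    (hD : 1 ≤ D) (hD2 : D2 ≤ (1 + e / 16) * D) (hE : Err ≤ e / 16)
    (hAF : AF ≤ D2 + (r * D2 + (Err + r))) :
    (1 + e / 16) * AF + (1 + 16 / e) * r ^ 2 ≤ (1 + e) * D := by
  have h1 : AF ≤ (1 + r) * ((1 + e / 16) * D) + (e / 16 + r) := by
    have h2 : (1 + r) * D2 ≤ (1 + r) * ((1 + e / 16) * D) :=
      mul_le_mul_of_nonneg_left hD2 (by linarith)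
    linarith
  have h3 : (1 + 16 / e) * r ^ 2 ≤ e / 16 := by
    have h4 : r ^ 2 ≤ (e / 64) ^ 2 := pow_le_pow_left₀ hr0 hr 2
    have h5 : 0 ≤ 1 + 16 / e := by positivity
    have h6 : (1 + 16 / e) * (e / 64) ^ 2 = e ^ 2 / 4096 + e / 256 := by
      field_simp
      ring
    have h7 := mul_le_mul_of_nonneg_left h4 h5
    rw [h6] at h7
    nlinarith
  have h4 : (1 + r) * ((1 + e / 16) * D) + (e / 16 + r) ≤ (1 + e / 4) * D := by
    have h5 : (1 + r) * ((1 + e / 16) * D) ≤ (1 + e / 64) * ((1 + e / 16) * D) :=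
      mul_le_mul_of_nonneg_right (by linarith) (by positivity)
    have h6 : (1 + e / 64) * ((1 + e / 16) * D) ≤ (1 + e * (5 / 64) + e / 1024) * D := by
      have h7 : (1 + e / 64) * (1 + e / 16) ≤ 1 + e * (5 / 64) + e / 1024 := by nlinarith
      have h8 := mul_le_mul_of_nonneg_right h7 (by linarith : (0 : ℝ) ≤ D)
      linarith
    have h7 : e / 16 + r ≤ (5 / 64 * e) * D := by
      have h8 : e / 16 + r ≤ 5 / 64 * e := by linarith
      have h9 : 5 / 64 * e ≤ (5 / 64 * e) * D := le_mul_of_one_le_right (by positivity) hD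
      linarith
    nlinarith
  have h5 : (1 + e / 16) * AF ≤ (1 + e / 16) * ((1 + e / 4) * D) :=
    mul_le_mul_of_nonneg_left (h1.trans h4) (by linarith)
  have h6 : (1 + e / 16) * ((1 + e / 4) * D) ≤ (1 + e / 2) * D := by
    have h7 : (1 + e / 16) * (1 + e / 4) ≤ 1 + e / 2 := by nlinarith
    have h8 := mul_le_mul_of_nonneg_right h7 (by linarith : (0 : ℝ) ≤ D)
    linarith
  have h7 : e / 16 ≤ e / 16 * D := le_mul_of_one_le_right (by positivity) hD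
  nlinarith

theorem P4_sq {F S e r : ℝ} (he : 0 < e) (hS : |S| ≤ r) :
    (F + S) ^ 2 ≤ (1 + e / 16) * F ^ 2 + (1 + 16 / e) * r ^ 2 := by
  have h1 : S ^ 2 ≤ r ^ 2 := by
    have := pow_le_pow_left₀ (abs_nonneg S) hS 2
    rwa [sq_abs] at this
  have h2 : (1 + 16 / e) * S ^ 2 ≤ (1 + 16 / e) * r ^ 2 :=
    mul_le_mul_of_nonneg_left h1 (by positivity)
  have h3 : 0 ≤ e / 16 * (F - 16 / e * S) ^ 2 := by positivity
  have h4 : e / 16 * (F - 16 / e * S) ^ 2 = e / 16 * F ^ 2 - 2 * F * S + 16 / e * S ^ 2 := by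
    field_simp
    ring
  nlinarith

/-- the pairs sharing a prime -/
theorem P4_small {K t z : ℕ} {L S x y : ℝ} (hL : 1 ≤ L) (hx0 : 0 ≤ x) (hy0 : 0 ≤ y) (hx : x ≤ L ^ 2)
    (hy : y ≤ L ^ 2) {B : ℝ} (hS0 : 0 ≤ S) (hS : S ≤ B) (hz : 0 < z)
    (h : ((4 ^ (K + 1) * (2 * t + 2) * (2 ^ t * B) ^ (2 * K)) * L ^ (4 * (K + 1))) ^ 2 ≤ (z : ℝ)) :
    ((1 + x) * (1 + y) * ((2 * t + 2) / z)) * ((1 + x) * (1 + y) * (2 ^ t * S) ^ 2) ^ K ≤
      1 / Real.sqrt z := by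
  have hz' : (0 : ℝ) < z := by exact_mod_cast hz
  have hL2 : 1 ≤ L ^ 2 := one_le_pow₀ hL
  have h1 : (1 + x) * (1 + y) ≤ 4 * L ^ 4 := by
    have h2 : 1 + x ≤ 2 * L ^ 2 := by linarith
    have h3 : 1 + y ≤ 2 * L ^ 2 := by linarith
    calc (1 + x) * (1 + y) ≤ (2 * L ^ 2) * (2 * L ^ 2) :=
          mul_le_mul h2 h3 (by linarith) (by positivity)
      _ = 4 * L ^ 4 := by ring
  have h0 : 0 ≤ (1 + x) * (1 + y) := by positivity
  have hSB : (2 ^ t * S) ^ 2 ≤ (2 ^ t * B) ^ 2 :=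
    pow_le_pow_left₀ (by positivity) (mul_le_mul_of_nonneg_left hS (by positivity)) 2
  have h2 : ((1 + x) * (1 + y) * (2 ^ t * S) ^ 2) ^ K ≤ (4 * L ^ 4 * (2 ^ t * B) ^ 2) ^ K :=
    pow_le_pow_left₀ (by positivity) (mul_le_mul h1 hSB (by positivity) (by positivity)) K
  have h3 : (1 + x) * (1 + y) * ((2 * t + 2) / z) ≤ 4 * L ^ 4 * ((2 * t + 2) / z) :=
    mul_le_mul_of_nonneg_right h1 (by positivity)
  have h4 := mul_le_mul h3 h2 (by positivity) (by positivity)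
  refine h4.trans ?_
  set A : ℝ := (4 ^ (K + 1) * (2 * t + 2) * (2 ^ t * B) ^ (2 * K)) * L ^ (4 * (K + 1)) with hA
  have hB0 : 0 ≤ B := hS0.trans hS
  have hA0 : 0 ≤ A := by positivity
  have h5 : 4 * L ^ 4 * ((2 * t + 2) / z) * (4 * L ^ 4 * (2 ^ t * B) ^ 2) ^ K = A / z := by
    rw [hA, mul_pow, mul_pow, ← pow_mul, ← pow_mul, pow_succ, mul_add 4, pow_add L]
    ring
  rw [h5]
  have h6 : A ≤ Real.sqrt z := Real.le_sqrt_of_sq_le h
  rw [div_le_div_iff₀ hz' (Real.sqrt_pos.2 hz')]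
  calc A * Real.sqrt z ≤ Real.sqrt z * Real.sqrt z :=
        mul_le_mul_of_nonneg_right h6 (Real.sqrt_nonneg _)
    _ = 1 * z := by rw [Real.mul_self_sqrt hz'.le, one_mul]

theorem pair (C : ℕ) (hQF : QFprop C) (l e : ℝ) (hl : 1 ≤ l) (he : 0 < e) (he1 : e < 1)
    (q0 k1 K T : ℕ) (hp : Params C l e q0 k1 K) : ∀ᶠ z : ℕ in atTop,
      ∀ (ι ι' : Type) [Fintype ι] [DecidableEq ι] [Fintype ι'] [DecidableEq ι']
        (b : ι → ℕ) (b' : ι' → ℕ) (c M : ℕ),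
        Function.Injective (Sum.elim b b') → (∀ i, 1 ≤ b i ∧ (b i : ℝ) ≤ Real.log z ^ 2) →
        (∀ i, 1 ≤ b' i ∧ (b' i : ℝ) ≤ Real.log z ^ 2) →
        (Fintype.card ι : ℝ) * V1 (wf z) z ≤ 64 * l * k1 →
        (Fintype.card ι' : ℝ) * V1 (wf z) z ≤ 64 * l * k1 →
        z ^ (16 * k1 - 1) ≤ M → (∀ m < M, c + primorial (wf z) * m ≤ z ^ (16 * k1)) →
        avg M (fun m => X5 z q0 k1 T b (c + primorial (wf z) * m) *
            X5 z q0 k1 T b' (c + primorial (wf z) * m)) ≤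
          (1 + e) * (DG z q0 k1 b * DG z q0 k1 b') := by
  obtain ⟨hq0, hk1, hK1, hKq, hqk, herr, hDn⟩ := hp
  obtain ⟨CS, hCS1, hCS⟩ := NT_S_upper
  have hk1r : (3 : ℝ) ≤ k1 := by exact_mod_cast hk1
  have hΛ : 1 ≤ 128 * l * (k1 : ℝ) := by nlinarith
  have hQ := hQF (2 * K) (4 * k1) k1 (2 * (k1 / 2)) (128 * l * k1) (by omega) (by omega)
    (by omega) ⟨k1 / 2, by ring⟩ hΛ (herr.trans (by linarith))
  have hVU := VV_union K (δ := e / 16) (by positivity)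
  have hS := hCS k1 (by omega)
  obtain ⟨t, ht⟩ : ∃ t : ℕ, t = 16 * k1 + 1 := ⟨_, rfl⟩
  have hA := log_pow_le 2 (4 * (K + 1)) (by norm_num)
    (4 ^ (K + 1) * (2 * t + 2) * (2 ^ t * ((CS : ℝ) * k1)) ^ (2 * K))
  have hlog2 := log_pow_le 1 2 le_rfl 2
  filter_upwards [hQ, hVU, hS, hA, hlog2, hDn, eventually_ge_atTop 4,
    eventually_ge_atTop ⌈(64 / e) ^ 2⌉₊] with z hQ hVU hS hA hlog2 hDn hz4 hze
  intro ι ι' _ _ _ _ b b' c M hinj hb hb' hcard hcard' hM hcM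
  have hz0 : 0 < z := by omega
  have hz2 : 2 ≤ z := by omega
  have hzr : (0 : ℝ) < z := by exact_mod_cast hz0
  have hL1 : 1 ≤ Real.log z := by
    have h1 : Real.log 4 ≤ Real.log z := Real.log_le_log (by norm_num) (by exact_mod_cast hz4)
    have h2 : Real.log 4 = 2 * Real.log 2 := by
      rw [show (4 : ℝ) = 2 ^ 2 by norm_num, Real.log_pow]
      norm_num
    have h3 := Real.log_two_gt_d9
    linarith
  have hL2 : 2 * Real.log z ^ 2 ≤ z := by
    rw [pow_one] at hlog2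
    exact hlog2
  have hL2' : Real.log z ^ 2 < z := by nlinarith
  have hMpos : 0 < M := lt_of_lt_of_le (pow_pos hz0 _) hM
  -- the error `r`
  obtain ⟨r, hrdef⟩ : ∃ r : ℝ, r = 1 / Real.sqrt z := ⟨_, rfl⟩
  have hr0 : 0 ≤ r := by
    rw [hrdef]
    positivity
  have hr : r ≤ e / 64 := by
    have h1 : (64 / e) ^ 2 ≤ (z : ℝ) := (Nat.le_ceil _).trans (by exact_mod_cast hze)
    have h2 : 64 / e ≤ Real.sqrt z := Real.le_sqrt_of_sq_le h1
    have h3 : 0 < 64 / e := by positivity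
    have h4 : 1 / Real.sqrt z ≤ 1 / (64 / e) := one_div_le_one_div_of_le h3 h2
    rw [hrdef]
    refine h4.trans (le_of_eq ?_)
    rw [one_div_div]
  have hP : ∀ p ∈ PP z (z ^ k1), p.Prime := by
    intro p hp
    unfold PP at hp
    rw [mem_filter] at hp
    exact hp.2
  have hinjb : Function.Injective b := fun i j h => Sum.inl_injective (hinj (by simpa using h))
  have hinjb' : Function.Injective b' := fun i j h => Sum.inr_injective (hinj (by simpa using h))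
  have hcb := P4_card b hinjb (by positivity) hb
  have hcb' := P4_card b' hinjb' (by positivity) hb'
  have hD1 : 1 ≤ DG z q0 k1 b := one_le_dg (PP z (z ^ k1)) z q0 k1 hP (by omega) (wf z) b
  have hD1' : 1 ≤ DG z q0 k1 b' := one_le_dg (PP z (z ^ k1)) z q0 k1 hP (by omega) (wf z) b'
  -- the numbers
  have hnum : ∀ m < M, ∀ x : ℕ, 1 ≤ x → (x : ℝ) ≤ Real.log z ^ 2 →
      0 < c + primorial (wf z) * m + x ∧ c + primorial (wf z) * m + x ≤ z ^ t := by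
    intro m hm x hx1 hx
    have h1 := hcM m hm
    have h2 : x < z := by exact_mod_cast hx.trans_lt hL2'
    have h3 : z ≤ z ^ (16 * k1) := Nat.le_self_pow (by omega) z
    have h4 : z ^ t = z ^ (16 * k1) * z := by rw [ht, pow_succ]
    have h5 : z ^ (16 * k1) * 2 ≤ z ^ (16 * k1) * z := Nat.mul_le_mul_left _ hz2
    exact ⟨by omega, by omega⟩
  -- the part of the pairs sharing a prime
  have hPsi : ∀ m < M, |Psi2 (PP z (z ^ k1)) (wf z) z q0 k1 b b' (c + primorial (wf z) * m)| ≤ r := by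
    intro m hm
    refine (Psi2_le z q0 k1 K t hz2 hq0 hKq hDn.1 hDn.2 b b' hinj
      (fun i => by exact_mod_cast (hb i).2.trans_lt hL2')
      (fun i => by exact_mod_cast (hb' i).2.trans_lt hL2') _
      (fun i => hnum m hm _ (hb i).1 (hb i).2) (fun i => hnum m hm _ (hb' i).1 (hb' i).2)).trans ?_
    rw [hrdef]
    refine P4_small hL1 (Nat.cast_nonneg _) (Nat.cast_nonneg _) hcb hcb' ?_ hS hz0 hA
    refine prod_nonneg fun p hp => ?_
    have h1 : (2 : ℝ) ≤ p := by exact_mod_cast (hP p hp).two_le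
    have h2 : 0 ≤ 1 / ((p : ℝ) - 1) := div_nonneg zero_le_one (by linarith)
    linarith
  -- the pointwise bound
  have hpt : ∀ m < M, X5 z q0 k1 T b (c + primorial (wf z) * m) *
      X5 z q0 k1 T b' (c + primorial (wf z) * m) ≤
        (1 + e / 16) * PhiR (PP z (z ^ k1)) (wf z) z (Sum.elim b b') (y2 (PP z (z ^ k1)) z q0 k1) ∅
          (c + primorial (wf z) * m) ^ 2 + (1 + 16 / e) * r ^ 2 := by
    intro m hm
    have h1 : X5 z q0 k1 T b (c + primorial (wf z) * m) *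
        X5 z q0 k1 T b' (c + primorial (wf z) * m) ≤
          PHI z q0 k1 b (c + primorial (wf z) * m) ^ 2 *
            PHI z q0 k1 b' (c + primorial (wf z) * m) ^ 2 :=
      mul_le_mul (X5_le _ _ _ _ _ _) (X5_le _ _ _ _ _ _) (X5_nonneg _ _ _ _ _ _) (sq_nonneg _)
    refine h1.trans ?_
    rw [← mul_pow]
    unfold PHI
    rw [PhiR_mul]
    exact P4_sq he (hPsi m hm)
  refine (P4_avg hMpos _ (fun m => PhiR (PP z (z ^ k1)) (wf z) z (Sum.elim b b')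
    (y2 (PP z (z ^ k1)) z q0 k1) ∅ (c + primorial (wf z) * m) ^ 2) _ _ hpt).trans ?_
  -- the quadratic form
  have hexp : 2 * (4 * k1) + 2 * (2 * (k1 / 2)) + 12 ≤ 16 * k1 - 1 := by omega
  have hQ1 := hQ (ι ⊕ ι') (Sum.elim b b') c M ∅ (y2 (PP z (z ^ k1)) z q0 k1) hinj
    (by
      rintro (i | i)
      · exact (hb i).2
      · exact (hb' i).2)
    (fun x hx => absurd hx (notMem_empty x)) (by simp)
    (by
      rw [Fintype.card_sum]
      push_cast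
      rw [add_mul]
      linarith)
    (y2_abs_le (PP z (z ^ k1)) z q0 k1 hP hz2 hq0 hDn.1 hDn.2)
    (y2_supp (PP z (z ^ k1)) z q0 k1 hP hz2 hq0 hKq)
    ((Nat.pow_le_pow_right hz0 hexp).trans hM)
  have hdg := dg_pair z q0 k1 K hz2 hq0 hKq (δ := e / 16) (by positivity) hVU b b' hinj
    (fun i => (hb i).2) (fun i => (hb' i).2)
  rw [card_empty, pow_zero, one_mul] at hQ1
  have hQ2 := (abs_le.1 hQ1).2
  have hD : 1 ≤ DG z q0 k1 b * DG z q0 k1 b' := one_le_mul_of_one_le_of_one_le hD1 hD1'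
  refine P4_final he he1 hr0 hr hD hdg herr ?_
  rw [hrdef]
  linarith

end Pool.Agent.LibLG5
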