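import Pool.Agent.LibLG5.Defs

/-!
Row Q1: local absolute means. For `p ≥ 3` prime and positions pairwise incongruent mod `p`:
`∑_{c<p} |loc o c * loc o' c| ≤ 2` unless `o = o' = none`.
(`|psi|` is `1` on one class and `1/(p-1)` on the `p-1` others: sums `1 + 1 = 2` for `(none, some)`,
`1 + 1/(p-1)` for `(i,i)`, `2/(p-1) + (p-2)/(p-1)^2 ≤ 2` for `i ≠ j`; or simply
`|loc o * loc o'| ≤ |loc o|` because `|loc| ≤ 1`, and `∑ |psi| = 2`: one computation is enough.)
`c ↦ c + b i` mod `p`: exactly one `c < p` with `p ∣ c + b i`.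
-/

open Finset

namespace Pool.Agent.LibLG5

open Pool.Agent.LibRG87

variable {ι : Type} [Fintype ι] [DecidableEq ι]

theorem Q1_pm {p : ℕ} (hp : p.Prime) : (1 : ℝ) ≤ (p : ℝ) - 1 := by
  have h1 : (2 : ℝ) ≤ p := by exact_mod_cast hp.two_le
  linarith

theorem Q1_psi_le {p : ℕ} (hp : p.Prime) (n : ℕ) : |psi p n| ≤ 1 := by
  have h := Q1_pm hp
  unfold psi
  split_ifs
  · norm_num
  · rw [abs_of_nonneg (by positivity), div_le_one (by linarith)]
    exact h

theorem Q1_loc_le (b : ι → ℕ) {p : ℕ} (hp : p.Prime) (o : Option ι) (n : ℕ) :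
    |loc b p o n| ≤ 1 := by
  cases o with
  | none => simp [loc]
  | some i => exact Q1_psi_le hp _

theorem Q1_sum_psi {p : ℕ} (hp : p.Prime) (b : ℕ) : ∑ c ∈ range p, |psi p (c + b)| ≤ 2 := by
  have h := Q1_pm hp
  have h0 : (0 : ℝ) < (p : ℝ) - 1 := by linarith
  have e1 : ∀ c ∈ range p, |psi p (c + b)| =
      1 / ((p : ℝ) - 1) + if p ∣ c + b then 1 - 1 / ((p : ℝ) - 1) else 0 := by
    intro c _
    unfold psi
    split_ifs
    · rw [abs_neg, abs_one]
      ring
    · rw [abs_of_nonneg (by positivity), add_zero]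
  rw [Finset.sum_congr rfl e1, Finset.sum_add_distrib, Finset.sum_const, Finset.card_range,
    ← Finset.sum_filter, Finset.sum_const, nsmul_eq_mul, nsmul_eq_mul]
  have hc : ((range p).filter (fun c => p ∣ c + b)).card ≤ 1 := by
    rw [Finset.card_le_one]
    intro x hx y hy
    rw [Finset.mem_filter, Finset.mem_range] at hx hy
    have h1 : x + b ≡ y + b [MOD p] :=
      ((Nat.modEq_zero_iff_dvd).2 hx.2).trans ((Nat.modEq_zero_iff_dvd).2 hy.2).symm
    have h2 : x ≡ y [MOD p] := Nat.ModEq.add_right_cancel' b h1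
    exact Nat.ModEq.eq_of_lt_of_lt h2 hx.1 hy.1
  have hc' : (((range p).filter (fun c => p ∣ c + b)).card : ℝ) ≤ 1 := by exact_mod_cast hc
  have h3 : 0 ≤ 1 - 1 / ((p : ℝ) - 1) := by
    rw [sub_nonneg, div_le_one h0]
    exact h
  have h4 : (((range p).filter (fun c => p ∣ c + b)).card : ℝ) * (1 - 1 / ((p : ℝ) - 1)) ≤
      1 * (1 - 1 / ((p : ℝ) - 1)) := mul_le_mul_of_nonneg_right hc' h3
  have h5 : (p : ℝ) * (1 / ((p : ℝ) - 1)) = 1 + 1 / ((p : ℝ) - 1) := by
    field_simp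
    ring
  rw [h5]
  linarith

theorem tot_le (b : ι → ℕ) {p : ℕ} (hp : p.Prime) (o o' : Option ι) (h : ¬(o = none ∧ o' = none)) :
    ∑ c ∈ range p, |loc b p o c * loc b p o' c| ≤ 2 := by
  cases o with
  | some i =>
    refine le_trans (Finset.sum_le_sum fun c _ => ?_) (Q1_sum_psi hp (b i))
    rw [abs_mul]
    exact mul_le_of_le_one_right (abs_nonneg _) (Q1_loc_le b hp o' c)
  | none =>
    cases o' with
    | none => exact absurd ⟨rfl, rfl⟩ h
    | some i =>
      refine le_trans (Finset.sum_le_sum fun c _ => ?_) (Q1_sum_psi hp (b i))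
      rw [abs_mul]
      exact mul_le_of_le_one_left (abs_nonneg _) (Q1_loc_le b hp none c)

theorem am_le (b : ι → ℕ) {p : ℕ} (hp : p.Prime) (o o' : Option ι) (h : ¬(o = none ∧ o' = none)) :
    am b p o o' ≤ 2 / p := by
  unfold am
  exact div_le_div_of_nonneg_right (tot_le b hp o o' h) (Nat.cast_nonneg p)

theorem am_none (b : ι → ℕ) {p : ℕ} (hp : p.Prime) : am b p none none = 1 := by
  have h0 : (p : ℝ) ≠ 0 := by exact_mod_cast hp.ne_zero
  unfold am
  simp [loc, h0]

theorem am_nonneg (b : ι → ℕ) (p : ℕ) (o o' : Option ι) : 0 ≤ am b p o o' := by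
  unfold am
  positivity

theorem AM_nonneg (P : Finset ℕ) (b : ι → ℕ) (β β' : P → Option ι) : 0 ≤ AM P b β β' := by
  unfold AM
  exact Finset.prod_nonneg fun p _ => am_nonneg b _ _ _

end Pool.Agent.LibLG5
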