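import Pool.Agent.LibLG5.SS
import Pool.Agent.LibLG5.Q1
import Pool.Agent.LibRG87.R0
import Pool.Agent.LibRG87.R8b

/-!
Row Q2: pair lemma. Apply `lemmaS` with `T = sp β ∪ sp β'` and
`g p n = loc b p (β p) n * loc b p (β' p) n` (extend by `1` outside `P`): `ee β n * ee β' n = ∏_{p ∈ T} g p n`,
`∏_{p ∈ T} mean = KK β β'` (`loc_avg`; the other factors are `gg none none = 1`), `∏_{p ∈ T} amean = AM β β'`
(`am_none`), `∏_{p ∈ T} tot ≤ 2 ^ card T ≤ 2 ^ (card (sp β) + card (sp β'))` (`tot_le`).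
The constant `C` is the one of `lemmaS` (obtain it once: `QFC`).
-/

open Finset Filter

namespace Pool.Agent.LibLG5

open Pool.Agent.LibRG87

/-- the property of the constant in the sieve lemma, for two configurations -/
def PairLem (C : ℕ) : Prop :=
  ∀ k b0 : ℕ, 1 ≤ k → Even b0 → eps0 C k b0 ≤ 1 → ∀ᶠ z : ℕ in atTop,
    ∀ (ι : Type) [Fintype ι] [DecidableEq ι] (b : ι → ℕ) (c M u : ℕ) (B : Finset ℕ)
      (β β' : PP z u → Option ι), B.card ≤ k →
      (∀ p ∈ PP z u, ∀ i j : ι, i ≠ j → ¬ b i ≡ b j [MOD p]) →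
      |∑ m ∈ range M, rho (wf z) z B (c + primorial (wf z) * m) *
            (ee (PP z u) b β (c + primorial (wf z) * m) * ee (PP z u) b β' (c + primorial (wf z) * m)) -
          M * VV (wf z) z B * KK (PP z u) β β'| ≤
        eps0 C k b0 * M * VV (wf z) z B * AM (PP z u) b β β' +
          (z : ℝ) ^ (2 * b0 + 6) * 2 ^ ((sp (PP z u) β).card + (sp (PP z u) β').card)

section

variable {ι : Type} [Fintype ι] [DecidableEq ι] (P : Finset ℕ)

/-- a local function extended by `1` -/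
noncomputable def Q2G (h : ℕ → Option ι → Option ι → ℝ) (β β' : P → Option ι) (p : ℕ) : ℝ :=
  if hp : p ∈ P then h p (β ⟨p, hp⟩) (β' ⟨p, hp⟩) else 1

theorem Q2_prod (h : ℕ → Option ι → Option ι → ℝ) (h0 : ∀ p ∈ P, h p none none = 1)
    (β β' : P → Option ι) :
    ∏ p : P, h (p : ℕ) (β p) (β' p) = ∏ p ∈ sp P β ∪ sp P β', Q2G P h β β' p := by
  have h1 : ∏ p : P, h (p : ℕ) (β p) (β' p) = ∏ p : P, Q2G P h β β' (p : ℕ) := by
    refine Finset.prod_congr rfl fun p _ => ?_
    rw [Q2G, dif_pos p.2]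
  rw [h1, Finset.prod_coe_sort P (fun p => Q2G P h β β' p)]
  symm
  refine Finset.prod_subset (Finset.union_subset (sp_subset P β) (sp_subset P β')) ?_
  intro p hp hn
  rw [Finset.mem_union, not_or, mem_sp, mem_sp] at hn
  have e1 : β ⟨p, hp⟩ = none := by
    by_contra hc
    exact hn.1 ⟨hp, hc⟩
  have e2 : β' ⟨p, hp⟩ = none := by
    by_contra hc
    exact hn.2 ⟨hp, hc⟩
  rw [Q2G, dif_pos hp, e1, e2, h0 p hp]

end

theorem pairLem : ∃ C : ℕ, 1 ≤ C ∧ PairLem C := by
  obtain ⟨C, hC1, hC⟩ := lemmaS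
  refine ⟨C, hC1, ?_⟩
  intro k b0 hk hb0 he
  filter_upwards [hC k b0 hk hb0 he, Filter.eventually_ge_atTop 2] with z hz hz2
  intro ι _ _ b c M u B
  have hPp : ∀ p ∈ PP z u, p.Prime ∧ z < p := by
    intro p hp
    rw [PP, Finset.mem_filter, Finset.mem_Ioc] at hp
    exact ⟨hp.2, hp.1.1⟩
  generalize PP z u = P at hPp ⊢
  intro β β' hB hb
  set T := sp P β ∪ sp P β' with hT
  have hTP : ∀ p ∈ T, p ∈ P := fun p hp =>
    Finset.union_subset (sp_subset P β) (sp_subset P β') hp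
  have key := hz c M B T (fun p n => Q2G P (fun p o o' => loc b p o n * loc b p o' n) β β' p) hB
    (fun p hp => hPp p (hTP p hp)) (by
      intro p hp n
      simp only [Q2G, dif_pos (hTP p hp), loc_per])
  have e1 : ∀ n, ∏ p ∈ T, Q2G P (fun p o o' => loc b p o n * loc b p o' n) β β' p =
      ee P b β n * ee P b β' n := by
    intro n
    rw [hT, ← Q2_prod P (fun p o o' => loc b p o n * loc b p o' n)
      (fun p _ => by simp [loc]) β β', ee, ee, Finset.prod_mul_distrib]
  have e2 : ∏ p ∈ T, ((∑ x ∈ range p,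
      Q2G P (fun p o o' => loc b p o x * loc b p o' x) β β' p) / (p : ℝ)) = KK P β β' := by
    rw [KK, Q2_prod P (fun p o o' => gg p o o') (fun p _ => rfl) β β', ← hT]
    refine Finset.prod_congr rfl fun p hp => ?_
    have hp1 := hPp p (hTP p hp)
    simp only [Q2G, dif_pos (hTP p hp)]
    exact loc_avg b hp1.1 (by omega) (hb p (hTP p hp)) _ _
  have e3 : ∏ p ∈ T, ((∑ x ∈ range p,
      |Q2G P (fun p o o' => loc b p o x * loc b p o' x) β β' p|) / (p : ℝ)) = AM P b β β' := by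
    rw [AM, Q2_prod P (fun p o o' => am b p o o') (fun p hp => am_none b (hPp p hp).1) β β', ← hT]
    refine Finset.prod_congr rfl fun p hp => ?_
    simp only [Q2G, dif_pos (hTP p hp), am]
  have e4 : ∏ p ∈ T, ∑ x ∈ range p,
      |Q2G P (fun p o o' => loc b p o x * loc b p o' x) β β' p| ≤
      2 ^ ((sp P β).card + (sp P β').card) := by
    have h1 : ∏ p ∈ T, ∑ x ∈ range p,
        |Q2G P (fun p o o' => loc b p o x * loc b p o' x) β β' p| ≤ ∏ p ∈ T, (2 : ℝ) := by
      refine Finset.prod_le_prod (fun p _ => Finset.sum_nonneg fun x _ => abs_nonneg _) ?_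
      intro p hp
      simp only [Q2G, dif_pos (hTP p hp)]
      refine tot_le b (hPp p (hTP p hp)).1 _ _ ?_
      rintro ⟨h2, h3⟩
      rw [hT, Finset.mem_union, mem_sp, mem_sp] at hp
      rcases hp with ⟨h4, h5⟩ | ⟨h4, h5⟩
      · exact h5 h2
      · exact h5 h3
    refine h1.trans ?_
    rw [Finset.prod_const]
    exact pow_le_pow_right₀ (by norm_num) (Finset.card_union_le _ _)
  simp only [e1, e2, e3] at key
  refine key.trans ?_
  gcongr

end Pool.Agent.LibLG5
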