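import Pool.Agent.LibLG5.Defs
import Pool.Agent.LibRG87.R0

/-!
Row Q3: row sums of the Gram matrix (see the proof of `LibRG87.schur`, row R7; same computation).
`∑_β' |KK β β'| = ∏_p ∑_o |gg p (β p) o|` (`Finset.prod_univ_sum`, `Fintype.piFinset_univ`); the factor is `1` if
`β p = none` and `1/(p-1) + (N-1)/(p-1)^2 ≤ (1/(p-1)) (1 + N/(p-1))` if `β p = some i`.
`off_diag`: `|∑_{β ≠ β'} y β y β' v(β,β') KK β β'| ≤ ∑_{β≠β'} (y β² + y β'²)/2 v(β,β') |KK|`, and
`v(β,β') ≤ v₀ β`, `v(β,β') ≤ v₀ β'`.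
-/

open Finset

namespace Pool.Agent.LibLG5

open Pool.Agent.LibRG87

variable {ι : Type} [Fintype ι] [DecidableEq ι] (P : Finset ℕ)

private theorem Q3_prod_sp (h : ℕ → ℝ) (β : P → Option ι) :
    ∏ p ∈ sp P β, h p = ∏ p : P, if β p ≠ none then h p else 1 := by
  unfold sp
  rw [Finset.prod_image (fun a _ b _ hab => Subtype.val_injective hab), Finset.prod_filter]

private theorem Q3_gg_symm (p : ℕ) (o o' : Option ι) : gg p o o' = gg p o' o := by
  cases o with
  | none =>
    cases o' with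
    | none => rfl
    | some j => rfl
  | some i =>
    cases o' with
    | none => rfl
    | some j =>
      simp only [gg, eq_comm (a := i) (b := j)]

private theorem Q3_KK_symm (β β' : P → Option ι) : KK P β β' = KK P β' β := by
  unfold KK
  exact Finset.prod_congr rfl fun p _ => Q3_gg_symm _ _ _

theorem KK_self (β : P → Option ι) : KK P β β = 1 / ph (sp P β) := by
  unfold KK ph
  rw [Q3_prod_sp, one_div, ← Finset.prod_inv_distrib]
  refine Finset.prod_congr rfl fun p _ => ?_
  cases hβ : β p with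
  | none => simp [gg]
  | some i => simp [gg]

theorem row_sum (hP : ∀ p ∈ P, Nat.Prime p) (hP3 : ∀ p ∈ P, 3 ≤ p) (β : P → Option ι) :
    ∑ β', |KK P β β'| ≤
      (∏ p ∈ sp P β, (1 + (Fintype.card ι : ℝ) / ((p : ℝ) - 1))) / ph (sp P β) := by
  have h1 : ∑ β', |KK P β β'| = ∏ p : P, ∑ o : Option ι, |gg (p : ℕ) (β p) o| := by
    rw [Finset.prod_univ_sum, Fintype.piFinset_univ]
    refine Finset.sum_congr rfl fun β' _ => ?_
    unfold KK
    rw [Finset.abs_prod]
  have h2 : (∏ p ∈ sp P β, (1 + (Fintype.card ι : ℝ) / ((p : ℝ) - 1))) / ph (sp P β) =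
      ∏ p : P, if β p ≠ none then
        (1 / (((p : ℕ) : ℝ) - 1)) * (1 + (Fintype.card ι : ℝ) / (((p : ℕ) : ℝ) - 1)) else 1 := by
    rw [← Q3_prod_sp P (fun p => (1 / ((p : ℝ) - 1)) * (1 + (Fintype.card ι : ℝ) / ((p : ℝ) - 1))) β,
      Finset.prod_mul_distrib]
    unfold ph
    rw [div_eq_inv_mul, ← Finset.prod_inv_distrib]
    simp only [one_div]
  rw [h1, h2]
  refine Finset.prod_le_prod (fun p _ => Finset.sum_nonneg fun _ _ => abs_nonneg _) fun p _ => ?_
  have hp : (3 : ℝ) ≤ ((p : ℕ) : ℝ) := by exact_mod_cast hP3 p.1 p.2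
  have hp1 : (0 : ℝ) < ((p : ℕ) : ℝ) - 1 := by linarith
  cases hβ : β p with
  | none =>
    rw [Fintype.sum_option]
    simp [gg]
  | some i =>
    rw [Fintype.sum_option]
    have h3 : |gg (p : ℕ) (some i) none| = 0 := by simp [gg]
    rw [h3, zero_add, if_pos (by simp)]
    have ha : (0 : ℝ) ≤ 1 / (((p : ℕ) : ℝ) - 1) := by positivity
    have hb : (0 : ℝ) ≤ 1 / (((p : ℕ) : ℝ) - 1) ^ 2 := by positivity
    calc ∑ j : ι, |gg (p : ℕ) (some i) (some j)|
        ≤ ∑ j : ι, ((if i = j then 1 / (((p : ℕ) : ℝ) - 1) else 0) +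
            1 / (((p : ℕ) : ℝ) - 1) ^ 2) := by
          refine Finset.sum_le_sum fun j _ => ?_
          simp only [gg]
          split_ifs with hij
          · rw [abs_of_nonneg ha]
            linarith
          · rw [abs_neg, abs_of_nonneg hb]
            linarith
      _ = 1 / (((p : ℕ) : ℝ) - 1) + (Fintype.card ι : ℝ) * (1 / (((p : ℕ) : ℝ) - 1) ^ 2) := by
          rw [Finset.sum_add_distrib, Finset.sum_ite_eq, if_pos (Finset.mem_univ _),
            Finset.sum_const, Finset.card_univ, nsmul_eq_mul]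
      _ = (1 / (((p : ℕ) : ℝ) - 1)) * (1 + (Fintype.card ι : ℝ) / (((p : ℕ) : ℝ) - 1)) := by
          field_simp

open scoped Classical in
theorem off_diag (hP : ∀ p ∈ P, Nat.Prime p) (hP3 : ∀ p ∈ P, 3 ≤ p) (y : (P → Option ι) → ℝ)
    (v : (P → Option ι) → (P → Option ι) → ℝ) (v₀ : (P → Option ι) → ℝ)
    (hv0 : ∀ β β', 0 ≤ v β β') (hv1 : ∀ β β', v β β' ≤ v₀ β) (hv2 : ∀ β β', v β β' ≤ v₀ β') {δ : ℝ}
    (hδ : ∀ β, y β ≠ 0 → ∏ p ∈ sp P β, (1 + (Fintype.card ι : ℝ) / ((p : ℝ) - 1)) ≤ 1 + δ) :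
    |∑ β, ∑ β', if β = β' then 0 else y β * y β' * v β β' * KK P β β'| ≤
      δ * ∑ β, y β ^ 2 * v₀ β / ph (sp P β) := by
  have hph : ∀ β : P → Option ι, 0 < ph (sp P β) := fun β => ph_pos P hP (sp_subset P β)
  have hv00 : ∀ β, 0 ≤ v₀ β := fun β => (hv0 β β).trans (hv1 β β)
  let Y : (P → Option ι) → ℝ := fun β => y β ^ 2 * v₀ β
  have hY0 : ∀ β, 0 ≤ Y β := fun β => mul_nonneg (sq_nonneg _) (hv00 β)
  let a : (P → Option ι) → (P → Option ι) → ℝ := fun β β' => if β = β' then 0 else |KK P β β'|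
  have ha0 : ∀ β β', 0 ≤ a β β' := fun β β' => by
    change 0 ≤ if β = β' then 0 else |KK P β β'|
    split_ifs
    · exact le_rfl
    · exact abs_nonneg _
  have hasymm : ∀ β β', a β β' = a β' β := fun β β' => by
    change (if β = β' then 0 else |KK P β β'|) = if β' = β then 0 else |KK P β' β|
    rw [Q3_KK_symm P β β']
    by_cases h : β = β'
    · rw [if_pos h, if_pos h.symm]
    · rw [if_neg h, if_neg (fun h' => h h'.symm)]
  have hrow : ∀ β, Y β * ∑ β', a β β' ≤ δ * (Y β / ph (sp P β)) := by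
    intro β
    by_cases hy : y β = 0
    · have : Y β = 0 := by
        show y β ^ 2 * v₀ β = 0
        rw [hy]
        ring
      rw [this]
      simp
    · have h1 : ∑ β', |KK P β β'| = ∑ β', a β β' + 1 / ph (sp P β) := by
        have h2 : ∀ β', |KK P β β'| = a β β' + if β = β' then |KK P β β'| else 0 := by
          intro β'
          change _ = (if β = β' then 0 else |KK P β β'|) + _
          by_cases h : β = β'
          · rw [if_pos h, if_pos h, zero_add]
          · rw [if_neg h, if_neg h, add_zero]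
        rw [Finset.sum_congr rfl fun β' _ => h2 β', Finset.sum_add_distrib, Finset.sum_ite_eq,
          if_pos (Finset.mem_univ _), KK_self, abs_of_pos (one_div_pos.2 (hph β))]
      have h3 := row_sum P hP hP3 β
      have h4 : (∏ p ∈ sp P β, (1 + (Fintype.card ι : ℝ) / ((p : ℝ) - 1))) / ph (sp P β) ≤
          (1 + δ) / ph (sp P β) :=
        div_le_div_of_nonneg_right (hδ β hy) (hph β).le
      have h5 : ∑ β', a β β' ≤ δ * (1 / ph (sp P β)) := by
        have : (1 + δ) / ph (sp P β) = 1 / ph (sp P β) + δ * (1 / ph (sp P β)) := by ring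
        linarith
      calc Y β * ∑ β', a β β' ≤ Y β * (δ * (1 / ph (sp P β))) :=
            mul_le_mul_of_nonneg_left h5 (hY0 β)
        _ = δ * (Y β / ph (sp P β)) := by ring
  have hhalf : ∑ β, ∑ β', Y β' * a β β' = ∑ β, ∑ β', Y β * a β β' := by
    rw [Finset.sum_comm]
    refine Finset.sum_congr rfl fun β _ => Finset.sum_congr rfl fun β' _ => ?_
    rw [hasymm]
  calc |∑ β, ∑ β', (if β = β' then 0 else y β * y β' * v β β' * KK P β β')|
      ≤ ∑ β, ∑ β', |if β = β' then 0 else y β * y β' * v β β' * KK P β β'| :=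
        (Finset.abs_sum_le_sum_abs _ _).trans
          (Finset.sum_le_sum fun β _ => Finset.abs_sum_le_sum_abs _ _)
    _ ≤ ∑ β, ∑ β', ((1 / 2) * (Y β * a β β') + (1 / 2) * (Y β' * a β β')) := by
        refine Finset.sum_le_sum fun β _ => Finset.sum_le_sum fun β' _ => ?_
        by_cases h : β = β'
        · rw [if_pos h, abs_zero]
          have h1 := mul_nonneg (hY0 β) (ha0 β β')
          have h2 := mul_nonneg (hY0 β') (ha0 β β')
          linarith
        · rw [if_neg h, abs_mul, abs_mul, abs_mul, abs_of_nonneg (hv0 β β')]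
          have h1 : a β β' = |KK P β β'| := if_neg h
          rw [h1]
          have h2 : |y β| * |y β'| ≤ (1 / 2) * y β ^ 2 + (1 / 2) * y β' ^ 2 := by
            have := sq_nonneg (|y β| - |y β'|)
            rw [sub_sq, sq_abs, sq_abs] at this
            linarith
          have h4 : |y β| * |y β'| * v β β' ≤ (1 / 2) * Y β + (1 / 2) * Y β' := by
            calc |y β| * |y β'| * v β β'
                ≤ ((1 / 2) * y β ^ 2 + (1 / 2) * y β' ^ 2) * v β β' :=
                  mul_le_mul_of_nonneg_right h2 (hv0 β β')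
              _ = (1 / 2) * (y β ^ 2 * v β β') + (1 / 2) * (y β' ^ 2 * v β β') := by ring
              _ ≤ (1 / 2) * Y β + (1 / 2) * Y β' := by
                  have h5 : y β ^ 2 * v β β' ≤ Y β :=
                    mul_le_mul_of_nonneg_left (hv1 β β') (sq_nonneg _)
                  have h6 : y β' ^ 2 * v β β' ≤ Y β' :=
                    mul_le_mul_of_nonneg_left (hv2 β β') (sq_nonneg _)
                  linarith
          have h3 := mul_le_mul_of_nonneg_right h4 (abs_nonneg (KK P β β'))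
          linarith
    _ = ∑ β, Y β * ∑ β', a β β' := by
        simp only [Finset.sum_add_distrib, ← Finset.mul_sum]
        simp only [Finset.mul_sum] at hhalf ⊢
        rw [← Finset.sum_add_distrib]
        have h1 : ∑ β, ∑ β', (1 / 2 : ℝ) * (Y β' * a β β') =
            ∑ β, ∑ β', (1 / 2 : ℝ) * (Y β * a β β') := by
          simp only [← Finset.mul_sum]
          rw [show ∑ β, ∑ β', Y β' * a β β' = ∑ β, Y β * ∑ β', a β β' by
            rw [hhalf]
            simp only [Finset.mul_sum]]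
        rw [Finset.sum_add_distrib, h1, ← Finset.sum_add_distrib]
        refine Finset.sum_congr rfl fun β _ => ?_
        rw [← Finset.sum_add_distrib]
        refine Finset.sum_congr rfl fun β' _ => ?_
        ring
    _ ≤ ∑ β, δ * (Y β / ph (sp P β)) := Finset.sum_le_sum fun β _ => hrow β
    _ = δ * ∑ β, y β ^ 2 * v₀ β / ph (sp P β) := by
        rw [Finset.mul_sum]

end Pool.Agent.LibLG5
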