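import Pool.Agent.LibLG5.SS
import Pool.Agent.LibLG5.NT
import Pool.Agent.LibLG5.Q1
import Pool.Agent.LibRG87.R0

/-!
Row Q4: absolute mass.
-/

open Finset Filter

namespace Pool.Agent.LibLG5

open Pool.Agent.LibRG87

/-- the local sum -/
theorem Q4_local {ι : Type} [Fintype ι] [DecidableEq ι] (b : ι → ℕ) {p : ℕ} (hp : p.Prime)
    (B : Finset ι) (K : ℕ) (hB : B.card ≤ 2 * K) :
    ∑ o ∈ Finset.insertNone B, ∑ o' ∈ Finset.insertNone B, am b p o o' ≤
      (1 + 1 / ((p : ℝ) - 1)) ^ (2 * (2 * K + 1) ^ 2) := by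
  classical
  have hp2 : (2 : ℝ) ≤ p := by exact_mod_cast hp.two_le
  have hp0 : (0 : ℝ) < p := by linarith
  have h1 : ∀ o o' : Option ι, am b p o o' ≤
      (if o = none then (1 : ℝ) else 0) * (if o' = none then (1 : ℝ) else 0) + 2 / p := by
    intro o o'
    by_cases h : o = none ∧ o' = none
    · rw [h.1, h.2, am_none b hp]
      simp
      positivity
    · refine (am_le b hp o o' h).trans ?_
      have : (0 : ℝ) ≤ (if o = none then (1 : ℝ) else 0) * (if o' = none then (1 : ℝ) else 0) := by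
        positivity
      linarith
  have hnone : ∑ o ∈ Finset.insertNone B, (if o = none then (1 : ℝ) else 0) = 1 := by
    rw [Finset.sum_ite_eq']
    simp
  have h2 : ∑ o ∈ Finset.insertNone B, ∑ o' ∈ Finset.insertNone B, am b p o o' ≤
      1 + ((B.card : ℝ) + 1) ^ 2 * (2 / p) := by
    calc ∑ o ∈ Finset.insertNone B, ∑ o' ∈ Finset.insertNone B, am b p o o'
        ≤ ∑ o ∈ Finset.insertNone B, ∑ o' ∈ Finset.insertNone B,
          ((if o = none then (1 : ℝ) else 0) * (if o' = none then (1 : ℝ) else 0) + 2 / p) :=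
          Finset.sum_le_sum fun o _ => Finset.sum_le_sum fun o' _ => h1 o o'
      _ = 1 + ((B.card : ℝ) + 1) ^ 2 * (2 / p) := by
          simp only [Finset.sum_add_distrib, ← Finset.mul_sum, hnone, mul_one,
            Finset.sum_const, Finset.card_insertNone, nsmul_eq_mul]
          push_cast
          ring
  refine h2.trans ?_
  have h3 : ((B.card : ℝ) + 1) ^ 2 * (2 / p) ≤ ((2 * (2 * K + 1) ^ 2 : ℕ) : ℝ) * (1 / ((p : ℝ) - 1)) := by
    have h4 : (B.card : ℝ) + 1 ≤ 2 * K + 1 := by
      have : (B.card : ℝ) ≤ 2 * K := by exact_mod_cast hB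
      linarith
    have h5 : ((B.card : ℝ) + 1) ^ 2 ≤ (2 * K + 1) ^ 2 := pow_le_pow_left₀ (by positivity) h4 2
    have h6 : (2 : ℝ) / p ≤ 2 * (1 / ((p : ℝ) - 1)) := by
      rw [mul_one_div]
      exact div_le_div_of_nonneg_left (by norm_num) (by linarith) (by linarith)
    calc ((B.card : ℝ) + 1) ^ 2 * (2 / p) ≤ (2 * K + 1) ^ 2 * (2 * (1 / ((p : ℝ) - 1))) :=
          mul_le_mul h5 h6 (by positivity) (by positivity)
      _ = _ := by push_cast; ring
  have h7 := one_add_mul_le_pow (a := 1 / ((p : ℝ) - 1)) (by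
    have : (0 : ℝ) ≤ 1 / ((p : ℝ) - 1) := by
      apply div_nonneg zero_le_one
      linarith
    linarith) (2 * (2 * K + 1) ^ 2)
  linarith

theorem Q4_inner {ι : Type} [Fintype ι] [DecidableEq ι] (P : Finset ℕ)
    (hP : ∀ p ∈ P, Nat.Prime p) (b : ι → ℕ) (B : Finset ι) (K : ℕ) (hB : B.card ≤ 2 * K) :
    ∑ β ∈ Fintype.piFinset (fun _ : P => Finset.insertNone B),
      ∑ β' ∈ Fintype.piFinset (fun _ : P => Finset.insertNone B), AM P b β β' ≤
      (∏ p ∈ P, (1 + 1 / ((p : ℝ) - 1))) ^ (2 * (2 * K + 1) ^ 2) := by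
  classical
  have h1 : ∑ β ∈ Fintype.piFinset (fun _ : P => Finset.insertNone B),
      ∑ β' ∈ Fintype.piFinset (fun _ : P => Finset.insertNone B), AM P b β β' =
      ∏ p : P, ∑ o ∈ Finset.insertNone B, ∑ o' ∈ Finset.insertNone B, am b (p : ℕ) o o' := by
    rw [Finset.prod_univ_sum]
    apply Finset.sum_congr rfl
    intro β _
    rw [Finset.prod_univ_sum]
    rfl
  rw [h1, ← Finset.prod_pow, ← Finset.prod_coe_sort P]
  apply Finset.prod_le_prod
  · intro p _
    exact Finset.sum_nonneg fun o _ => Finset.sum_nonneg fun o' _ => am_nonneg b _ o o'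
  · intro p _
    exact Q4_local b (hP p p.2) B K hB

/-- the number of small subsets, weighted -/
theorem Q4_count {ι : Type} [Fintype ι] [DecidableEq ι] (v Λ : ℝ) (hv : 0 ≤ v) (n : ℕ)
    (hΛ : 1 ≤ Λ) (h : (Fintype.card ι : ℝ) * v ≤ Λ) :
    ∑ B ∈ (Finset.univ : Finset (Finset ι)).filter (fun B => B.card ≤ n), v ^ B.card ≤
      (1 + Λ) ^ n := by
  classical
  have h1 : (Finset.univ : Finset (Finset ι)).filter (fun B => B.card ≤ n) =
      (range (n + 1)).biUnion (fun j => Finset.powersetCard j (Finset.univ : Finset ι)) := by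
    ext B
    simp only [mem_filter, mem_univ, true_and, mem_biUnion, mem_range, mem_powersetCard,
      subset_univ, exists_eq_right']
    omega
  rw [h1, Finset.sum_biUnion]
  · have h3 : ∀ j ∈ range (n + 1), ∑ B ∈ Finset.powersetCard j (Finset.univ : Finset ι),
        v ^ B.card ≤ Λ ^ j := by
      intro j _
      calc ∑ B ∈ Finset.powersetCard j (Finset.univ : Finset ι), v ^ B.card
          = ∑ B ∈ Finset.powersetCard j (Finset.univ : Finset ι), v ^ j :=
            Finset.sum_congr rfl fun B hB => by rw [(mem_powersetCard.mp hB).2]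
        _ = ((Fintype.card ι).choose j : ℝ) * v ^ j := by
            rw [Finset.sum_const, Finset.card_powersetCard, Finset.card_univ, nsmul_eq_mul]
        _ ≤ (Fintype.card ι : ℝ) ^ j * v ^ j := by
            apply mul_le_mul_of_nonneg_right _ (pow_nonneg hv j)
            exact_mod_cast Nat.choose_le_pow _ _
        _ = ((Fintype.card ι : ℝ) * v) ^ j := by rw [mul_pow]
        _ ≤ Λ ^ j := pow_le_pow_left₀ (by positivity) h j
    calc ∑ j ∈ range (n + 1), ∑ B ∈ Finset.powersetCard j (Finset.univ : Finset ι), v ^ B.card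
        ≤ ∑ j ∈ range (n + 1), Λ ^ j := Finset.sum_le_sum h3
      _ ≤ ∑ j ∈ range (n + 1), Λ ^ j * 1 ^ (n - j) * (n.choose j : ℝ) := by
          apply Finset.sum_le_sum
          intro j hj
          have : 1 ≤ n.choose j := Nat.choose_pos (by have := mem_range.mp hj; omega)
          have h5 : (1 : ℝ) ≤ (n.choose j : ℝ) := by exact_mod_cast this
          rw [one_pow, mul_one]
          exact le_mul_of_one_le_right (by positivity) h5
      _ = (1 + Λ) ^ n := by rw [← add_pow, add_comm]
  · intro i _ j _ hij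
    rw [Function.onFun, Finset.disjoint_left]
    intro B hB hB'
    exact hij ((mem_powersetCard.mp hB).2.symm.trans (mem_powersetCard.mp hB').2)

theorem Q4_outer {ι : Type} [Fintype ι] [DecidableEq ι] (b : ι → ℕ) (hb : Function.Injective b)
    (E : Finset ℕ) (hE : E.card ≤ 1) (v Λ : ℝ) (hv : 0 ≤ v) (n : ℕ)
    (hΛ : 1 ≤ Λ) (h : (Fintype.card ι : ℝ) * v ≤ Λ) :
    ∑ B ∈ (Finset.univ : Finset (Finset ι)).filter (fun B => B.card ≤ n),
      v ^ (E ∪ B.image b).card ≤ v ^ E.card * (2 * (1 + Λ) ^ n) := by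
  classical
  set F : Finset ι → Finset ι := fun B => B.filter (fun i => b i ∉ E) with hF
  have hcard : ∀ B : Finset ι, (E ∪ B.image b).card = E.card + (F B).card := by
    intro B
    have h1 : E ∪ B.image b = E ∪ (F B).image b := by
      ext x
      simp only [hF, mem_union, mem_image, mem_filter]
      constructor
      · rintro (h | ⟨i, hi, rfl⟩)
        · exact Or.inl h
        · by_cases h2 : b i ∈ E
          · exact Or.inl h2
          · exact Or.inr ⟨i, ⟨hi, h2⟩, rfl⟩
      · rintro (h | ⟨i, ⟨hi, _⟩, rfl⟩)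
        · exact Or.inl h
        · exact Or.inr ⟨i, hi, rfl⟩
    rw [h1, Finset.card_union_of_disjoint, Finset.card_image_of_injective _ hb]
    rw [Finset.disjoint_left]
    intro x hx hx2
    obtain ⟨i, hi, rfl⟩ := mem_image.mp hx2
    exact (mem_filter.mp hi).2 hx
  set U := (Finset.univ : Finset (Finset ι)).filter (fun B => B.card ≤ n) with hU
  have hc := Q4_count v Λ hv n hΛ h
  rw [← hU] at hc
  have h2 : ∑ B ∈ U, v ^ (E ∪ B.image b).card = v ^ E.card * ∑ B ∈ U, v ^ (F B).card := by
    rw [Finset.mul_sum]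
    exact Finset.sum_congr rfl fun B _ => by rw [hcard, pow_add]
  rw [h2]
  apply mul_le_mul_of_nonneg_left _ (pow_nonneg hv _)
  rw [← Finset.sum_filter_add_sum_filter_not U (fun B => F B = B), two_mul]
  apply add_le_add
  · refine le_trans ?_ hc
    calc ∑ B ∈ U.filter (fun B => F B = B), v ^ (F B).card
        = ∑ B ∈ U.filter (fun B => F B = B), v ^ B.card :=
          Finset.sum_congr rfl fun B hB => by rw [(mem_filter.mp hB).2]
      _ ≤ ∑ B ∈ U, v ^ B.card := by
          apply Finset.sum_le_sum_of_subset_of_nonneg (Finset.filter_subset _ _)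
          intro B _ _
          positivity
  · refine le_trans ?_ hc
    have hinj : Set.InjOn F (U.filter (fun B => ¬ F B = B) : Set (Finset ι)) := by
      intro B1 h1 B2 h2 h12
      have a1 := (mem_filter.mp (Finset.mem_coe.mp h1)).2
      have a2 := (mem_filter.mp (Finset.mem_coe.mp h2)).2
      have key : ∀ B : Finset ι, ¬ F B = B → ∃ i ∈ B, b i ∈ E := by
        intro B hB
        by_contra hcon
        push Not at hcon
        exact hB (Finset.filter_true_of_mem hcon)
      obtain ⟨i1, hi1, hi1E⟩ := key B1 a1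
      obtain ⟨i2, hi2, hi2E⟩ := key B2 a2
      have hE1 := Finset.card_le_one.mp hE
      have hii : i1 = i2 := hb (hE1 _ hi1E _ hi2E)
      subst hii
      ext i
      by_cases hiE : b i ∈ E
      · have : i = i1 := hb (hE1 _ hiE _ hi1E)
        subst this
        simp [hi1, hi2]
      · have e1 : i ∈ B1 ↔ i ∈ F B1 := by simp [hF, hiE]
        have e2 : i ∈ B2 ↔ i ∈ F B2 := by simp [hF, hiE]
        rw [e1, e2, h12]
    calc ∑ B ∈ U.filter (fun B => ¬ F B = B), v ^ (F B).card
        = ∑ B ∈ (U.filter (fun B => ¬ F B = B)).image F, v ^ B.card :=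
          (Finset.sum_image (f := fun B : Finset ι => v ^ B.card) hinj).symm
      _ ≤ ∑ B ∈ U, v ^ B.card := by
          apply Finset.sum_le_sum_of_subset_of_nonneg
          · intro B hB
            obtain ⟨B0, hB0, rfl⟩ := mem_image.mp hB
            have := (mem_filter.mp (mem_filter.mp hB0).1).2
            rw [hU, mem_filter]
            exact ⟨mem_univ _, (Finset.card_filter_le _ _).trans this⟩
          · intro B _ _
            positivity

open scoped Classical in
theorem mass : ∃ C : ℕ, 1 ≤ C ∧ ∀ (K k : ℕ), 1 ≤ K → 1 ≤ k → ∀ᶠ z : ℕ in atTop,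
    ∀ (ι : Type) [Fintype ι] [DecidableEq ι] (b : ι → ℕ) (E : Finset ℕ) (Λ : ℝ),
      Function.Injective b → (∀ i, (b i : ℝ) ≤ Real.log z ^ 2) → (∀ x ∈ E, (x : ℝ) ≤ Real.log z ^ 2) →
      E.card ≤ 1 → 1 ≤ Λ → (Fintype.card ι : ℝ) * V1 (wf z) z ≤ Λ →
      ∑ β : PP z (z ^ k) → Option ι, ∑ β' : PP z (z ^ k) → Option ι,
          (if (sui (PP z (z ^ k)) β).card ≤ K ∧ (sui (PP z (z ^ k)) β').card ≤ K then
            VV (wf z) z (E ∪ (su (PP z (z ^ k)) b β ∪ su (PP z (z ^ k)) b β')) *
              AM (PP z (z ^ k)) b β β' else 0) ≤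
        V1 (wf z) z ^ E.card * (((C * k : ℕ) : ℝ) ^ (C * K ^ 2) * (1 + Λ) ^ (2 * K)) := by
  obtain ⟨C0, hC0, hS⟩ := NT_S_upper
  refine ⟨4 * C0 + 18, by omega, ?_⟩
  intro K k hK hk
  filter_upwards [hS k hk, VV_le_pow (2 * K + 1)] with z hz1 hz2
  intro ι _ _ b E Λ hb hb2 hE2 hE1 hΛ hcard
  set P := PP z (z ^ k) with hPdef
  have hP : ∀ p ∈ P, Nat.Prime p := by
    intro p hp
    rw [hPdef, PP, mem_filter] at hp
    exact hp.2
  set v := V1 (wf z) z with hv
  have hv0 : 0 ≤ v := (V1_pos _ _).le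
  set U := (Finset.univ : Finset (Finset ι)).filter (fun B => B.card ≤ 2 * K) with hU
  set t : Finset ι → Finset (P → Option ι) :=
    fun B => Fintype.piFinset (fun _ : P => Finset.insertNone B) with ht
  set Q : ℝ := (((C0 * k : ℕ) : ℝ)) ^ (2 * (2 * K + 1) ^ 2) with hQ
  have hQ0 : 0 ≤ Q := by positivity
  -- inner sums
  have hprod : (∏ p ∈ P, (1 + 1 / ((p : ℝ) - 1))) ^ (2 * (2 * K + 1) ^ 2) ≤ Q := by
    apply pow_le_pow_left₀
    · apply Finset.prod_nonneg
      intro p hp
      have : (2 : ℝ) ≤ p := by exact_mod_cast (hP p hp).two_le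
      have : (0 : ℝ) ≤ 1 / ((p : ℝ) - 1) := by
        apply div_nonneg zero_le_one
        linarith
      linarith
    · push_cast
      exact hz1
  have hinner : ∀ B ∈ U, ∑ β ∈ t B, ∑ β' ∈ t B, AM P b β β' ≤ Q := by
    intro B hB
    exact (Q4_inner P hP b B K (mem_filter.mp hB).2).trans hprod
  -- membership
  have hmem : ∀ (B : Finset ι) (β : P → Option ι), β ∈ t B ↔ sui P β ⊆ B := by
    intro B β
    simp only [ht, Fintype.mem_piFinset, Finset.mem_insertNone]
    constructor
    · intro h i hi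
      simp only [sui, mem_filter, mem_univ, true_and] at hi
      obtain ⟨p, hp⟩ := hi
      exact h p i (by rw [hp]; rfl)
    · intro h p i hi
      apply h
      simp only [sui, mem_filter, mem_univ, true_and]
      exact ⟨p, hi⟩
  have hstep : ∑ β : P → Option ι, ∑ β' : P → Option ι,
      (if (sui P β).card ≤ K ∧ (sui P β').card ≤ K then
        VV (wf z) z (E ∪ (su P b β ∪ su P b β')) * AM P b β β' else 0) ≤
      ∑ B ∈ U, VV (wf z) z (E ∪ B.image b) * ∑ β ∈ t B, ∑ β' ∈ t B, AM P b β β' := by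
    have hR : ∑ B ∈ U, VV (wf z) z (E ∪ B.image b) * ∑ β ∈ t B, ∑ β' ∈ t B, AM P b β β' =
        ∑ β : P → Option ι, ∑ β' : P → Option ι, ∑ B ∈ U,
          (if β ∈ t B then (if β' ∈ t B then
            VV (wf z) z (E ∪ B.image b) * AM P b β β' else 0) else 0) := by
      have h1 : ∀ B ∈ U, VV (wf z) z (E ∪ B.image b) * ∑ β ∈ t B, ∑ β' ∈ t B, AM P b β β' =
          ∑ β : P → Option ι, ∑ β' : P → Option ι,
            (if β ∈ t B then (if β' ∈ t B then
              VV (wf z) z (E ∪ B.image b) * AM P b β β' else 0) else 0) := by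
        intro B _
        rw [Finset.mul_sum]
        have h2 : ∀ β : P → Option ι, ∑ β' : P → Option ι,
            (if β ∈ t B then (if β' ∈ t B then
              VV (wf z) z (E ∪ B.image b) * AM P b β β' else 0) else 0) =
            if β ∈ t B then VV (wf z) z (E ∪ B.image b) * ∑ β' ∈ t B, AM P b β β' else 0 := by
          intro β
          split_ifs with h
          · rw [Finset.mul_sum, ← Finset.sum_filter]
            congr 1
            ext β'
            simp
          · simp
        simp only [h2]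
        rw [← Finset.sum_filter]
        congr 1
        ext β'
        simp
      rw [Finset.sum_congr rfl h1, Finset.sum_comm]
      apply Finset.sum_congr rfl
      intro β _
      rw [Finset.sum_comm]
    rw [hR]
    apply Finset.sum_le_sum
    intro β _
    apply Finset.sum_le_sum
    intro β' _
    have hnn : ∀ B ∈ U, (0 : ℝ) ≤ (if β ∈ t B then (if β' ∈ t B then
            VV (wf z) z (E ∪ B.image b) * AM P b β β' else 0) else 0) := by
      intro B _
      split_ifs
      · exact mul_nonneg (VV_nonneg _ _ _) (AM_nonneg _ _ _ _)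
      · exact le_rfl
      · exact le_rfl
    split_ifs with hc
    · have hBU : sui P β ∪ sui P β' ∈ U := by
        rw [hU, mem_filter]
        refine ⟨mem_univ _, (Finset.card_union_le _ _).trans ?_⟩
        omega
      refine le_trans ?_ (Finset.single_le_sum hnn hBU)
      rw [if_pos ((hmem _ _).mpr Finset.subset_union_left),
        if_pos ((hmem _ _).mpr Finset.subset_union_right)]
      rw [su, su, ← Finset.image_union]
    · exact Finset.sum_nonneg hnn
  refine hstep.trans ?_
  have hVV : ∀ B ∈ U, VV (wf z) z (E ∪ B.image b) ≤ 2 * v ^ (E ∪ B.image b).card := by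
    intro B hB
    have hBc := (mem_filter.mp hB).2
    apply hz2
    · refine (Finset.card_union_le _ _).trans ?_
      have := Finset.card_image_le (s := B) (f := b)
      omega
    · intro a ha
      rcases mem_union.mp ha with h | h
      · exact hE2 a h
      · obtain ⟨i, _, rfl⟩ := mem_image.mp h
        exact hb2 i
  have hsum : ∑ B ∈ U, VV (wf z) z (E ∪ B.image b) * ∑ β ∈ t B, ∑ β' ∈ t B, AM P b β β' ≤
      (v ^ E.card * (2 * (1 + Λ) ^ (2 * K))) * 2 * Q := by
    calc ∑ B ∈ U, VV (wf z) z (E ∪ B.image b) * ∑ β ∈ t B, ∑ β' ∈ t B, AM P b β β'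
        ≤ ∑ B ∈ U, (2 * v ^ (E ∪ B.image b).card) * Q := by
          apply Finset.sum_le_sum
          intro B hB
          apply mul_le_mul (hVV B hB) (hinner B hB)
          · exact Finset.sum_nonneg fun β _ => Finset.sum_nonneg fun β' _ => AM_nonneg _ _ _ _
          · positivity
      _ = (∑ B ∈ U, v ^ (E ∪ B.image b).card) * 2 * Q := by
          rw [Finset.sum_mul, Finset.sum_mul]
          exact Finset.sum_congr rfl fun B _ => by ring
      _ ≤ _ := by
          apply mul_le_mul_of_nonneg_right _ hQ0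
          apply mul_le_mul_of_nonneg_right _ (by norm_num)
          exact Q4_outer b hb E hE1 v Λ hv0 (2 * K) hΛ hcard
  refine hsum.trans ?_
  have hk1 : (1 : ℝ) ≤ k := by exact_mod_cast hk
  have hC1 : (1 : ℝ) ≤ C0 := by exact_mod_cast hC0
  have hbase : 1 ≤ C0 * k := Nat.one_le_iff_ne_zero.mpr (by positivity)
  have hQ2 : 4 * Q ≤ ((((4 * C0 + 18) * k : ℕ) : ℝ)) ^ ((4 * C0 + 18) * K ^ 2) := by
    have e1 : 2 * (2 * K + 1) ^ 2 ≤ 18 * K ^ 2 := by nlinarith
    have e2 : Q ≤ (((C0 * k : ℕ) : ℝ)) ^ (18 * K ^ 2) :=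
      pow_le_pow_right₀ (by exact_mod_cast hbase) e1
    have e3 : (4 : ℝ) ≤ 4 ^ (18 * K ^ 2) := by
      have : 1 ≤ 18 * K ^ 2 := by nlinarith
      calc (4 : ℝ) = 4 ^ 1 := by norm_num
        _ ≤ 4 ^ (18 * K ^ 2) := pow_le_pow_right₀ (by norm_num) this
    calc 4 * Q ≤ 4 ^ (18 * K ^ 2) * (((C0 * k : ℕ) : ℝ)) ^ (18 * K ^ 2) :=
          mul_le_mul e3 e2 hQ0 (by positivity)
      _ = (4 * ((C0 * k : ℕ) : ℝ)) ^ (18 * K ^ 2) := by rw [mul_pow]
      _ ≤ ((((4 * C0 + 18) * k : ℕ) : ℝ)) ^ (18 * K ^ 2) := by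
          apply pow_le_pow_left₀ (by positivity)
          push_cast
          nlinarith
      _ ≤ _ := by
          apply pow_le_pow_right₀
          · have : 1 ≤ (4 * C0 + 18) * k := Nat.one_le_iff_ne_zero.mpr (by positivity)
            exact_mod_cast this
          · apply Nat.mul_le_mul_right
            omega
  calc (v ^ E.card * (2 * (1 + Λ) ^ (2 * K))) * 2 * Q
      = v ^ E.card * ((4 * Q) * (1 + Λ) ^ (2 * K)) := by ring
    _ ≤ _ := by
        apply mul_le_mul_of_nonneg_left _ (by positivity)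
        apply mul_le_mul_of_nonneg_right hQ2
        have : 0 ≤ 1 + Λ := by linarith
        positivity

end Pool.Agent.LibLG5
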