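import Pool.Agent.LibLG5.Defs
import Pool.Agent.LibRG87.R0

/-!
Row Q5: number of configurations. `rr (sp β) ≤ z^kk` and all primes `> z ≥ 2` give `card (sp β) ≤ kk`.
`β` is determined by the set `A = sp β` (at most `z^kk` sets, because `A ↦ ∏ A` is injective on sets of primes and
`∏ A ≤ z^kk`) and a map `A → ι` (at most `(card ι)^kk` maps, `card ι ≥ 1`; if `ι` is empty there is one `β`).
So the number is at most `(z^kk + 1) * (card ι + 1)^kk`.
-/

open Finset

namespace Pool.Agent.LibLG5

open Pool.Agent.LibRG87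

theorem Q5_prime {z u p : ℕ} (hp : p ∈ PP z u) : p.Prime := by
  unfold PP at hp
  exact (Finset.mem_filter.1 hp).2

theorem Q5_gt {z u p : ℕ} (hp : p ∈ PP z u) : z < p := by
  unfold PP at hp
  exact (Finset.mem_Ioc.1 (Finset.mem_filter.1 hp).1).1

theorem card_sp_le {ι : Type} [Fintype ι] [DecidableEq ι] {z u kk : ℕ} (hz : 2 ≤ z)
    (β : PP z u → Option ι) (h : rr (sp (PP z u) β) ≤ (z : ℝ) ^ kk) : (sp (PP z u) β).card ≤ kk := by
  have h1 : (z : ℝ) ^ (sp (PP z u) β).card ≤ rr (sp (PP z u) β) := by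
    unfold rr
    rw [← Finset.prod_const]
    refine Finset.prod_le_prod (fun _ _ => Nat.cast_nonneg z) fun p hp => ?_
    exact_mod_cast (Q5_gt (sp_subset _ β hp)).le
  have hz1 : (1 : ℝ) < z := by exact_mod_cast (by omega : 1 < z)
  exact (pow_le_pow_iff_right₀ hz1).1 (h1.trans h)

open scoped Classical in
theorem card_cfg {ι : Type} [Fintype ι] [DecidableEq ι] {z u kk : ℕ} (hz : 2 ≤ z) :
    (((Finset.univ : Finset (PP z u → Option ι)).filter
        (fun β => rr (sp (PP z u) β) ≤ (z : ℝ) ^ kk)).card : ℝ) ≤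
      ((z : ℝ) ^ kk + 1) * ((Fintype.card ι : ℝ) + 1) ^ kk := by
  set s := (Finset.univ : Finset (PP z u → Option ι)).filter
        (fun β => rr (sp (PP z u) β) ≤ (z : ℝ) ^ kk) with hs
  have hfib : ∀ A ∈ s.image (sp (PP z u)),
      (s.filter (fun β => sp (PP z u) β = A)).card ≤ (Fintype.card ι + 1) ^ kk := by
    intro A hA
    rw [Finset.mem_image] at hA
    obtain ⟨β₀, hβ₀, rfl⟩ := hA
    rw [hs, Finset.mem_filter] at hβ₀
    have hcard := card_sp_le hz β₀ hβ₀.2
    let g : (PP z u → Option ι) → (sp (PP z u) β₀ → Option ι) := fun β a =>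
      if h : (a : ℕ) ∈ PP z u then β ⟨a, h⟩ else none
    have hinj : Set.InjOn g (s.filter (fun β => sp (PP z u) β = sp (PP z u) β₀) : Set _) := by
      intro β hβ β' hβ' hg
      rw [Finset.mem_coe, Finset.mem_filter] at hβ hβ'
      funext p
      by_cases hp : (p : ℕ) ∈ sp (PP z u) β₀
      · have h1 := congrFun hg ⟨p, hp⟩
        simp only [g] at h1
        rw [dif_pos p.2, dif_pos p.2] at h1
        exact h1
      · have h1 : β p = none := by
          by_contra hne
          apply hp
          rw [← hβ.2, mem_sp]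
          exact ⟨p.2, hne⟩
        have h2 : β' p = none := by
          by_contra hne
          apply hp
          rw [← hβ'.2, mem_sp]
          exact ⟨p.2, hne⟩
        rw [h1, h2]
    have h3 := Finset.card_le_card_of_injOn g (t := Finset.univ)
      (fun β _ => Finset.mem_coe.2 (Finset.mem_univ (g β))) hinj
    have h4 : (Finset.univ : Finset (sp (PP z u) β₀ → Option ι)).card =
        (Fintype.card ι + 1) ^ (sp (PP z u) β₀).card := by
      rw [Finset.card_univ, Fintype.card_fun, Fintype.card_option, Fintype.card_coe]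
    rw [h4] at h3
    exact h3.trans (Nat.pow_le_pow_right (by omega) hcard)
  have h1 := Finset.card_le_mul_card_image s ((Fintype.card ι + 1) ^ kk) hfib
  have h2 : (s.image (sp (PP z u))).card ≤ z ^ kk + 1 := by
    have h3 : (s.image (sp (PP z u))).card ≤ (Finset.range (z ^ kk + 1)).card := by
      refine Finset.card_le_card_of_injOn (fun A => ∏ p ∈ A, p) ?_ ?_
      · intro A hA
        rw [Finset.mem_coe, Finset.mem_image] at hA
        obtain ⟨β, hβ, rfl⟩ := hA
        rw [hs, Finset.mem_filter] at hβ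
        rw [Finset.mem_coe, Finset.mem_range]
        have h4 : ((∏ p ∈ sp (PP z u) β, p : ℕ) : ℝ) ≤ ((z ^ kk : ℕ) : ℝ) := by
          push_cast
          exact hβ.2
        have h5 : (∏ p ∈ sp (PP z u) β, p : ℕ) ≤ z ^ kk := by exact_mod_cast h4
        exact Nat.lt_succ_of_le h5
      · intro A hA B hB hAB
        rw [Finset.mem_coe, Finset.mem_image] at hA hB
        obtain ⟨β, -, rfl⟩ := hA
        obtain ⟨β', -, rfl⟩ := hB
        have h6 : Nat.primeFactors (∏ p ∈ sp (PP z u) β, p) = sp (PP z u) β :=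
          Nat.primeFactors_prod fun p hp => Q5_prime (sp_subset _ β hp)
        have h7 : Nat.primeFactors (∏ p ∈ sp (PP z u) β', p) = sp (PP z u) β' :=
          Nat.primeFactors_prod fun p hp => Q5_prime (sp_subset _ β' hp)
        rw [← h6, ← h7]
        exact congrArg Nat.primeFactors hAB
    rwa [Finset.card_range] at h3
  have h8 : s.card ≤ (z ^ kk + 1) * (Fintype.card ι + 1) ^ kk := by
    calc s.card ≤ (Fintype.card ι + 1) ^ kk * (s.image (sp (PP z u))).card := h1
      _ ≤ (Fintype.card ι + 1) ^ kk * (z ^ kk + 1) := Nat.mul_le_mul_left _ h2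
      _ = (z ^ kk + 1) * (Fintype.card ι + 1) ^ kk := Nat.mul_comm _ _
  exact_mod_cast h8

end Pool.Agent.LibLG5
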