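import Pool.Agent.LibLG5.Q2
import Pool.Agent.LibLG5.Q3
import Pool.Agent.LibLG5.Q4
import Pool.Agent.LibLG5.Q5

/-!
Row Q6: the quadratic form lemma. Expand the square (`Finset.sum_mul_sum`), exchange sums; `rho B * rho B' = rho (B ∪ B')`;
for each pair `B = E ∪ su β ∪ su β'` (card ≤ 2K+1): `pairLem` with `k := 2K+1`. Main terms: diagonal `β = β'` is `dg`
(`KK_self`), the others are `≤ δ dg` by `off_diag` with `v β β' = VV (E ∪ su β ∪ su β')`, `v₀ β = VV (E ∪ su β)` (`VV_anti`),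
`δ = z^(-1/2)`: `∏_{p ∈ sp β} (1 + N/(p-1)) ≤ (1 + N/(z-1))^kk`, `N ≤ log^2 z + 1` (positions are distinct naturals `≤ log^2 z`).
Error: `eps0 * mass` (`|y| ≤ 1`) and the remainders: (number of pairs)² `z^(2 b0+6) 4^kk / M ≤ z^(-1/2) V1` as
`M ≥ z^(2 kk + 2 b0 + 12)` and number `≤ (z^kk+1)(N+1)^kk`, `V1 ≥ 1/z` (crude: `V1 ≥ ∏_{n=2}^{z} (1-1/n) = 1/z`).
`b` distinct mod `p`: distinct naturals `≤ log^2 z < z < p`. `errQF C K k b0 Λ ≤ 1` gives `eps0 C (2K+1) b0 ≤ 1` (the other factors are `≥ 1`);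
`C` = maximum of the constants of `pairLem` and `mass` (everything is monotone in `C`; `pairLem` with a larger constant: `eps0` is monotone).
-/

open Finset Filter

namespace Pool.Agent.LibLG5

open Pool.Agent.LibRG87

/-- the quadratic form property -/
def QFprop (C : ℕ) : Prop :=
  ∀ (K kk k b0 : ℕ) (Λ : ℝ), 1 ≤ K → 1 ≤ kk → 1 ≤ k → Even b0 → 1 ≤ Λ → errQF C K k b0 Λ ≤ 1 →
    ∀ᶠ z : ℕ in atTop,
    ∀ (ι : Type) [Fintype ι] [DecidableEq ι] (b : ι → ℕ) (c M : ℕ) (E : Finset ℕ)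
      (y : (PP z (z ^ k) → Option ι) → ℝ),
      Function.Injective b → (∀ i, (b i : ℝ) ≤ Real.log z ^ 2) → (∀ x ∈ E, (x : ℝ) ≤ Real.log z ^ 2) →
      E.card ≤ 1 → (Fintype.card ι : ℝ) * V1 (wf z) z ≤ Λ → (∀ β, |y β| ≤ 1) →
      (∀ β, y β ≠ 0 → rr (sp (PP z (z ^ k)) β) ≤ (z : ℝ) ^ kk ∧ (sui (PP z (z ^ k)) β).card ≤ K) →
      z ^ (2 * kk + 2 * b0 + 12) ≤ M →
      |avg M (fun m => PhiR (PP z (z ^ k)) (wf z) z b y E (c + primorial (wf z) * m) ^ 2) -
          dg (PP z (z ^ k)) (wf z) z b E y| ≤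
        (1 / Real.sqrt z) * dg (PP z (z ^ k)) (wf z) z b E y +
          V1 (wf z) z ^ E.card * (errQF C K k b0 Λ + 1 / Real.sqrt z)

section basic

variable {ι : Type} [Fintype ι] [DecidableEq ι] (P : Finset ℕ)

theorem Q6_rho_mul (w z : ℕ) (A B : Finset ℕ) (n : ℕ) :
    rho w z A n * rho w z B n = rho w z (A ∪ B) n := by
  unfold rho
  by_cases hA : ∀ a ∈ A, ∀ p ∈ PP w z, ¬ p ∣ n + a
  · by_cases hB : ∀ a ∈ B, ∀ p ∈ PP w z, ¬ p ∣ n + a
    · rw [if_pos hA, if_pos hB, if_pos, mul_one]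
      intro a ha
      rcases Finset.mem_union.mp ha with h | h
      · exact hA a h
      · exact hB a h
    · rw [if_neg hB, mul_zero, if_neg]
      intro h
      exact hB fun a ha => h a (Finset.mem_union_right A ha)
  · rw [if_neg hA, zero_mul, if_neg]
    intro h
    exact hA fun a ha => h a (Finset.mem_union_left B ha)

theorem Q6_sq (w z : ℕ) (b : ι → ℕ) (y : (P → Option ι) → ℝ) (E : Finset ℕ) (n : ℕ) :
    PhiR P w z b y E n ^ 2 = ∑ β, ∑ β', y β * y β' *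
      (rho w z (E ∪ (su P b β ∪ su P b β')) n * (ee P b β n * ee P b β' n)) := by
  unfold PhiR
  rw [sq, Finset.sum_mul_sum]
  refine Finset.sum_congr rfl fun β _ => Finset.sum_congr rfl fun β' _ => ?_
  have h1 : E ∪ (su P b β ∪ su P b β') = (E ∪ su P b β) ∪ (E ∪ su P b β') := by
    ext a
    simp only [Finset.mem_union]
    tauto
  rw [h1, ← Q6_rho_mul w z (E ∪ su P b β) (E ∪ su P b β') n]
  ring

theorem Q6_avg (w z : ℕ) (b : ι → ℕ) (y : (P → Option ι) → ℝ) (E : Finset ℕ) (M : ℕ) (g : ℕ → ℕ) :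
    avg M (fun m => PhiR P w z b y E (g m) ^ 2) = ∑ β, ∑ β', y β * y β' *
      ((∑ m ∈ range M, rho w z (E ∪ (su P b β ∪ su P b β')) (g m) *
        (ee P b β (g m) * ee P b β' (g m))) / M) := by
  unfold avg
  have h1 : ∑ m ∈ range M, PhiR P w z b y E (g m) ^ 2 = ∑ β, ∑ β', y β * y β' *
      (∑ m ∈ range M, rho w z (E ∪ (su P b β ∪ su P b β')) (g m) *
        (ee P b β (g m) * ee P b β' (g m))) := by
    simp only [Q6_sq, Finset.mul_sum]
    rw [Finset.sum_comm]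
    refine Finset.sum_congr rfl fun β _ => ?_
    rw [Finset.sum_comm]
  rw [h1, Finset.sum_div]
  refine Finset.sum_congr rfl fun β _ => ?_
  rw [Finset.sum_div]
  refine Finset.sum_congr rfl fun β' _ => ?_
  rw [mul_div_assoc]

theorem Q6_su_card (b : ι → ℕ) (β : P → Option ι) : (su P b β).card ≤ (sui P β).card :=
  Finset.card_image_le

theorem Q6_split {α : Type} [Fintype α] [DecidableEq α] (f : α → α → ℝ) :
    ∑ β, ∑ β', f β β' = ∑ β, f β β + ∑ β, ∑ β', if β = β' then 0 else f β β' := by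
  rw [← Finset.sum_add_distrib]
  refine Finset.sum_congr rfl fun β _ => ?_
  have h1 : ∀ β', f β β' = (if β = β' then f β β' else 0) + (if β = β' then 0 else f β β') := by
    intro β'
    by_cases h : β = β' <;> simp [h]
  rw [Finset.sum_congr rfl fun β' _ => h1 β', Finset.sum_add_distrib, Finset.sum_ite_eq]
  simp

end basic

theorem Q6_prod_Icc (z : ℕ) (hz : 1 ≤ z) : ∏ n ∈ Finset.Icc 2 z, (1 - 1 / (n : ℝ)) = 1 / z := by
  induction z, hz using Nat.le_induction with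
  | base => simp
  | succ n hn ih =>
      rw [← Finset.insert_Icc_right_eq_Icc_add_one (by omega), Finset.prod_insert (by simp), ih]
      have h0 : (n : ℝ) ≠ 0 := by positivity
      push_cast
      field_simp
      ring

theorem Q6_V1_lower {w z : ℕ} (hz : 1 ≤ z) : 1 / (z : ℝ) ≤ V1 w z := by
  rw [← Q6_prod_Icc z hz, V1]
  have hsub : PP w z ⊆ Finset.Icc 2 z := by
    intro p hp
    rw [PP, Finset.mem_filter, Finset.mem_Ioc] at hp
    exact Finset.mem_Icc.mpr ⟨hp.2.two_le, hp.1.2⟩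
  refine Finset.prod_le_prod_of_subset_of_le_one hsub (fun n hn => ?_) (fun n hn _ => ?_)
  · have h2 : (2 : ℝ) ≤ n := by exact_mod_cast (Finset.mem_Icc.mp hn).1
    have : 1 / (n : ℝ) ≤ 1 := by
      rw [div_le_one (by linarith)]
      linarith
    linarith
  · have : 0 ≤ 1 / (n : ℝ) := by positivity
    linarith


open scoped Classical in
/-- the deterministic part -/
theorem Q6_det {ι : Type} [Fintype ι] [DecidableEq ι] (P : Finset ℕ)
    (w z : ℕ) (b : ι → ℕ) (y : (P → Option ι) → ℝ) (E : Finset ℕ) (M : ℕ) (g : ℕ → ℕ)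
    {e0 Z δ m0 r : ℝ} {K kk : ℕ} (hM : 0 < M) (he0 : 0 ≤ e0) (hZ : 0 ≤ Z)
    (hpair : ∀ β β', y β ≠ 0 → y β' ≠ 0 →
      |∑ m ∈ range M, rho w z (E ∪ (su P b β ∪ su P b β')) (g m) *
          (ee P b β (g m) * ee P b β' (g m)) -
        M * VV w z (E ∪ (su P b β ∪ su P b β')) * KK P β β'| ≤
        e0 * M * VV w z (E ∪ (su P b β ∪ su P b β')) * AM P b β β' + Z)
    (hy : ∀ β, |y β| ≤ 1)
    (hy2 : ∀ β, y β ≠ 0 → rr (sp P β) ≤ (z : ℝ) ^ kk ∧ (sui P β).card ≤ K)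
    (hoff : |∑ β, ∑ β', if β = β' then 0 else y β * y β' *
        VV w z (E ∪ (su P b β ∪ su P b β')) * KK P β β'| ≤ δ * dg P w z b E y)
    (hmass : ∑ β : P → Option ι, ∑ β' : P → Option ι,
        (if (sui P β).card ≤ K ∧ (sui P β').card ≤ K then
          VV w z (E ∪ (su P b β ∪ su P b β')) * AM P b β β' else 0) ≤ m0)
    (hr : ((((Finset.univ : Finset (P → Option ι)).filter
        (fun β => rr (sp P β) ≤ (z : ℝ) ^ kk)).card : ℝ)) ^ 2 * (Z / M) ≤ r) :
    |avg M (fun m => PhiR P w z b y E (g m) ^ 2) - dg P w z b E y| ≤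
      δ * dg P w z b E y + (e0 * m0 + r) := by
  have hM' : (0 : ℝ) < M := by exact_mod_cast hM
  -- the main term
  have hmain : ∑ β, ∑ β', y β * y β' * VV w z (E ∪ (su P b β ∪ su P b β')) * KK P β β' =
      dg P w z b E y + ∑ β, ∑ β', if β = β' then 0 else y β * y β' *
        VV w z (E ∪ (su P b β ∪ su P b β')) * KK P β β' := by
    rw [Q6_split]
    congr 1
    unfold dg
    refine Finset.sum_congr rfl fun β _ => ?_
    rw [Finset.union_self, KK_self]
    ring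
  have hdiff : avg M (fun m => PhiR P w z b y E (g m) ^ 2) - dg P w z b E y =
      (∑ β, ∑ β', if β = β' then 0 else y β * y β' *
        VV w z (E ∪ (su P b β ∪ su P b β')) * KK P β β') +
      ∑ β, ∑ β', y β * y β' * ((∑ m ∈ range M, rho w z (E ∪ (su P b β ∪ su P b β')) (g m) *
        (ee P b β (g m) * ee P b β' (g m))) / M -
        VV w z (E ∪ (su P b β ∪ su P b β')) * KK P β β') := by
    have h1 : ∑ β, ∑ β', y β * y β' * ((∑ m ∈ range M,
        rho w z (E ∪ (su P b β ∪ su P b β')) (g m) *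
        (ee P b β (g m) * ee P b β' (g m))) / M -
        VV w z (E ∪ (su P b β ∪ su P b β')) * KK P β β') =
        avg M (fun m => PhiR P w z b y E (g m) ^ 2) -
        ∑ β, ∑ β', y β * y β' * VV w z (E ∪ (su P b β ∪ su P b β')) * KK P β β' := by
      rw [Q6_avg, ← Finset.sum_sub_distrib]
      refine Finset.sum_congr rfl fun β _ => ?_
      rw [← Finset.sum_sub_distrib]
      refine Finset.sum_congr rfl fun β' _ => ?_
      ring
    rw [h1, hmain]
    ring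
  -- the error of one pair
  have hone : ∀ β β', |y β * y β' * ((∑ m ∈ range M,
      rho w z (E ∪ (su P b β ∪ su P b β')) (g m) *
        (ee P b β (g m) * ee P b β' (g m))) / M -
        VV w z (E ∪ (su P b β ∪ su P b β')) * KK P β β')| ≤
      e0 * (if (sui P β).card ≤ K ∧ (sui P β').card ≤ K then
          VV w z (E ∪ (su P b β ∪ su P b β')) * AM P b β β' else 0) +
      (if rr (sp P β) ≤ (z : ℝ) ^ kk then 1 else 0) *
        (if rr (sp P β') ≤ (z : ℝ) ^ kk then 1 else 0) * (Z / M) := by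
    intro β β'
    have hnn : 0 ≤ e0 * (if (sui P β).card ≤ K ∧ (sui P β').card ≤ K then
          VV w z (E ∪ (su P b β ∪ su P b β')) * AM P b β β' else 0) +
      (if rr (sp P β) ≤ (z : ℝ) ^ kk then 1 else 0) *
        (if rr (sp P β') ≤ (z : ℝ) ^ kk then 1 else 0) * (Z / M) := by
      refine add_nonneg (mul_nonneg he0 ?_) (mul_nonneg (mul_nonneg ?_ ?_) (by positivity))
      · split_ifs
        · exact mul_nonneg (VV_nonneg _ _ _) (AM_nonneg _ _ _ _)
        · exact le_rfl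
      · split_ifs <;> norm_num
      · split_ifs <;> norm_num
    by_cases h1 : y β = 0
    · rw [h1, zero_mul, zero_mul, abs_zero]
      exact hnn
    by_cases h2 : y β' = 0
    · rw [h2, mul_zero, zero_mul, abs_zero]
      exact hnn
    obtain ⟨h3, h4⟩ := hy2 β h1
    obtain ⟨h5, h6⟩ := hy2 β' h2
    rw [if_pos ⟨h4, h6⟩, if_pos h3, if_pos h5, one_mul, one_mul, abs_mul]
    have h7 : |y β * y β'| ≤ 1 := by
      rw [abs_mul]
      exact mul_le_one₀ (hy β) (abs_nonneg _) (hy β')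
    have h8 := hpair β β' h1 h2
    have h9 : (∑ m ∈ range M, rho w z (E ∪ (su P b β ∪ su P b β')) (g m) *
        (ee P b β (g m) * ee P b β' (g m))) / M -
        VV w z (E ∪ (su P b β ∪ su P b β')) * KK P β β' =
        (∑ m ∈ range M, rho w z (E ∪ (su P b β ∪ su P b β')) (g m) *
        (ee P b β (g m) * ee P b β' (g m)) -
        M * VV w z (E ∪ (su P b β ∪ su P b β')) * KK P β β') / M := by
      field_simp
    rw [h9, abs_div, abs_of_pos hM']
    calc |y β * y β'| * (|∑ m ∈ range M, rho w z (E ∪ (su P b β ∪ su P b β')) (g m) *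
          (ee P b β (g m) * ee P b β' (g m)) -
          M * VV w z (E ∪ (su P b β ∪ su P b β')) * KK P β β'| / M)
        ≤ 1 * ((e0 * M * VV w z (E ∪ (su P b β ∪ su P b β')) * AM P b β β' + Z) / M) := by
          refine mul_le_mul h7 ?_ (by positivity) zero_le_one
          exact div_le_div_of_nonneg_right h8 hM'.le
      _ = e0 * (VV w z (E ∪ (su P b β ∪ su P b β')) * AM P b β β') + Z / M := by
          field_simp
  rw [hdiff]
  refine (abs_add_le _ _).trans (add_le_add hoff ?_)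
  calc |∑ β, ∑ β', y β * y β' * ((∑ m ∈ range M,
          rho w z (E ∪ (su P b β ∪ su P b β')) (g m) *
          (ee P b β (g m) * ee P b β' (g m))) / M -
          VV w z (E ∪ (su P b β ∪ su P b β')) * KK P β β')|
      ≤ ∑ β, ∑ β', (e0 * (if (sui P β).card ≤ K ∧ (sui P β').card ≤ K then
            VV w z (E ∪ (su P b β ∪ su P b β')) * AM P b β β' else 0) +
          (if rr (sp P β) ≤ (z : ℝ) ^ kk then 1 else 0) *
          (if rr (sp P β') ≤ (z : ℝ) ^ kk then 1 else 0) * (Z / M)) :=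
        (Finset.abs_sum_le_sum_abs _ _).trans (Finset.sum_le_sum fun β _ =>
          (Finset.abs_sum_le_sum_abs _ _).trans (Finset.sum_le_sum fun β' _ => hone β β'))
    _ = e0 * (∑ β : P → Option ι, ∑ β' : P → Option ι,
          (if (sui P β).card ≤ K ∧ (sui P β').card ≤ K then
            VV w z (E ∪ (su P b β ∪ su P b β')) * AM P b β β' else 0)) +
        ((((Finset.univ : Finset (P → Option ι)).filter
        (fun β => rr (sp P β) ≤ (z : ℝ) ^ kk)).card : ℝ)) ^ 2 * (Z / M) := by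
        simp only [Finset.sum_add_distrib, ← Finset.mul_sum]
        congr 1
        rw [Finset.natCast_card_filter, sq, Finset.sum_mul_sum, Finset.sum_mul]
        refine Finset.sum_congr rfl fun β _ => ?_
        rw [Finset.sum_mul]
    _ ≤ e0 * m0 + r := add_le_add (mul_le_mul_of_nonneg_left hmass he0) hr


/-- the number of positions -/
theorem Q6_card {ι : Type} [Fintype ι] {b : ι → ℕ} (hb : Function.Injective b) {L : ℝ}
    (hL : 0 ≤ L) (h : ∀ i, (b i : ℝ) ≤ L) : (Fintype.card ι : ℝ) ≤ L + 1 := by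
  have h1 : Fintype.card ι ≤ ⌊L⌋₊ + 1 := by
    have h2 : (Finset.univ.image b) ⊆ Finset.range (⌊L⌋₊ + 1) := by
      intro a ha
      obtain ⟨i, _, rfl⟩ := Finset.mem_image.mp ha
      rw [Finset.mem_range, Nat.lt_succ_iff]
      exact Nat.le_floor (h i)
    have h3 := Finset.card_le_card h2
    rwa [Finset.card_image_of_injective _ hb, Finset.card_univ, Finset.card_range] at h3
  calc (Fintype.card ι : ℝ) ≤ ((⌊L⌋₊ + 1 : ℕ) : ℝ) := by exact_mod_cast h1
    _ = (⌊L⌋₊ : ℝ) + 1 := by push_cast; ring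
    _ ≤ L + 1 := by linarith [Nat.floor_le hL]

theorem Q6_ev (kk : ℕ) (hkk : 1 ≤ kk) : ∀ᶠ z : ℕ in atTop, 3 ≤ z ∧ 1 ≤ Real.log z ∧
    Real.log z ^ 2 < z ∧ 4 * kk * Real.log z ^ 2 ≤ Real.sqrt z ∧
    (144 * Real.log z ^ 4) ^ kk ≤ z := by
  have h1 : ∀ᶠ z : ℕ in atTop, 1 ≤ Real.log z :=
    (Real.tendsto_log_atTop.comp tendsto_natCast_atTop_atTop).eventually_ge_atTop 1
  filter_upwards [eventually_ge_atTop 3, h1, log_pow_le 1 2 le_rfl 2,
    log_pow_le 2 2 (by norm_num) (4 * kk), log_pow_le kk 4 hkk 144] with z h3 hl ha hb hc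
  refine ⟨h3, hl, ?_, ?_, hc⟩
  · rw [pow_one] at ha
    have : 0 < Real.log z ^ 2 := by positivity
    linarith
  · exact Real.le_sqrt_of_sq_le hb

/-- the local factors -/
theorem Q6_delta {ι : Type} [Fintype ι] [DecidableEq ι] {z u kk : ℕ} (hz : 3 ≤ z)
    (hl : 1 ≤ Real.log z) (hN : (Fintype.card ι : ℝ) ≤ Real.log z ^ 2 + 1)
    (h4 : 4 * kk * Real.log z ^ 2 ≤ Real.sqrt z) (β : PP z u → Option ι)
    (hβ : (sp (PP z u) β).card ≤ kk) :
    ∏ p ∈ sp (PP z u) β, (1 + (Fintype.card ι : ℝ) / ((p : ℝ) - 1)) ≤ 1 + 1 / Real.sqrt z := by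
  have hz' : (3 : ℝ) ≤ z := by exact_mod_cast hz
  have hz0 : (0 : ℝ) < z := by linarith
  set N : ℝ := (Fintype.card ι : ℝ) with hNdef
  have hN0 : 0 ≤ N := Nat.cast_nonneg _
  have hs0 : 0 < Real.sqrt z := Real.sqrt_pos.mpr hz0
  have hss : Real.sqrt z * Real.sqrt z = z := Real.mul_self_sqrt hz0.le
  have hs1 : 1 ≤ Real.sqrt z := by
    rw [show (1 : ℝ) = Real.sqrt 1 by simp]
    exact Real.sqrt_le_sqrt (by linarith)
  have h1 : ∏ p ∈ sp (PP z u) β, (1 + N / ((p : ℝ) - 1)) ≤ (1 + N / z) ^ kk := by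
    calc ∏ p ∈ sp (PP z u) β, (1 + N / ((p : ℝ) - 1))
        ≤ ∏ _p ∈ sp (PP z u) β, (1 + N / z) := by
          refine Finset.prod_le_prod (fun p hp => ?_) (fun p hp => ?_)
          · have hp' := sp_subset _ β hp
            rw [PP, Finset.mem_filter, Finset.mem_Ioc] at hp'
            have : (z : ℝ) < p := by exact_mod_cast hp'.1.1
            have h2 : 0 < (p : ℝ) - 1 := by linarith
            positivity
          · have hp' := sp_subset _ β hp
            rw [PP, Finset.mem_filter, Finset.mem_Ioc] at hp'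
            have : (z : ℝ) + 1 ≤ p := by exact_mod_cast hp'.1.1
            have h2 : (z : ℝ) ≤ (p : ℝ) - 1 := by linarith
            have h3 : N / ((p : ℝ) - 1) ≤ N / z := div_le_div_of_nonneg_left hN0 hz0 h2
            linarith
      _ = (1 + N / z) ^ (sp (PP z u) β).card := by rw [Finset.prod_const]
      _ ≤ (1 + N / z) ^ kk := pow_le_pow_right₀ (by
          have : 0 ≤ N / z := by positivity
          linarith) hβ
  have h2 : kk * N * 2 ≤ Real.sqrt z := by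
    have h5 : N ≤ 2 * Real.log z ^ 2 := by nlinarith
    have h6 : (0 : ℝ) ≤ kk := Nat.cast_nonneg _
    nlinarith
  set t : ℝ := kk * (N / z) with ht
  have ht0 : 0 ≤ t := by positivity
  have ht2 : 2 * t ≤ 1 / Real.sqrt z := by
    rw [le_div_iff₀ hs0, ht]
    have h7 : 2 * (kk * (N / z)) * Real.sqrt z = (kk * N * 2) * Real.sqrt z / z := by ring
    rw [h7, div_le_one hz0]
    calc (kk * N * 2) * Real.sqrt z ≤ Real.sqrt z * Real.sqrt z :=
          mul_le_mul_of_nonneg_right h2 hs0.le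
      _ = z := hss
  have ht3 : t ≤ 1 / 2 := by
    have h8 : 1 / Real.sqrt z ≤ 1 := by
      rw [div_le_one hs0]
      exact hs1
    linarith
  have h3 : (1 + N / z) ^ kk ≤ Real.exp t := by
    have h9 : 1 + N / z ≤ Real.exp (N / z) := by
      have := Real.add_one_le_exp (N / z)
      linarith
    calc (1 + N / z) ^ kk ≤ Real.exp (N / z) ^ kk := pow_le_pow_left₀ (by positivity) h9 kk
      _ = Real.exp t := by rw [← Real.exp_nat_mul]
  have h4' : Real.exp t ≤ 1 + 2 * t := by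
    have h10 := Real.exp_bound_div_one_sub_of_interval ht0 (by linarith : t < 1)
    refine h10.trans ?_
    rw [div_le_iff₀ (by linarith)]
    nlinarith
  linarith

/-- the remainders -/
theorem Q6_rem {N : ℝ} {z kk b0 M e : ℕ} {F V : ℝ} (hz : 3 ≤ z) (hkk : 1 ≤ kk)
    (hl : 1 ≤ Real.log z) (hN0 : 0 ≤ N) (hN : N ≤ Real.log z ^ 2 + 1)
    (h4 : (144 * Real.log z ^ 4) ^ kk ≤ z) (hM : z ^ (2 * kk + 2 * b0 + 12) ≤ M)
    (hF0 : 0 ≤ F) (hF : F ≤ ((z : ℝ) ^ kk + 1) * (N + 1) ^ kk)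
    (hV : 1 / (z : ℝ) ≤ V) (he : e ≤ 1) :
    F ^ 2 * (((z : ℝ) ^ (2 * b0 + 6) * 4 ^ kk) / M) ≤ V ^ e * (1 / Real.sqrt z) := by
  have hz' : (3 : ℝ) ≤ z := by exact_mod_cast hz
  have hz0 : (0 : ℝ) < z := by linarith
  have hM' : (z : ℝ) ^ (2 * kk + 2 * b0 + 12) ≤ M := by exact_mod_cast hM
  have hMp : (0 : ℝ) < (z : ℝ) ^ (2 * kk + 2 * b0 + 12) := by positivity
  have h1 : F ≤ 2 * (z : ℝ) ^ kk * (N + 1) ^ kk := by
    refine hF.trans (mul_le_mul_of_nonneg_right ?_ (by positivity))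
    have : (1 : ℝ) ≤ (z : ℝ) ^ kk := one_le_pow₀ (by linarith)
    linarith
  have h2 : F ^ 2 ≤ 4 * (z : ℝ) ^ (2 * kk) * ((N + 1) ^ 2) ^ kk := by
    calc F ^ 2 ≤ (2 * (z : ℝ) ^ kk * (N + 1) ^ kk) ^ 2 := pow_le_pow_left₀ hF0 h1 2
      _ = 4 * (z : ℝ) ^ (2 * kk) * ((N + 1) ^ 2) ^ kk := by
          rw [mul_pow, mul_pow, ← pow_mul, ← pow_mul, ← pow_mul, mul_comm kk 2]
          norm_num
  have h3 : 4 * (4 * (N + 1) ^ 2) ^ kk ≤ z := by
    have h5 : (4 : ℝ) ≤ 4 ^ kk := by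
      calc (4 : ℝ) = 4 ^ 1 := by norm_num
        _ ≤ 4 ^ kk := pow_le_pow_right₀ (by norm_num) hkk
    have h6 : N + 1 ≤ 3 * Real.log z ^ 2 := by nlinarith
    have h7 : (N + 1) ^ 2 ≤ 9 * Real.log z ^ 4 := by
      calc (N + 1) ^ 2 ≤ (3 * Real.log z ^ 2) ^ 2 := pow_le_pow_left₀ (by linarith) h6 2
        _ = 9 * Real.log z ^ 4 := by ring
    calc 4 * (4 * (N + 1) ^ 2) ^ kk ≤ 4 ^ kk * (4 * (N + 1) ^ 2) ^ kk :=
          mul_le_mul_of_nonneg_right h5 (by positivity)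
      _ = (4 * (4 * (N + 1) ^ 2)) ^ kk := by rw [← mul_pow]
      _ ≤ (144 * Real.log z ^ 4) ^ kk := pow_le_pow_left₀ (by positivity) (by linarith) kk
      _ ≤ z := h4
  have h8 : F ^ 2 * (((z : ℝ) ^ (2 * b0 + 6) * 4 ^ kk) / M) ≤ 1 / (z : ℝ) ^ 5 := by
    calc F ^ 2 * (((z : ℝ) ^ (2 * b0 + 6) * 4 ^ kk) / M)
        ≤ (4 * (z : ℝ) ^ (2 * kk) * ((N + 1) ^ 2) ^ kk) *
          (((z : ℝ) ^ (2 * b0 + 6) * 4 ^ kk) / (z : ℝ) ^ (2 * kk + 2 * b0 + 12)) := by
          refine mul_le_mul h2 ?_ (by positivity) (by positivity)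
          exact div_le_div_of_nonneg_left (by positivity) hMp hM'
      _ = (4 * (4 * (N + 1) ^ 2) ^ kk) / (z : ℝ) ^ 6 := by
          have e1 : (z : ℝ) ^ (2 * kk + 2 * b0 + 12) =
              (z : ℝ) ^ (2 * kk) * (z : ℝ) ^ (2 * b0 + 6) * (z : ℝ) ^ 6 := by
            rw [← pow_add, ← pow_add]
            congr 1
          have e2 : (4 * (N + 1) ^ 2) ^ kk = 4 ^ kk * ((N + 1) ^ 2) ^ kk := mul_pow _ _ _
          rw [e1, e2]
          have hz1 : (z : ℝ) ^ (2 * kk) ≠ 0 := by positivity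
          have hz2 : (z : ℝ) ^ (2 * b0 + 6) ≠ 0 := by positivity
          field_simp
      _ ≤ (z : ℝ) / (z : ℝ) ^ 6 := div_le_div_of_nonneg_right h3 (by positivity)
      _ = 1 / (z : ℝ) ^ 5 := by
          rw [pow_succ (z : ℝ) 5]
          field_simp
  refine h8.trans ?_
  have h9 : 1 / (z : ℝ) ≤ V ^ e := by
    interval_cases e
    · rw [pow_zero, div_le_one hz0]
      linarith
    · rw [pow_one]
      exact hV
  have h10 : 1 / (z : ℝ) ≤ 1 / Real.sqrt z := by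
    refine one_div_le_one_div_of_le (Real.sqrt_pos.mpr hz0) ?_
    rw [Real.sqrt_le_left hz0.le]
    nlinarith
  calc 1 / (z : ℝ) ^ 5 ≤ 1 / (z : ℝ) ^ 2 := by
        refine one_div_le_one_div_of_le (by positivity) ?_
        exact pow_le_pow_right₀ (by linarith) (by norm_num)
    _ = (1 / (z : ℝ)) * (1 / (z : ℝ)) := by field_simp
    _ ≤ V ^ e * (1 / Real.sqrt z) :=
        mul_le_mul h9 h10 (by positivity) (le_trans (by positivity) h9)

theorem Q6_eps0_nonneg {C : ℝ} (hC : 0 ≤ C) (k b0 : ℕ) : 0 ≤ eps0 C k b0 := by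
  unfold eps0
  positivity

theorem Q6_eps0_mono {C C' : ℝ} (hC : 0 ≤ C) (h : C ≤ C') (k b0 : ℕ) :
    eps0 C k b0 ≤ eps0 C' k b0 := by
  unfold eps0
  have hC' : 0 ≤ C' := hC.trans h
  have hk : (0 : ℝ) ≤ k := Nat.cast_nonneg _
  have h1 : C * k ≤ C' * k := mul_le_mul_of_nonneg_right h hk
  have h2 : (C * k) ^ (b0 + 1) ≤ (C' * k) ^ (b0 + 1) := pow_le_pow_left₀ (by positivity) h1 _
  have h3 : Real.exp (C * k) ≤ Real.exp (C' * k) := Real.exp_le_exp.mpr h1
  refine div_le_div_of_nonneg_right ?_ (by positivity)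
  exact mul_le_mul (mul_le_mul h h2 (by positivity) hC') h3 (by positivity) (by positivity)

theorem QF : ∃ C : ℕ, 1 ≤ C ∧ QFprop C := by
  classical
  obtain ⟨C1, hC1, hpl⟩ := pairLem
  obtain ⟨C2, hC2, hms⟩ := mass
  refine ⟨max C1 C2, hC1.trans (le_max_left _ _), ?_⟩
  intro K kk k b0 Λ hK hkk hk hb0 hΛ herr
  set C : ℕ := max C1 C2 with hCdef
  have hCC1 : (C1 : ℝ) ≤ C := by exact_mod_cast le_max_left C1 C2
  have hCC2 : C2 ≤ C := le_max_right C1 C2
  have hC0 : (0 : ℝ) ≤ C := Nat.cast_nonneg _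
  have hC1' : 1 ≤ C := hC1.trans (le_max_left _ _)
  have hA1 : (1 : ℝ) ≤ ((C * k : ℕ) : ℝ) := by
    exact_mod_cast Nat.one_le_iff_ne_zero.mpr (Nat.mul_ne_zero (by omega) (by omega))
  have hA : (1 : ℝ) ≤ ((C * k : ℕ) : ℝ) ^ (C * K ^ 2) := one_le_pow₀ hA1
  have hB : (1 : ℝ) ≤ (1 + Λ) ^ (2 * K) := one_le_pow₀ (by linarith)
  have heC0 : 0 ≤ eps0 (C : ℝ) (2 * K + 1) b0 := Q6_eps0_nonneg hC0 _ _
  have he1 : eps0 (C1 : ℝ) (2 * K + 1) b0 ≤ 1 := by
    refine (Q6_eps0_mono (Nat.cast_nonneg _) hCC1 _ _).trans ?_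
    refine le_trans ?_ herr
    unfold errQF
    calc eps0 (C : ℝ) (2 * K + 1) b0 = eps0 (C : ℝ) (2 * K + 1) b0 * 1 * 1 := by ring
      _ ≤ eps0 (C : ℝ) (2 * K + 1) b0 * ((C * k : ℕ) : ℝ) ^ (C * K ^ 2) * (1 + Λ) ^ (2 * K) := by
          refine mul_le_mul (mul_le_mul_of_nonneg_left hA heC0) hB zero_le_one (by positivity)
  filter_upwards [hpl (2 * K + 1) b0 (by omega) hb0 he1, hms K k hK hk, Q6_ev kk hkk] with z
    hpl' hms' hev
  obtain ⟨hz3, hl, hlz, h4, h144⟩ := hev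
  intro ι _ _ b c M E y hb hbl hE hE1 hΛ' hy hy2 hM
  have hN : (Fintype.card ι : ℝ) ≤ Real.log z ^ 2 + 1 := Q6_card hb (by positivity) hbl
  have hz0 : (0 : ℝ) < z := by
    have : (3 : ℝ) ≤ z := by exact_mod_cast hz3
    linarith
  have hM0 : 0 < M := lt_of_lt_of_le (pow_pos (by omega) _) hM
  have hcard : ∀ β, y β ≠ 0 → (sp (PP z (z ^ k)) β).card ≤ kk := fun β h =>
    card_sp_le (by omega) β (hy2 β h).1
  have hprime : ∀ p ∈ PP z (z ^ k), Nat.Prime p := fun p hp => (Finset.mem_filter.mp hp).2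
  have hgt : ∀ p ∈ PP z (z ^ k), z < p := fun p hp =>
    (Finset.mem_Ioc.mp (Finset.mem_filter.mp hp).1).1
  have hP3 : ∀ p ∈ PP z (z ^ k), 3 ≤ p := fun p hp => hz3.trans (hgt p hp).le
  have hmod : ∀ p ∈ PP z (z ^ k), ∀ i j : ι, i ≠ j → ¬ b i ≡ b j [MOD p] := by
    intro p hp i j hij hmod
    have h1 : ∀ i, b i < p := by
      intro i
      have h2 : (b i : ℝ) < z := (hbl i).trans_lt hlz
      have h3 : b i < z := by exact_mod_cast h2
      exact h3.trans (hgt p hp)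
    exact hij (hb (Nat.ModEq.eq_of_lt_of_lt hmod (h1 i) (h1 j)))
  set Z : ℝ := (z : ℝ) ^ (2 * b0 + 6) * 4 ^ kk with hZdef
  have hZ0 : 0 ≤ Z := by positivity
  have hpair : ∀ β β', y β ≠ 0 → y β' ≠ 0 →
      |∑ m ∈ range M, rho (wf z) z (E ∪ (su (PP z (z ^ k)) b β ∪ su (PP z (z ^ k)) b β'))
          (c + primorial (wf z) * m) *
          (ee (PP z (z ^ k)) b β (c + primorial (wf z) * m) *
            ee (PP z (z ^ k)) b β' (c + primorial (wf z) * m)) -
        M * VV (wf z) z (E ∪ (su (PP z (z ^ k)) b β ∪ su (PP z (z ^ k)) b β')) *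
          KK (PP z (z ^ k)) β β'| ≤
        eps0 (C1 : ℝ) (2 * K + 1) b0 * M *
          VV (wf z) z (E ∪ (su (PP z (z ^ k)) b β ∪ su (PP z (z ^ k)) b β')) *
          AM (PP z (z ^ k)) b β β' + Z := by
    intro β β' h1 h2
    have hBc : (E ∪ (su (PP z (z ^ k)) b β ∪ su (PP z (z ^ k)) b β')).card ≤ 2 * K + 1 := by
      have h3 := Finset.card_union_le E (su (PP z (z ^ k)) b β ∪ su (PP z (z ^ k)) b β')
      have h4 := Finset.card_union_le (su (PP z (z ^ k)) b β) (su (PP z (z ^ k)) b β')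
      have h5 := (Q6_su_card (PP z (z ^ k)) b β).trans (hy2 β h1).2
      have h6 := (Q6_su_card (PP z (z ^ k)) b β').trans (hy2 β' h2).2
      omega
    refine (hpl' ι b c M (z ^ k) _ β β' hBc hmod).trans ?_
    refine add_le_add le_rfl ?_
    refine mul_le_mul_of_nonneg_left ?_ (by positivity)
    have h7 := hcard β h1
    have h8 := hcard β' h2
    calc (2 : ℝ) ^ ((sp (PP z (z ^ k)) β).card + (sp (PP z (z ^ k)) β').card)
        ≤ 2 ^ (2 * kk) := pow_le_pow_right₀ (by norm_num) (by omega)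
      _ = 4 ^ kk := by rw [pow_mul]; norm_num
  have hoff := off_diag (PP z (z ^ k)) hprime hP3 y
    (fun β β' => VV (wf z) z (E ∪ (su (PP z (z ^ k)) b β ∪ su (PP z (z ^ k)) b β')))
    (fun β => VV (wf z) z (E ∪ su (PP z (z ^ k)) b β))
    (fun β β' => VV_nonneg _ _ _)
    (fun β β' => VV_anti _ _ (Finset.union_subset_union (Finset.Subset.refl E)
      Finset.subset_union_left))
    (fun β β' => VV_anti _ _ (Finset.union_subset_union (Finset.Subset.refl E)
      Finset.subset_union_right))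
    (δ := 1 / Real.sqrt z)
    (fun β h => Q6_delta hz3 hl hN h4 β (hcard β h))
  have hmass := hms' ι b E Λ hb hbl hE hE1 hΛ hΛ'
  have hcfg := card_cfg (ι := ι) (z := z) (u := z ^ k) (kk := kk) (by omega)
  have hr := Q6_rem (N := (Fintype.card ι : ℝ)) (b0 := b0) (e := E.card) hz3 hkk hl
    (Nat.cast_nonneg _) hN h144 hM (Nat.cast_nonneg _) hcfg
    (Q6_V1_lower (w := wf z) (z := z) (by omega)) hE1
  have hdet := Q6_det (PP z (z ^ k)) (wf z) z b y E M (fun m => c + primorial (wf z) * m)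
    (e0 := eps0 (C1 : ℝ) (2 * K + 1) b0) (Z := Z) (δ := 1 / Real.sqrt z) (K := K) (kk := kk)
    hM0 (Q6_eps0_nonneg (Nat.cast_nonneg _) _ _) hZ0 hpair hy hy2 (by unfold dg; convert hoff)
    (by convert hmass using 5) (by convert hr using 5)
  refine hdet.trans ?_
  refine add_le_add le_rfl ?_
  rw [mul_add]
  refine add_le_add ?_ le_rfl
  have hC2m : ((C2 * k : ℕ) : ℝ) ^ (C2 * K ^ 2) ≤ ((C * k : ℕ) : ℝ) ^ (C * K ^ 2) := by
    have h1 : ((C2 * k : ℕ) : ℝ) ≤ ((C * k : ℕ) : ℝ) := by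
      exact_mod_cast Nat.mul_le_mul_right k hCC2
    calc ((C2 * k : ℕ) : ℝ) ^ (C2 * K ^ 2) ≤ ((C * k : ℕ) : ℝ) ^ (C2 * K ^ 2) :=
          pow_le_pow_left₀ (Nat.cast_nonneg _) h1 _
      _ ≤ ((C * k : ℕ) : ℝ) ^ (C * K ^ 2) :=
          pow_le_pow_right₀ hA1 (Nat.mul_le_mul_right _ hCC2)
  have heps : eps0 (C1 : ℝ) (2 * K + 1) b0 ≤ eps0 (C : ℝ) (2 * K + 1) b0 :=
    Q6_eps0_mono (Nat.cast_nonneg _) hCC1 _ _
  have hV0 : 0 ≤ V1 (wf z) z ^ E.card := pow_nonneg (V1_pos _ _).le _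
  unfold errQF
  calc eps0 (C1 : ℝ) (2 * K + 1) b0 *
        (V1 (wf z) z ^ E.card * (((C2 * k : ℕ) : ℝ) ^ (C2 * K ^ 2) * (1 + Λ) ^ (2 * K)))
      ≤ eps0 (C : ℝ) (2 * K + 1) b0 *
        (V1 (wf z) z ^ E.card * (((C * k : ℕ) : ℝ) ^ (C * K ^ 2) * (1 + Λ) ^ (2 * K))) := by
        refine mul_le_mul heps ?_ (by positivity) heC0
        refine mul_le_mul_of_nonneg_left ?_ hV0
        exact mul_le_mul_of_nonneg_right hC2m (by positivity)
    _ = V1 (wf z) z ^ E.card * (eps0 (C : ℝ) (2 * K + 1) b0 *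
        ((C * k : ℕ) : ℝ) ^ (C * K ^ 2) * (1 + Λ) ^ (2 * K)) := by ring

end Pool.Agent.LibLG5
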