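import Pool.Agent.LibLG5.S5

/-!
[LG5 S6] **The product `V(B)`: monotonicity, union of two sets, the level `w`.**
-/

set_option autoImplicit false

namespace Pool.Agent.LibLG5

open Finset Filter Pool.Agent.LibRG87

theorem nuP_le_p (B : Finset ℕ) (p : ℕ) (hp : 0 < p) : nuP B p ≤ p := by
  unfold nuP
  have h : B.image (fun a => a % p) ⊆ range p := by
    intro x hx
    obtain ⟨a, _, rfl⟩ := Finset.mem_image.1 hx
    exact Finset.mem_range.2 (Nat.mod_lt _ hp)
  simpa using Finset.card_le_card h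

theorem fac_bd (w z : ℕ) (B : Finset ℕ) (p : ℕ) (hp : p ∈ PP w z) :
    0 ≤ 1 - (nuP B p : ℝ) / p ∧ 1 - (nuP B p : ℝ) / p ≤ 1 := by
  have h1 := (mem_PPi.1 hp).2.pos
  have hp0 : (0 : ℝ) < p := by exact_mod_cast h1
  have h2 : (nuP B p : ℝ) / p ≤ 1 := by
    rw [div_le_one hp0]
    exact_mod_cast nuP_le_p B p h1
  have h3 : 0 ≤ (nuP B p : ℝ) / p := by positivity
  constructor <;> linarith

theorem VV_nonneg' (w z : ℕ) (B : Finset ℕ) : 0 ≤ VV w z B :=
  Finset.prod_nonneg fun p hp => (fac_bd w z B p hp).1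

theorem VV_le_one' (w z : ℕ) (B : Finset ℕ) : VV w z B ≤ 1 :=
  Finset.prod_le_one (fun p hp => (fac_bd w z B p hp).1) (fun p hp => (fac_bd w z B p hp).2)

theorem VV_empty' (w z : ℕ) : VV w z ∅ = 1 := by
  unfold VV nuP
  simp

theorem VV_singleton' (w z a : ℕ) : VV w z {a} = V1 w z := by
  unfold VV nuP V1
  simp

theorem nuP_mono {A B : Finset ℕ} (h : A ⊆ B) (p : ℕ) : nuP A p ≤ nuP B p :=
  Finset.card_le_card (Finset.image_subset_image h)

theorem VV_anti' (w z : ℕ) {A B : Finset ℕ} (h : A ⊆ B) : VV w z B ≤ VV w z A := by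
  unfold VV
  refine Finset.prod_le_prod (fun p hp => (fac_bd w z B p hp).1) (fun p hp => ?_)
  have hp0 : (0 : ℝ) < p := by exact_mod_cast (mem_PPi.1 hp).2.pos
  have h1 : (nuP A p : ℝ) ≤ nuP B p := by exact_mod_cast nuP_mono h p
  have := div_le_div_of_nonneg_right h1 hp0.le
  linarith

theorem V1_pos' (w z : ℕ) : 0 < V1 w z := by
  unfold V1
  refine Finset.prod_pos fun p hp => ?_
  have h2 := (mem_PPi.1 hp).2.two_le
  have hp0 : (2 : ℝ) ≤ p := by exact_mod_cast h2
  have : 1 / (p : ℝ) < 1 := by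
    rw [div_lt_one (by linarith)]
    linarith
  linarith

theorem V1_le_one' (w z : ℕ) : V1 w z ≤ 1 := by
  rw [← VV_singleton' w z 0]
  exact VV_le_one' _ _ _

/-- the primes at which `A` and `A'` share a class -/
def Col (w z : ℕ) (A A' : Finset ℕ) : Finset ℕ :=
  (PP w z).filter fun p => ∃ a ∈ A, ∃ a' ∈ A', a % p = a' % p

theorem VV_union_le (w z K : ℕ) (A A' : Finset ℕ) (hA' : #A' ≤ K) (hK : 2 * K ≤ w) (hw : 1 ≤ w) :
    VV w z (A ∪ A') ≤ VV w z A * VV w z A' * (1 + 2 * K / w) ^ #(Col w z A A') := by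
  have hw0 : (0 : ℝ) < w := by exact_mod_cast hw
  have hC : (1 + 2 * (K : ℝ) / w) ^ #(Col w z A A') =
      ∏ p ∈ PP w z, (if p ∈ Col w z A A' then 1 + 2 * (K : ℝ) / w else 1) := by
    rw [Finset.prod_ite, Finset.prod_const_one, mul_one, Finset.prod_const]
    congr 2
    ext p
    rw [Finset.mem_filter]
    constructor
    · intro h
      exact ⟨(Finset.mem_filter.1 h).1, h⟩
    · intro h
      exact h.2
  rw [hC]
  unfold VV
  rw [← Finset.prod_mul_distrib, ← Finset.prod_mul_distrib]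
  refine Finset.prod_le_prod (fun p hp => (fac_bd w z (A ∪ A') p hp).1) (fun p hp => ?_)
  obtain ⟨⟨hwp, _⟩, hpp⟩ := mem_PPi.1 hp
  have hp0 : (0 : ℝ) < p := by exact_mod_cast hpp.pos
  have hA := fac_bd w z A p hp
  have hA2 := fac_bd w z A' p hp
  by_cases hcol : p ∈ Col w z A A'
  · rw [if_pos hcol]
    have h1 : (nuP A p : ℝ) / p ≤ (nuP (A ∪ A') p : ℝ) / p :=
      div_le_div_of_nonneg_right (by exact_mod_cast nuP_mono Finset.subset_union_left p) hp0.le
    set t : ℝ := (K : ℝ) / w with ht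
    have ht0 : 0 ≤ t := by positivity
    have ht1 : t ≤ 1 / 2 := by
      rw [ht, div_le_iff₀ hw0]
      have : (2 * (K : ℝ)) ≤ w := by exact_mod_cast hK
      linarith
    have h2 : (nuP A' p : ℝ) / p ≤ t := by
      rw [ht]
      have h3 : (nuP A' p : ℝ) ≤ K := by exact_mod_cast (nuP_le A' p).trans hA'
      have h4 : (w : ℝ) ≤ p := by exact_mod_cast hwp.le
      exact div_le_div₀ (Nat.cast_nonneg _) h3 hw0 h4
    have h5 : 2 * (K : ℝ) / w = 2 * t := by rw [ht]; ring
    rw [h5]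
    have h6 : 1 ≤ (1 - (nuP A' p : ℝ) / p) * (1 + 2 * t) := by
      have h7 : (1 - t) * (1 + 2 * t) ≤ (1 - (nuP A' p : ℝ) / p) * (1 + 2 * t) :=
        mul_le_mul_of_nonneg_right (by linarith) (by linarith)
      nlinarith
    have h8 : (1 - (nuP A p : ℝ) / p) * 1 ≤
        (1 - (nuP A p : ℝ) / p) * ((1 - (nuP A' p : ℝ) / p) * (1 + 2 * t)) :=
      mul_le_mul_of_nonneg_left h6 hA.1
    linarith
  · rw [if_neg hcol, mul_one]
    have hcol' : ∀ a ∈ A, ∀ a' ∈ A', a % p ≠ a' % p := by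
      intro a ha a' ha' h
      exact hcol (Finset.mem_filter.2 ⟨hp, a, ha, a', ha', h⟩)
    have h1 : nuP (A ∪ A') p = nuP A p + nuP A' p := by
      unfold nuP
      rw [Finset.image_union, Finset.card_union_of_disjoint]
      rw [Finset.disjoint_left]
      intro x hx hx'
      obtain ⟨a, ha, rfl⟩ := Finset.mem_image.1 hx
      obtain ⟨a', ha', h⟩ := Finset.mem_image.1 hx'
      exact hcol' a ha a' ha' h.symm
    rw [h1]
    push_cast
    have h2 : 0 ≤ (nuP A p : ℝ) / p * ((nuP A' p : ℝ) / p) := by positivity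
    have h3 : ((nuP A p : ℝ) + nuP A' p) / p = (nuP A p : ℝ) / p + (nuP A' p : ℝ) / p := by ring
    rw [h3]
    nlinarith

/-- few primes divide a difference -/
theorem card_pair (w z a a' : ℕ) (hne : a ≠ a') (N : ℝ) (ha : (a : ℝ) ≤ N) (ha' : (a' : ℝ) ≤ N)
    (hw : 2 ≤ w) : (#((PP w z).filter fun p => a % p = a' % p) : ℝ) * Real.log w ≤ Real.log N := by
  have key : ∀ a a' : ℕ, a < a' → (a' : ℝ) ≤ N →
      (#((PP w z).filter fun p => a % p = a' % p) : ℝ) * Real.log w ≤ Real.log N := by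
    intro a a' hlt hN
    set S := (PP w z).filter fun p => a % p = a' % p with hS
    have hprod : ∏ p ∈ S, p ∣ a' - a := by
      apply Finset.prod_primes_dvd
      · intro p hp
        exact (mem_PPi.1 (Finset.mem_filter.1 hp).1).2.prime
      · intro p hp
        have h1 : a ≡ a' [MOD p] := (Finset.mem_filter.1 hp).2
        exact (Nat.modEq_iff_dvd' hlt.le).1 h1
    have hle : ∏ p ∈ S, p ≤ a' := (Nat.le_of_dvd (by omega) hprod).trans (Nat.sub_le _ _)
    have hpow : w ^ #S ≤ ∏ p ∈ S, p := by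
      rw [← Finset.prod_const]
      refine Finset.prod_le_prod' fun p hp => ?_
      exact (mem_PPi.1 (Finset.mem_filter.1 hp).1).1.1.le
    have hwR : (0 : ℝ) < w := by
      have : 0 < w := by omega
      exact_mod_cast this
    have h2 : (w : ℝ) ^ #S ≤ N := by
      refine le_trans ?_ hN
      exact_mod_cast hpow.trans hle
    have h3 := Real.log_le_log (pow_pos hwR _) h2
    rw [Real.log_pow] at h3
    exact h3
  rcases Nat.lt_or_gt_of_ne hne with h | h
  · exact key a a' h ha'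
  · have h1 := key a' a h ha
    have h2 : ((PP w z).filter fun p => a' % p = a % p) = ((PP w z).filter fun p => a % p = a' % p) := by
      apply Finset.filter_congr
      intro p _
      exact eq_comm
    rw [h2] at h1
    exact h1

theorem card_Col (w z K : ℕ) (A A' : Finset ℕ) (hA : #A ≤ K) (hA' : #A' ≤ K) (hd : Disjoint A A')
    (N : ℝ) (hN1 : 1 ≤ N) (hN : ∀ a ∈ A ∪ A', (a : ℝ) ≤ N) (hw : 2 ≤ w) :
    (#(Col w z A A') : ℝ) * Real.log w ≤ K ^ 2 * Real.log N := by
  have hsub : Col w z A A' ⊆ (A ×ˢ A').biUnion fun q => (PP w z).filter fun p => q.1 % p = q.2 % p := by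
    intro p hp
    obtain ⟨h1, a, ha, a', ha', h⟩ := Finset.mem_filter.1 hp
    rw [Finset.mem_biUnion]
    exact ⟨(a, a'), Finset.mem_product.2 ⟨ha, ha'⟩, Finset.mem_filter.2 ⟨h1, h⟩⟩
  have hlw : 0 ≤ Real.log w := Real.log_natCast_nonneg w
  have hlN : 0 ≤ Real.log N := Real.log_nonneg hN1
  have h1 : (#(Col w z A A') : ℝ) ≤ ∑ q ∈ A ×ˢ A', (#((PP w z).filter fun p => q.1 % p = q.2 % p) : ℝ) := by
    have := (Finset.card_le_card hsub).trans Finset.card_biUnion_le
    exact_mod_cast this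
  calc (#(Col w z A A') : ℝ) * Real.log w
      ≤ (∑ q ∈ A ×ˢ A', (#((PP w z).filter fun p => q.1 % p = q.2 % p) : ℝ)) * Real.log w :=
        mul_le_mul_of_nonneg_right h1 hlw
    _ = ∑ q ∈ A ×ˢ A', (#((PP w z).filter fun p => q.1 % p = q.2 % p) : ℝ) * Real.log w := by
        rw [Finset.sum_mul]
    _ ≤ ∑ q ∈ A ×ˢ A', Real.log N := by
        refine Finset.sum_le_sum fun q hq => ?_
        obtain ⟨hq1, hq2⟩ := Finset.mem_product.1 hq
        refine card_pair w z q.1 q.2 ?_ N (hN _ (Finset.mem_union_left _ hq1))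
          (hN _ (Finset.mem_union_right _ hq2)) hw
        intro h
        exact Finset.disjoint_left.1 hd hq1 (h ▸ hq2)
    _ = (#A * #A' : ℝ) * Real.log N := by
        rw [Finset.sum_const, Finset.card_product, nsmul_eq_mul]
        push_cast
        ring
    _ ≤ K ^ 2 * Real.log N := by
        refine mul_le_mul_of_nonneg_right ?_ hlN
        have h2 : (#A : ℝ) ≤ K := by exact_mod_cast hA
        have h3 : (#A' : ℝ) ≤ K := by exact_mod_cast hA'
        rw [sq]
        exact mul_le_mul h2 h3 (Nat.cast_nonneg _) (Nat.cast_nonneg _)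

theorem log_tendsto_nat : Tendsto (fun z : ℕ => Nat.log 2 z) atTop atTop := by
  rw [tendsto_atTop_atTop]
  intro b
  exact ⟨2 ^ b, fun z hz => Nat.le_log_of_pow_le (by norm_num) hz⟩

theorem wf_tendsto' : Tendsto wf atTop atTop := by
  unfold wf
  have h1 : Tendsto (fun z : ℕ => Nat.log 2 (Nat.log 2 z)) atTop atTop :=
    log_tendsto_nat.comp log_tendsto_nat
  rw [tendsto_atTop_atTop] at h1 ⊢
  intro b
  obtain ⟨i, hi⟩ := h1 (4 * b)
  refine ⟨i, fun z hz => ?_⟩
  have := hi z hz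
  omega

theorem natlog_le (z : ℕ) (hz : 2 ≤ z) : (Nat.log 2 z : ℝ) ≤ Real.log z / Real.log 2 := by
  have h1 : 2 ^ Nat.log 2 z ≤ z := Nat.pow_log_le_self 2 (by omega)
  have h2 : ((2 : ℝ)) ^ Nat.log 2 z ≤ z := by exact_mod_cast h1
  have h3 := Real.log_le_log (by positivity) h2
  rw [Real.log_pow] at h3
  rwa [le_div_iff₀ (Real.log_pos (by norm_num))]

theorem primorial_wf_le' {z : ℕ} (hz : 4 ≤ z) :
    (primorial (wf z) : ℝ) ^ 2 ≤ Real.log z / Real.log 2 := by
  refine le_trans ?_ (natlog_le z (by omega))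
  have h1 : primorial (wf z) ≤ 4 ^ wf z := primorial_le_four_pow _
  have h2 : primorial (wf z) ^ 2 ≤ Nat.log 2 z := by
    calc primorial (wf z) ^ 2 ≤ (4 ^ wf z) ^ 2 := Nat.pow_le_pow_left h1 2
      _ = 2 ^ (4 * wf z) := by
          rw [show (4 : ℕ) = 2 ^ 2 by norm_num, ← pow_mul, ← pow_mul]
          congr 1
          ring
      _ ≤ 2 ^ Nat.log 2 (Nat.log 2 z) := by
          refine Nat.pow_le_pow_right (by norm_num) ?_
          unfold wf
          omega
      _ ≤ Nat.log 2 z := by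
          refine Nat.pow_log_le_self 2 ?_
          exact (Nat.log_pos (by norm_num) (by omega)).ne'
  exact_mod_cast h2

theorem wf_le (z : ℕ) : wf z ≤ z := by
  unfold wf
  have h1 : Nat.log 2 (Nat.log 2 z) ≤ Nat.log 2 z := Nat.log_le_self 2 _
  have h2 : Nat.log 2 z ≤ z := Nat.log_le_self 2 _
  omega

/-- `log log z ≤ 4 w + 4` -/
theorem loglog_le (z : ℕ) (hz : 4 ≤ z) : Real.log (Real.log z) ≤ 4 * wf z + 4 := by
  have h1 : Nat.log 2 (Nat.log 2 z) < 4 * wf z + 4 := by
    unfold wf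
    omega
  have h2 : Nat.log 2 z < 2 ^ (4 * wf z + 4) := by
    refine (Nat.lt_pow_succ_log_self (b := 2) (by norm_num) (Nat.log 2 z)).trans_le ?_
    exact Nat.pow_le_pow_right (by norm_num) h1
  have h3 : z < 2 ^ (Nat.log 2 z + 1) := Nat.lt_pow_succ_log_self (by norm_num) z
  have h4 : z < 2 ^ (2 ^ (4 * wf z + 4)) := h3.trans_le (Nat.pow_le_pow_right (by norm_num) h2)
  have hz0 : (0 : ℝ) < z := by
    have : 0 < z := by omega
    exact_mod_cast this
  have hz1 : (1 : ℝ) < z := by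
    have : 1 < z := by omega
    exact_mod_cast this
  have h5 : (z : ℝ) ≤ 2 ^ (2 ^ (4 * wf z + 4)) := by exact_mod_cast h4.le
  have h6 := Real.log_le_log hz0 h5
  rw [Real.log_pow] at h6
  push_cast at h6
  have hlog2 : Real.log 2 ≤ 1 := by
    have := Real.log_two_lt_d9
    linarith
  have h7 : Real.log z ≤ 2 ^ (4 * wf z + 4) := by
    refine h6.trans ?_
    exact mul_le_of_le_one_right (by positivity) hlog2
  have h8 := Real.log_le_log (Real.log_pos hz1) h7
  rw [Real.log_pow] at h8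
  push_cast at h8
  have h9 : (0 : ℝ) ≤ 4 * (wf z : ℝ) + 4 := by positivity
  refine h8.trans ?_
  exact mul_le_of_le_one_right h9 hlog2

theorem VV_union' (K : ℕ) {δ : ℝ} (hδ : 0 < δ) : ∀ᶠ z : ℕ in atTop, ∀ A A' : Finset ℕ,
    A.card ≤ K → A'.card ≤ K → Disjoint A A' → (∀ a ∈ A ∪ A', (a : ℝ) ≤ Real.log z ^ 2) →
      VV (wf z) z (A ∪ A') ≤ (1 + δ) * VV (wf z) z A * VV (wf z) z A' := by
  have hlogw : Tendsto (fun z : ℕ => Real.log (wf z : ℝ)) atTop atTop :=
    Real.tendsto_log_atTop.comp (tendsto_natCast_atTop_atTop.comp wf_tendsto')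
  have hld : 0 < Real.log (1 + δ) := Real.log_pos (by linarith)
  filter_upwards [hlogw.eventually_ge_atTop (32 * (K : ℝ) ^ 3 / Real.log (1 + δ)),
    wf_tendsto'.eventually_ge_atTop (2 * K + 2), eventually_ge_atTop 4] with z h1 h2 hz4
  intro A A' hA hA' hd hN
  set w := wf z with hw
  have hw2 : 2 ≤ w := by omega
  have hwR : (2 : ℝ) ≤ w := by exact_mod_cast hw2
  have hlw : 0 < Real.log w := Real.log_pos (by linarith)
  have hlz1 : 1 ≤ Real.log z := by
    have h3 : Real.exp 1 ≤ z := by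
      have h4 : (4 : ℝ) ≤ z := by exact_mod_cast hz4
      have := Real.exp_one_lt_d9
      linarith
    calc (1 : ℝ) = Real.log (Real.exp 1) := (Real.log_exp 1).symm
      _ ≤ Real.log z := Real.log_le_log (Real.exp_pos _) h3
  have hcol := card_Col w z K A A' hA hA' hd (Real.log z ^ 2) (one_le_pow₀ hlz1) hN hw2
  have hll := loglog_le z hz4
  rw [← hw] at hll
  rw [Real.log_pow] at hcol
  push_cast at hcol
  have hmain := VV_union_le w z K A A' hA' (by omega) (by omega)
  have hVA := VV_nonneg' w z A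
  have hVA' := VV_nonneg' w z A'
  have hpow : (1 + 2 * (K : ℝ) / w) ^ #(Col w z A A') ≤ 1 + δ := by
    have h3 : (1 + 2 * (K : ℝ) / w) ^ #(Col w z A A') ≤
        Real.exp (2 * K / w * #(Col w z A A')) := by
      rw [mul_comm (2 * (K : ℝ) / w) _, Real.exp_nat_mul]
      refine pow_le_pow_left₀ (by positivity) ?_ _
      rw [add_comm]
      exact Real.add_one_le_exp _
    refine h3.trans ?_
    rw [← Real.log_le_log_iff (Real.exp_pos _) (by linarith), Real.log_exp]
    have h4 : (#(Col w z A A') : ℝ) ≤ K ^ 2 * (2 * (4 * w + 4)) / Real.log w := by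
      rw [le_div_iff₀ hlw]
      refine hcol.trans ?_
      refine mul_le_mul_of_nonneg_left ?_ (by positivity)
      linarith
    have hK0 : (0 : ℝ) ≤ K := Nat.cast_nonneg _
    calc 2 * (K : ℝ) / w * #(Col w z A A')
        ≤ 2 * (K : ℝ) / w * (K ^ 2 * (2 * (4 * w + 4)) / Real.log w) :=
          mul_le_mul_of_nonneg_left h4 (by positivity)
      _ = (K : ℝ) ^ 3 * (16 * (w + 1) / w) / Real.log w := by
          field_simp
          ring
      _ ≤ (K : ℝ) ^ 3 * 32 / Real.log w := by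
          refine div_le_div_of_nonneg_right ?_ hlw.le
          refine mul_le_mul_of_nonneg_left ?_ (by positivity)
          rw [div_le_iff₀ (by linarith)]
          linarith
      _ ≤ Real.log (1 + δ) := by
          rw [div_le_iff₀ hlw]
          rw [div_le_iff₀ hld] at h1
          linarith
  calc VV w z (A ∪ A') ≤ VV w z A * VV w z A' * (1 + 2 * (K : ℝ) / w) ^ #(Col w z A A') := hmain
    _ ≤ VV w z A * VV w z A' * (1 + δ) := mul_le_mul_of_nonneg_left hpow (mul_nonneg hVA hVA')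
    _ = (1 + δ) * VV w z A * VV w z A' := by ring

theorem VV_le_pow' (K : ℕ) : ∀ᶠ z : ℕ in atTop, ∀ B : Finset ℕ, B.card ≤ K →
    (∀ a ∈ B, (a : ℝ) ≤ Real.log z ^ 2) → VV (wf z) z B ≤ 2 * V1 (wf z) z ^ B.card := by
  set δ : ℝ := 1 / (2 * ((K : ℝ) + 1)) with hδ
  have hδ0 : 0 < δ := by positivity
  filter_upwards [VV_union' (K + 1) hδ0] with z hz
  have key : ∀ B : Finset ℕ, B.card ≤ K → (∀ a ∈ B, (a : ℝ) ≤ Real.log z ^ 2) →
      VV (wf z) z B ≤ (1 + δ) ^ B.card * V1 (wf z) z ^ B.card := by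
    intro B
    induction B using Finset.induction_on with
    | empty =>
      intro _ _
      rw [VV_empty']
      simp
    | insert a B ha ih =>
      intro hB hN
      rw [Finset.card_insert_of_notMem ha] at hB ⊢
      have ih' := ih (by omega) fun x hx => hN x (Finset.mem_insert_of_mem hx)
      have h1 := hz {a} B (by simp) (by omega) (by
        rw [Finset.disjoint_singleton_left]
        exact ha) (by
        intro x hx
        rw [← Finset.insert_eq] at hx
        exact hN x hx)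
      rw [← Finset.insert_eq, VV_singleton'] at h1
      have hV := V1_pos' (wf z) z
      calc VV (wf z) z (insert a B) ≤ (1 + δ) * V1 (wf z) z * VV (wf z) z B := h1
        _ ≤ (1 + δ) * V1 (wf z) z * ((1 + δ) ^ #B * V1 (wf z) z ^ #B) :=
            mul_le_mul_of_nonneg_left ih' (by positivity)
        _ = (1 + δ) ^ (#B + 1) * V1 (wf z) z ^ (#B + 1) := by ring
  intro B hB hN
  refine (key B hB hN).trans ?_
  refine mul_le_mul_of_nonneg_right ?_ (pow_nonneg (V1_pos' _ _).le _)
  calc (1 + δ) ^ #B ≤ (1 + δ) ^ K := pow_le_pow_right₀ (by linarith) hB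
    _ ≤ Real.exp δ ^ K := by
        refine pow_le_pow_left₀ (by linarith) ?_ _
        rw [add_comm]
        exact Real.add_one_le_exp _
    _ = Real.exp (K * δ) := by rw [Real.exp_nat_mul]
    _ ≤ Real.exp (1 / 2) := by
        refine Real.exp_le_exp.2 ?_
        rw [hδ, mul_one_div, div_le_div_iff₀ (by positivity) (by norm_num)]
        linarith
    _ ≤ 2 := by
        have h1 : Real.exp (1 / 2) ^ 2 = Real.exp 1 := by
          rw [← Real.exp_nat_mul]
          congr 1
          norm_num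
        have h2 := Real.exp_one_lt_d9
        have h3 := Real.exp_pos (1 / 2)
        nlinarith

theorem primorial_dvd_le (w p : ℕ) (hp : p.Prime) (h : p ∣ primorial w) : p ≤ w := by
  unfold primorial at h
  obtain ⟨q, hq, hpq⟩ := (Prime.dvd_finsetProd_iff hp.prime _).1 h
  rw [Finset.mem_filter, Finset.mem_range] at hq
  have := (Nat.prime_dvd_prime_iff_eq hp hq.2).1 hpq
  omega

end Pool.Agent.LibLG5
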